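import Pool.Agent.Lib.MP_16285c_ag.Spec

/-!
# Extension of nonarchimedean absolute values (helper62)
-/

set_option autoImplicit false

namespace Pool.Agent.Lib.MP_16285c_ag

universe u

namespace AbvExtAux

/-- the spectral norm as an absolute value on the algebraic closure -/
theorem complete (Ev : Type u) [NontriviallyNormedField Ev] [CompleteSpace Ev]
    [IsUltrametricDist Ev] :
    ∃ w : AbsoluteValue (AlgebraicClosure Ev) ℝ, IsNonarchimedean w ∧
      ∀ x : Ev, w (algebraMap Ev (AlgebraicClosure Ev) x) = ‖x‖ := by
  refine ⟨{ toFun := fun x => spectralMulAlgNorm Ev (AlgebraicClosure Ev) x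
            map_mul' := fun x y => map_mul _ x y
            nonneg' := fun x => apply_nonneg _ x
            eq_zero' := fun x => map_eq_zero_iff_eq_zero _
            add_le' := fun x y => map_add_le_add _ x y }, ?_, ?_⟩
  · intro x y
    exact isNonarchimedean_spectralNorm x y
  · intro x
    exact spectralNorm_extends x

/-- a field with a nontrivial nonarchimedean absolute value embeds into a field as above -/
theorem nontriv {E : Type u} [Field E] (v : AbsoluteValue E ℝ) (hv : IsNonarchimedean v)
    (hnt : ∃ x, x ≠ 0 ∧ v x ≠ 1) :
    ∃ (Ω : Type u) (_ : Field Ω) (_ : IsAlgClosed Ω) (i : E →+* Ω) (w : AbsoluteValue Ω ℝ),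
      IsNonarchimedean w ∧ ∀ x : E, w (i x) = v x := by
  have hnorm : ∀ x : E, ‖((WithAbs.toAbs v x : WithAbs v) : v.Completion)‖ = v x := fun x =>
    UniformSpace.Completion.norm_coe _
  let _ : NontriviallyNormedField v.Completion :=
    NontriviallyNormedField.ofNormNeOne (𝕜 := v.Completion) (by
      obtain ⟨x, hx, hx1⟩ := hnt
      refine ⟨((WithAbs.toAbs v x : WithAbs v) : v.Completion), ?_, ?_⟩
      · intro h
        have h1 := hnorm x
        rw [h, norm_zero] at h1
        exact hx (v.eq_zero.mp h1.symm)
      · rw [hnorm]
        exact hx1)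
  have : IsUltrametricDist v.Completion := by
    rw [isUltrametricDist_iff_forall_norm_natCast_le_one]
    intro n
    have h1 : (n : v.Completion) = ((WithAbs.toAbs v (n : E) : WithAbs v) : v.Completion) := by
      have h2 : (WithAbs.toAbs v (n : E) : WithAbs v) = (n : WithAbs v) := by
        exact map_natCast (WithAbs.equiv v).symm n
      rw [h2]
      exact (map_natCast (UniformSpace.Completion.coeRingHom (α := WithAbs v)) n).symm
    rw [h1, hnorm]
    exact IsNonarchimedean.apply_natCast_le_one hv
  obtain ⟨w, hw1, hw2⟩ := complete v.Completion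
  refine ⟨AlgebraicClosure v.Completion, inferInstance, inferInstance,
    (algebraMap v.Completion (AlgebraicClosure v.Completion)).comp
      ((UniformSpace.Completion.coeRingHom (α := WithAbs v)).comp
        ((WithAbs.equiv v).symm : E →+* WithAbs v)), w, hw1, ?_⟩
  intro x
  have h1 := hw2 ((WithAbs.toAbs v x : WithAbs v) : v.Completion)
  exact h1.trans (hnorm x)

end AbvExtAux

/-- **Extension of nonarchimedean absolute values.** -/
theorem abvExtP : AbvExtProp.{u} := by
  intro E L _ _ _ _ v hv
  classical
  by_cases hnt : ∃ x, x ≠ 0 ∧ v x ≠ 1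
  · obtain ⟨Ω, _, _, i, w, hw1, hw2⟩ := AbvExtAux.nontriv v hv hnt
    let _ : Algebra E Ω := i.toAlgebra
    let j : L →ₐ[E] Ω := IsAlgClosed.lift
    refine ⟨w.comp (f := (j : L →+* Ω)) (RingHom.injective _), ?_, ?_⟩
    · intro x y
      have h1 := hw1 (j x) (j y)
      rw [← map_add] at h1
      exact h1
    · intro x
      have h1 : j (algebraMap E L x) = i x := j.commutes x
      have h2 := hw2 x
      rw [← h1] at h2
      exact h2
  · push Not at hnt
    refine ⟨AbsoluteValue.trivial, ?_, ?_⟩
    · intro x y
      by_cases hx : x = 0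
      · subst hx
        simp
      by_cases hy : y = 0
      · subst hy
        simp
      rw [AbsoluteValue.trivial_apply hx, AbsoluteValue.trivial_apply hy]
      by_cases hxy : x + y = 0
      · rw [hxy, map_zero]
        norm_num
      · rw [AbsoluteValue.trivial_apply hxy]
        norm_num
    · intro x
      by_cases hx : x = 0
      · subst hx
        simp
      · rw [AbsoluteValue.trivial_apply (by
          intro h
          exact hx ((map_eq_zero _).mp h)), hnt x hx]

end Pool.Agent.Lib.MP_16285c_ag
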