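import Pool.Agent.Lib.MP_16285c_ag.Spec

/-!
# Extension of admissible families of absolute values to finite Galois extensions
-/

set_option autoImplicit false

namespace Pool.Agent.Lib.MP_16285c_ag

universe u

namespace AdmExtAux

open Height Function

/-- A positive power of a nonarchimedean absolute value. -/
def powAbs {L : Type u} [Field L] (w : AbsoluteValue L ℝ) (hw : IsNonarchimedean w) (m : ℕ)
    (hm : 1 ≤ m) : AbsoluteValue L ℝ where
  toFun x := w x ^ m
  map_mul' x y := by rw [map_mul, mul_pow]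
  nonneg' x := pow_nonneg (w.nonneg x) m
  eq_zero' x := by
    rw [pow_eq_zero_iff (by omega)]
    exact w.eq_zero
  add_le' x y := by
    have h := hw x y
    have h1 : w (x + y) ^ m ≤ (max (w x) (w y)) ^ m := pow_le_pow_left₀ (w.nonneg _) h m
    have h2 : 0 ≤ w x ^ m := pow_nonneg (w.nonneg x) m
    have h3 : 0 ≤ w y ^ m := pow_nonneg (w.nonneg y) m
    rcases le_total (w x) (w y) with h4 | h4
    · rw [max_eq_right h4] at h1
      linarith
    · rw [max_eq_left h4] at h1
      linarith

theorem powAbs_apply {L : Type u} [Field L] (w : AbsoluteValue L ℝ) (hw : IsNonarchimedean w)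
    (m : ℕ) (hm : 1 ≤ m) (x : L) : powAbs w hw m hm x = w x ^ m := rfl

theorem powAbs_nonarch {L : Type u} [Field L] (w : AbsoluteValue L ℝ) (hw : IsNonarchimedean w)
    (m : ℕ) (hm : 1 ≤ m) : IsNonarchimedean (powAbs w hw m hm) := by
  intro x y
  rw [powAbs_apply, powAbs_apply, powAbs_apply]
  have h1 : w (x + y) ^ m ≤ (max (w x) (w y)) ^ m := pow_le_pow_left₀ (w.nonneg _) (hw x y) m
  rcases le_total (w x) (w y) with h4 | h4
  · rw [max_eq_right h4] at h1
    exact h1.trans (le_max_right _ _)
  · rw [max_eq_left h4] at h1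
    exact h1.trans (le_max_left _ _)

/-- Integral elements have absolute value at most one. -/
theorem le_one_of_coeff {E L : Type u} [Field E] [Field L] [Algebra E L] (w : AbsoluteValue L ℝ)
    (hw : IsNonarchimedean w) (y : L) (hy : IsIntegral E y)
    (hc : ∀ i, w (algebraMap E L ((minpoly E y).coeff i)) ≤ 1) : w y ≤ 1 := by
  by_contra hlt
  push Not at hlt
  set p := minpoly E y with hp
  have hmon : p.Monic := minpoly.monic hy
  have hdeg : 0 < p.natDegree := minpoly.natDegree_pos hy
  have hsum : ∑ i ∈ Finset.range p.natDegree, algebraMap E L (p.coeff i) * y ^ i + y ^ p.natDegree = 0 := by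
    have h := minpoly.aeval E y
    rw [Polynomial.aeval_eq_sum_range, Finset.sum_range_succ, ← hp, hmon.coeff_natDegree] at h
    simp only [Algebra.smul_def, map_one, one_mul] at h
    exact h
  have hy' : y ^ p.natDegree = - ∑ i ∈ Finset.range p.natDegree, algebraMap E L (p.coeff i) * y ^ i := by
    linear_combination hsum
  obtain ⟨i, hi, hle⟩ := IsNonarchimedean.finset_image_add_of_nonempty hw
    (fun i => algebraMap E L (p.coeff i) * y ^ i)
    (t := Finset.range p.natDegree) (Finset.nonempty_range_iff.2 (by omega))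
  have h1 : w (y ^ p.natDegree) ≤ w (algebraMap E L (p.coeff i) * y ^ i) := by
    rw [hy', w.map_neg]
    exact hle
  rw [map_mul, map_pow, map_pow] at h1
  have h2 : w (algebraMap E L (p.coeff i)) * w y ^ i ≤ w y ^ i := by
    have := mul_le_mul_of_nonneg_right (hc i) (pow_nonneg (w.nonneg y) i)
    linarith
  have h3 : w y ^ i < w y ^ p.natDegree := pow_lt_pow_right₀ hlt (Finset.mem_range.1 hi)
  linarith

section

variable {E L : Type u} [Field E] [Field L] [Algebra E L] [FiniteDimensional E L] [IsGalois E L]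

/-- The composition with an automorphism. -/
noncomputable def tw (w : AbsoluteValue L ℝ) (g : L ≃ₐ[E] L) : AbsoluteValue L ℝ :=
  w.comp (f := (g : L →+* L)) g.injective

theorem tw_apply (w : AbsoluteValue L ℝ) (g : L ≃ₐ[E] L) (x : L) : tw w g x = w (g x) := rfl

theorem tw_nonarch (w : AbsoluteValue L ℝ) (hw : IsNonarchimedean w) (g : L ≃ₐ[E] L) :
    IsNonarchimedean (tw w g) := by
  intro x y
  rw [tw_apply, tw_apply, tw_apply, map_add]
  exact hw _ _

open scoped Classical in
/-- The order of the stabilizer. -/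
noncomputable def mm (w : AbsoluteValue L ℝ) : ℕ :=
  (Finset.univ.filter (fun g : L ≃ₐ[E] L => tw w g = w)).card

theorem one_le_mm (w : AbsoluteValue L ℝ) : 1 ≤ mm (E := E) w := by
  classical
  unfold mm
  rw [Nat.succ_le_iff, Finset.card_pos]
  refine ⟨1, ?_⟩
  rw [Finset.mem_filter]
  refine ⟨Finset.mem_univ _, ?_⟩
  ext x
  rw [tw_apply]
  rfl

open scoped Classical in
theorem card_fib (w : AbsoluteValue L ℝ) (g₀ : L ≃ₐ[E] L) :
    (Finset.univ.filter (fun g : L ≃ₐ[E] L => tw w g = tw w g₀)).card = mm (E := E) w := by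
  unfold mm
  refine Finset.card_bij (fun g _ => g * g₀⁻¹) ?_ ?_ ?_
  · intro g hg
    rw [Finset.mem_filter] at hg ⊢
    refine ⟨Finset.mem_univ _, ?_⟩
    ext x
    have h := DFunLike.congr_fun hg.2 (g₀⁻¹ x)
    rw [tw_apply, tw_apply] at h
    rw [tw_apply]
    show w (g (g₀⁻¹ x)) = w x
    rw [h]
    congr 1
    exact g₀.apply_symm_apply x
  · intro a _ b _ h
    exact mul_right_cancel h
  · intro b hb
    rw [Finset.mem_filter] at hb
    refine ⟨b * g₀, ?_, by group⟩
    rw [Finset.mem_filter]
    refine ⟨Finset.mem_univ _, ?_⟩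
    ext x
    have h := DFunLike.congr_fun hb.2 (g₀ x)
    rw [tw_apply] at h
    rw [tw_apply, tw_apply]
    exact h

/-- The absolute values of the new family over `v`. -/
noncomputable def uu (w : AbsoluteValue L ℝ) (hw : IsNonarchimedean w) (g : L ≃ₐ[E] L) :
    AbsoluteValue L ℝ :=
  powAbs (tw w g) (tw_nonarch w hw g) (mm (E := E) w) (one_le_mm w)

theorem uu_apply (w : AbsoluteValue L ℝ) (hw : IsNonarchimedean w) (g : L ≃ₐ[E] L) (x : L) :
    uu w hw g x = w (g x) ^ mm (E := E) w := rfl

theorem uu_eq_iff (w : AbsoluteValue L ℝ) (hw : IsNonarchimedean w) (g g' : L ≃ₐ[E] L) :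
    uu w hw g = uu w hw g' ↔ tw w g = tw w g' := by
  constructor
  · intro h
    ext x
    have h1 := DFunLike.congr_fun h x
    rw [uu_apply, uu_apply] at h1
    rw [tw_apply, tw_apply]
    exact (pow_left_inj₀ (w.nonneg _) (w.nonneg _) (by have := one_le_mm (E := E) w; omega)).1 h1
  · intro h
    ext x
    have h1 := DFunLike.congr_fun h x
    rw [tw_apply, tw_apply] at h1
    rw [uu_apply, uu_apply, h1]

open scoped Classical in
/-- The finite set of absolute values over `v`. -/
noncomputable def SS (w : AbsoluteValue L ℝ) (hw : IsNonarchimedean w) :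
    Finset (AbsoluteValue L ℝ) :=
  Finset.univ.image (fun g : L ≃ₐ[E] L => uu w hw g)

open scoped Classical in
theorem prod_SS (w : AbsoluteValue L ℝ) (hw : IsNonarchimedean w) (f : ℝ → ℝ)
    (hf : ∀ (t : ℝ) (m : ℕ), 0 ≤ t → f (t ^ m) = f t ^ m) (x : L) :
    ∏ b ∈ SS (E := E) w hw, f (b x) = ∏ g : L ≃ₐ[E] L, f (w (g x)) := by
  rw [← Finset.prod_fiberwise_of_maps_to (s := Finset.univ) (t := SS (E := E) w hw)
    (g := fun g : L ≃ₐ[E] L => uu w hw g) (fun g _ => Finset.mem_image_of_mem _ (Finset.mem_univ g))]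
  refine Finset.prod_congr rfl ?_
  intro b hb
  unfold SS at hb
  rw [Finset.mem_image] at hb
  obtain ⟨g₀, -, rfl⟩ := hb
  have h1 : ∀ g ∈ Finset.univ.filter (fun g : L ≃ₐ[E] L => uu w hw g = uu w hw g₀),
      f (w (g x)) = f (w (g₀ x)) := by
    intro g hg
    rw [Finset.mem_filter, uu_eq_iff] at hg
    have := DFunLike.congr_fun hg.2 x
    rw [tw_apply, tw_apply] at this
    rw [this]
  rw [Finset.prod_congr rfl h1, Finset.prod_const, uu_apply, hf _ _ (w.nonneg _)]
  congr 1
  rw [← card_fib w g₀]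
  congr 1
  ext g
  rw [Finset.mem_filter, Finset.mem_filter, uu_eq_iff]

end

section

variable {E L : Type u} [Field E] [Field L] [Algebra E L] [FiniteDimensional E L] [IsGalois E L]
  {A : Height.AdmissibleAbsValues E}
  (w : A.nonarchAbsVal → AbsoluteValue L ℝ) (hw : ∀ v, IsNonarchimedean (w v))

/-- The new set of absolute values. -/
def NS : Set (AbsoluteValue L ℝ) := {b | ∃ v, b ∈ SS (E := E) (w v) (hw v)}

open scoped Classical in
theorem finprod_NS
    (hdis : ∀ v v', v ≠ v' → Disjoint (SS (E := E) (w v) (hw v)) (SS (E := E) (w v') (hw v')))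
    (f : ℝ → ℝ)
    (hf : ∀ (t : ℝ) (m : ℕ), 0 ≤ t → f (t ^ m) = f t ^ m) (x : L) (F : Finset A.nonarchAbsVal)
    (hF : ∀ v, v ∉ F → ∀ g : L ≃ₐ[E] L, f (w v (g x)) = 1) :
    ∏ᶠ b : NS (E := E) w hw, f (b.val x) = ∏ v ∈ F, ∏ g : L ≃ₐ[E] L, f (w v (g x)) := by
  rw [finprod_set_coe_eq_finprod_mem (f := fun b : AbsoluteValue L ℝ => f (b x)) (NS (E := E) w hw)]
  rw [finprod_mem_eq_prod_of_inter_mulSupport_eq (t := F.biUnion (fun v => SS (E := E) (w v) (hw v)))]
  · rw [Finset.prod_biUnion (fun v _ v' _ h => hdis v v' h)]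
    exact Finset.prod_congr rfl (fun v _ => prod_SS (w v) (hw v) f hf x)
  · ext b
    constructor
    · rintro ⟨⟨v, hv⟩, hb⟩
      refine ⟨?_, hb⟩
      rw [Finset.mem_coe, Finset.mem_biUnion]
      refine ⟨v, ?_, hv⟩
      by_contra hvF
      apply hb
      show f (b x) = 1
      unfold SS at hv
      rw [Finset.mem_image] at hv
      obtain ⟨g, -, rfl⟩ := hv
      rw [uu_apply, hf _ _ ((w v).nonneg _), hF v hvF g, one_pow]
    · rintro ⟨hb1, hb⟩
      refine ⟨?_, hb⟩
      rw [Finset.mem_coe, Finset.mem_biUnion] at hb1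
      obtain ⟨v, -, hv⟩ := hb1
      exact ⟨v, hv⟩

include hw in
/-- Finiteness. -/
theorem finite_gt (hext : ∀ v (x : E), w v (algebraMap E L x) = v.val x)
    (y : L) : {v : A.nonarchAbsVal | ∃ g : L ≃ₐ[E] L, 1 < w v (g y)}.Finite := by
  have hfin : (⋃ i ∈ (minpoly E y).support, {v : A.nonarchAbsVal | v.val ((minpoly E y).coeff i) ≠ 1}).Finite := by
    refine Set.Finite.biUnion (Finset.finite_toSet _) ?_
    intro i hi
    exact A.hasFiniteMulSupport (Polynomial.mem_support_iff.1 hi)
  refine hfin.subset ?_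
  rintro v ⟨g, hg⟩
  by_contra hv
  rw [Set.mem_iUnion₂] at hv
  push Not at hv
  refine absurd (le_one_of_coeff (E := E) (w v) (hw v) (g y) (Algebra.IsIntegral.isIntegral _) ?_) (not_le.2 hg)
  intro i
  rw [minpoly.algEquiv_eq, hext]
  by_cases hi : i ∈ (minpoly E y).support
  · have := hv i hi
    simp only [Set.mem_ofPred_eq, not_not] at this
    rw [this]
  · rw [Polynomial.notMem_support_iff.1 hi, v.val.map_zero]
    exact zero_le_one

include hw in
theorem finite_ne (hext : ∀ v (x : E), w v (algebraMap E L x) = v.val x)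
    (y : L) (hy : y ≠ 0) : {v : A.nonarchAbsVal | ∃ g : L ≃ₐ[E] L, w v (g y) ≠ 1}.Finite := by
  refine ((finite_gt w hw hext y).union (finite_gt w hw hext y⁻¹)).subset ?_
  rintro v ⟨g, hg⟩
  rcases lt_or_gt_of_ne hg with h | h
  · right
    refine ⟨g, ?_⟩
    rw [map_inv₀, map_inv₀]
    have hpos : 0 < w v (g y) := by
      rw [(w v).pos_iff]
      exact (map_ne_zero_iff g g.injective).2 hy
    exact (one_lt_inv₀ hpos).2 h
  · left
    exact ⟨g, h⟩

end

end AdmExtAux

open AdmExtAux in
theorem admExtP (h1 : AbvExtProp.{u}) : AdmExtProp.{u} := by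
  classical
  intro E L _ _ _ _ _ A hA0 hA
  have hch := fun v : A.nonarchAbsVal => h1 E L v.val (A.isNonarchimedean _ v.2)
  choose w hw hext using hch
  have hdis : ∀ v v', v ≠ v' → Disjoint (SS (E := E) (w v) (hw v)) (SS (E := E) (w v') (hw v')) := by
    intro v v' hne
    rw [Finset.disjoint_left]
    intro b hb hb'
    unfold SS at hb hb'
    rw [Finset.mem_image] at hb hb'
    obtain ⟨g, -, rfl⟩ := hb
    obtain ⟨g', -, h⟩ := hb'
    apply hne
    apply Subtype.ext
    refine hA v.val v.2 v'.val v'.2 _ _ (one_le_mm (E := E) (w v)) (one_le_mm (E := E) (w v')) ?_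
    intro x
    have h2 := DFunLike.congr_fun h (algebraMap E L x)
    rw [uu_apply, uu_apply, AlgEquiv.commutes, AlgEquiv.commutes, hext, hext] at h2
    exact h2.symm
  have hid : ∀ (t : ℝ) (m : ℕ), 0 ≤ t → (fun t : ℝ => t) (t ^ m) = (fun t : ℝ => t) t ^ m := fun _ _ _ => rfl
  have hmax : ∀ (t : ℝ) (m : ℕ), 0 ≤ t → (fun t : ℝ => max t 1) (t ^ m) = (fun t : ℝ => max t 1) t ^ m := by
    intro t m ht
    show max (t ^ m) 1 = (max t 1) ^ m
    rcases le_total t 1 with h | h
    · rw [max_eq_right h, one_pow, max_eq_right (pow_le_one₀ ht h)]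
    · rw [max_eq_left h, max_eq_left (one_le_pow₀ h)]
  have hnorm : ∀ v (x : L), ∏ g : L ≃ₐ[E] L, w v (g x) = v.val (Algebra.norm E x) := by
    intro v x
    rw [← hext, Algebra.norm_eq_prod_automorphisms, map_prod]
  let A' : Height.AdmissibleAbsValues L :=
    { archAbsVal := 0
      nonarchAbsVal := NS (E := E) w hw
      isNonarchimedean := by
        rintro b ⟨v, hv⟩
        unfold SS at hv
        rw [Finset.mem_image] at hv
        obtain ⟨g, -, rfl⟩ := hv
        exact powAbs_nonarch _ _ _ _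
      hasFiniteMulSupport := by
        intro x hx
        have hfin := finite_ne w hw hext x hx
        have hfin2 : (⋃ v ∈ {v : A.nonarchAbsVal | ∃ g : L ≃ₐ[E] L, w v (g x) ≠ 1},
            ((SS (E := E) (w v) (hw v) : Finset _) : Set (AbsoluteValue L ℝ))).Finite :=
          hfin.biUnion (fun v _ => Finset.finite_toSet _)
        have hfin3 : ((fun b : NS (E := E) w hw => b.val) ⁻¹' (⋃ v ∈ {v : A.nonarchAbsVal | ∃ g : L ≃ₐ[E] L, w v (g x) ≠ 1},
            ((SS (E := E) (w v) (hw v) : Finset _) : Set (AbsoluteValue L ℝ)))).Finite :=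
          hfin2.preimage Subtype.val_injective.injOn
        refine hfin3.subset ?_
        rintro ⟨b, v, hv⟩ hb
        rw [Set.mem_preimage, Set.mem_iUnion₂]
        refine ⟨v, ?_, hv⟩
        unfold SS at hv
        rw [Finset.mem_image] at hv
        obtain ⟨g, -, hg⟩ := hv
        refine ⟨g, ?_⟩
        intro h
        apply hb
        show b x = 1
        rw [← hg, uu_apply, h, one_pow]
      product_formula := by
        intro x hx
        have hfin := finite_ne w hw hext x hx
        rw [Multiset.map_zero, Multiset.prod_zero, one_mul]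
        have hN : Algebra.norm E x ≠ 0 := by
          rw [Ne, Algebra.norm_eq_zero_iff]
          exact hx
        have hpf := A.product_formula hN
        rw [hA0, Multiset.map_zero, Multiset.prod_zero, one_mul] at hpf
        rw [finprod_NS w hw hdis (fun t => t) hid x hfin.toFinset ?_]
        · rw [Finset.prod_congr rfl (fun v _ => hnorm v x)]
          refine Eq.trans ?_ hpf
          symm
          refine finprod_eq_prod_of_mulSupport_subset _ ?_
          intro v hv
          rw [Finset.mem_coe, Set.Finite.mem_toFinset]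
          by_contra hcon
          apply hv
          show v.val (Algebra.norm E x) = 1
          rw [← hnorm]
          refine Finset.prod_eq_one ?_
          intro g _
          by_contra h
          exact hcon ⟨g, h⟩
        · intro v hv g
          rw [Set.Finite.mem_toFinset] at hv
          by_contra h
          exact hv ⟨g, h⟩ }
  refine ⟨A', ?_⟩
  intro x
  rcases eq_or_ne x 0 with rfl | hx
  · rw [map_zero, @Height.logHeight₁_zero E _ A, @Height.logHeight₁_zero L _ A']
  rw [@Height.logHeight₁_eq_log_mulHeight₁ E _ A, @Height.logHeight₁_eq_log_mulHeight₁ L _ A']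
  refine Real.log_le_log (@Height.mulHeight₁_pos E _ A x) ?_
  rw [@Height.mulHeight₁_eq E _ A, @Height.mulHeight₁_eq L _ A', hA0]
  show (Multiset.map (fun v : AbsoluteValue E ℝ => max (v x) 1) 0).prod * ∏ᶠ v : A.nonarchAbsVal, max (v.val x) 1 ≤
    (Multiset.map (fun v : AbsoluteValue L ℝ => max (v (algebraMap E L x)) 1) 0).prod *
      ∏ᶠ b : NS (E := E) w hw, max (b.val (algebraMap E L x)) 1
  rw [Multiset.map_zero, Multiset.map_zero, Multiset.prod_zero, one_mul, one_mul]
  have hfin : {v : A.nonarchAbsVal | v.val x ≠ 1}.Finite := A.hasFiniteMulSupport hx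
  have hL := finprod_NS w hw hdis (fun t => max t 1) hmax (algebraMap E L x) hfin.toFinset (by
    intro v hv g
    rw [Set.Finite.mem_toFinset] at hv
    simp only [Set.mem_ofPred_eq, not_not] at hv
    show max (w v (g (algebraMap E L x))) 1 = 1
    rw [AlgEquiv.commutes, hext, hv, max_self])
  have hE : ∏ᶠ v : A.nonarchAbsVal, max (v.val x) 1 = ∏ v ∈ hfin.toFinset, max (v.val x) 1 := by
    refine finprod_eq_prod_of_mulSupport_subset _ ?_
    intro v hv
    rw [Finset.mem_coe, Set.Finite.mem_toFinset]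
    intro h
    apply hv
    show max (v.val x) 1 = 1
    rw [h, max_self]
  rw [hE]
  refine le_trans ?_ (le_of_eq hL.symm)
  refine Finset.prod_le_prod (fun v _ => le_trans zero_le_one (le_max_right _ _)) ?_
  intro v _
  show max (v.val x) 1 ≤ ∏ g : L ≃ₐ[E] L, max (w v (g (algebraMap E L x))) 1
  have hcon : ∀ g ∈ (Finset.univ : Finset (L ≃ₐ[E] L)), max (w v (g (algebraMap E L x))) 1 = max (v.val x) 1 := by
    intro g _
    rw [AlgEquiv.commutes, hext]
  rw [Finset.prod_congr rfl hcon, Finset.prod_const]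
  refine le_self_pow₀ (le_max_right _ _) ?_
  rw [Finset.card_univ]
  exact Fintype.card_ne_zero

end Pool.Agent.Lib.MP_16285c_ag
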