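import Pool.Agent.Lib.MP_16285c_ag.Spec

/-!
# Admissible absolute values of rational function fields (helper62)
-/

set_option autoImplicit false

namespace Pool.Agent.Lib.MP_16285c_ag

universe u

namespace AdmRatAux

open Polynomial IsDedekindDomain NNReal

variable (F : Type u) [Field F]

/-- degree of a place -/
noncomputable def dg (h : HeightOneSpectrum F[X]) : ℕ :=
  (Submodule.IsPrincipal.generator h.asIdeal).natDegree

theorem dg_eq (h : HeightOneSpectrum F[X]) (p : F[X]) (hp : h.asIdeal = Ideal.span {p}) :
    dg F h = p.natDegree := by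
  have h1 : Associated (Submodule.IsPrincipal.generator h.asIdeal) p := by
    rw [← Ideal.span_singleton_eq_span_singleton, ← hp]
    exact Ideal.span_singleton_generator _
  exact natDegree_eq_of_degree_eq (degree_eq_degree_of_associated h1)

theorem prime_gen (h : HeightOneSpectrum F[X]) :
    Prime (Submodule.IsPrincipal.generator h.asIdeal) := by
  have h1 : Submodule.IsPrincipal.generator h.asIdeal ≠ 0 := by
    intro h2
    exact h.ne_bot ((Submodule.IsPrincipal.eq_bot_iff_generator_eq_zero _).mpr h2)
  exact Submodule.IsPrincipal.prime_generator_of_isPrime _ h.ne_bot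

theorem dg_pos (h : HeightOneSpectrum F[X]) : 1 ≤ dg F h := by
  exact (prime_gen F h).irreducible.natDegree_pos

/-- base of a place -/
noncomputable def bs (h : HeightOneSpectrum F[X]) : ℝ≥0 := 2 ^ dg F h

theorem one_lt_bs (h : HeightOneSpectrum F[X]) : 1 < bs F h :=
  one_lt_pow₀ one_lt_two (by have := dg_pos F h; omega)

open Classical in
/-- the absolute value at infinity -/
noncomputable def avInf : AbsoluteValue (RatFunc F) ℝ where
  toFun x := if x = 0 then 0 else 2 ^ x.intDegree
  map_mul' x y := by
    by_cases hx : x = 0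
    · simp [hx]
    by_cases hy : y = 0
    · simp [hy]
    simp only [hx, hy, mul_eq_zero, or_self, if_false]
    rw [RatFunc.intDegree_mul hx hy, zpow_add₀ (by norm_num)]
  nonneg' x := by
    split_ifs
    · exact le_rfl
    · positivity
  eq_zero' x := by
    split_ifs with h
    · simp [h]
    · have h1 : (2 : ℝ) ^ x.intDegree ≠ 0 := by positivity
      simp only [h1, h]
  add_le' x y := by
    by_cases hx : x = 0
    · simp [hx]
    by_cases hy : y = 0
    · simp [hy]
    by_cases hxy : x + y = 0
    · simp only [hx, hy, hxy, if_true, if_false]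
      positivity
    simp only [hx, hy, hxy, if_false]
    have h1 := RatFunc.intDegree_add_le hy hxy
    rcases le_max_iff.mp h1 with h2 | h2
    · have h3 : (2 : ℝ) ^ (x + y).intDegree ≤ 2 ^ x.intDegree :=
        zpow_le_zpow_right₀ (by norm_num) h2
      have h4 : (0 : ℝ) < 2 ^ y.intDegree := by positivity
      linarith
    · have h3 : (2 : ℝ) ^ (x + y).intDegree ≤ 2 ^ y.intDegree :=
        zpow_le_zpow_right₀ (by norm_num) h2
      have h4 : (0 : ℝ) < 2 ^ x.intDegree := by positivity
      linarith

theorem avInf_apply {x : RatFunc F} (hx : x ≠ 0) : avInf F x = 2 ^ x.intDegree :=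
  if_neg hx

theorem avInf_na : IsNonarchimedean (avInf F) := by
  intro x y
  by_cases hx : x = 0
  · subst hx
    rw [zero_add]
    exact le_max_right _ _
  by_cases hy : y = 0
  · subst hy
    rw [add_zero]
    exact le_max_left _ _
  by_cases hxy : x + y = 0
  · rw [hxy, map_zero]
    exact le_max_of_le_left ((avInf F).nonneg _)
  rw [avInf_apply F hx, avInf_apply F hy, avInf_apply F hxy]
  have h1 := RatFunc.intDegree_add_le hy hxy
  rcases le_max_iff.mp h1 with h2 | h2
  · exact le_max_of_le_left (zpow_le_zpow_right₀ (by norm_num) h2)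
  · exact le_max_of_le_right (zpow_le_zpow_right₀ (by norm_num) h2)

/-- all the absolute values -/
noncomputable def av : Option (HeightOneSpectrum F[X]) → AbsoluteValue (RatFunc F) ℝ
  | none => avInf F
  | some h => h.adicAbv (one_lt_bs F h)

theorem av_na (i : Option (HeightOneSpectrum F[X])) : IsNonarchimedean (av F i) := by
  cases i with
  | none => exact avInf_na F
  | some h => exact HeightOneSpectrum.isNonarchimedean_adicAbv h _

theorem av_none_X : av F none RatFunc.X = 2 := by
  change avInf F RatFunc.X = 2
  rw [avInf_apply F RatFunc.X_ne_zero, RatFunc.intDegree_X, zpow_one]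

theorem av_some_le (h : HeightOneSpectrum F[X]) (p : F[X]) :
    av F (some h) (algebraMap F[X] (RatFunc F) p) ≤ 1 :=
  HeightOneSpectrum.adicAbv_coe_le_one h _ p

theorem av_some_lt (h : HeightOneSpectrum F[X]) (p : F[X]) :
    av F (some h) (algebraMap F[X] (RatFunc F) p) < 1 ↔ p ∈ h.asIdeal :=
  HeightOneSpectrum.adicAbv_coe_lt_one_iff h _ p

theorem av_some_eq (h : HeightOneSpectrum F[X]) (p : F[X]) :
    av F (some h) (algebraMap F[X] (RatFunc F) p) = 1 ↔ p ∉ h.asIdeal :=
  HeightOneSpectrum.adicAbv_coe_eq_one_iff h _ p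

/-- different places are inequivalent -/
theorem key (i j : Option (HeightOneSpectrum F[X])) (m m' : ℕ) (hm : 1 ≤ m) (hm' : 1 ≤ m')
    (H : ∀ x, av F i x ^ m = av F j x ^ m') : i = j := by
  have hX : ∀ h : HeightOneSpectrum F[X], av F (some h) RatFunc.X ≤ 1 := by
    intro h
    rw [← RatFunc.algebraMap_X]
    exact av_some_le F h X
  cases i with
  | none =>
    cases j with
    | none => rfl
    | some h =>
      exfalso
      have h1 := H RatFunc.X
      rw [av_none_X] at h1
      have h2 : (av F (some h) RatFunc.X) ^ m' ≤ 1 :=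
        pow_le_one₀ ((av F (some h)).nonneg _) (hX h)
      have h3 : (1 : ℝ) < 2 ^ m := one_lt_pow₀ (by norm_num) (by omega)
      linarith
  | some h =>
    cases j with
    | none =>
      exfalso
      have h1 := H RatFunc.X
      rw [av_none_X] at h1
      have h2 : (av F (some h) RatFunc.X) ^ m ≤ 1 :=
        pow_le_one₀ ((av F (some h)).nonneg _) (hX h)
      have h3 : (1 : ℝ) < 2 ^ m' := one_lt_pow₀ (by norm_num) (by omega)
      linarith
    | some h' =>
      congr 1
      apply HeightOneSpectrum.ext
      ext p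
      rw [← av_some_lt F h p, ← av_some_lt F h' p]
      rw [← pow_lt_one_iff_of_nonneg ((av F (some h)).nonneg _) (by omega : m ≠ 0), H,
        pow_lt_one_iff_of_nonneg ((av F (some h')).nonneg _) (by omega : m' ≠ 0)]

theorem av_inj : Function.Injective (av F) := by
  intro i j hij
  exact key F i j 1 1 le_rfl le_rfl (fun x => by rw [hij])

theorem fin_poly (p : F[X]) (hp : p ≠ 0) :
    (fun i => av F i (algebraMap F[X] (RatFunc F) p)).HasFiniteMulSupport := by
  have h1 : {v : HeightOneSpectrum F[X] | v.asIdeal ∣ Ideal.span {p}}.Finite :=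
    Ideal.finite_factors (by simpa using hp)
  refine ((h1.image some).insert none).subset ?_
  intro i hi
  cases i with
  | none => exact Or.inl rfl
  | some h =>
    refine Or.inr ⟨h, ?_, rfl⟩
    have h2 : av F (some h) (algebraMap F[X] (RatFunc F) p) ≠ 1 := hi
    rw [Ne, av_some_eq, not_not] at h2
    exact Ideal.dvd_span_singleton.mpr h2

theorem fin_all (x : RatFunc F) (hx : x ≠ 0) :
    (fun i => av F i x).HasFiniteMulSupport := by
  have h1 : x.num ≠ 0 := RatFunc.num_ne_zero hx
  have h2 : x.denom ≠ 0 := RatFunc.denom_ne_zero x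
  have h3 := (fin_poly F _ h1).div (fin_poly F _ h2)
  refine h3.subset ?_
  intro i hi
  have h4 : av F i x = av F i (algebraMap F[X] (RatFunc F) x.num) /
      av F i (algebraMap F[X] (RatFunc F) x.denom) := by
    rw [← map_div₀, RatFunc.num_div_denom]
  intro h5
  apply hi
  change av F i x = 1
  rw [h4]
  exact h5

theorem unit_one (u : F[X]) (hu : IsUnit u) (i : Option (HeightOneSpectrum F[X])) :
    av F i (algebraMap F[X] (RatFunc F) u) = 1 := by
  cases i with
  | none =>
    change avInf F _ = 1
    rw [avInf_apply F (by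
      intro h
      rw [map_eq_zero_iff _ (IsFractionRing.injective F[X] (RatFunc F))] at h
      exact hu.ne_zero h), RatFunc.intDegree_polynomial, natDegree_eq_zero_of_isUnit hu]
    simp
  | some h =>
    rw [av_some_eq]
    intro h1
    exact h.isPrime.ne_top (Ideal.eq_top_of_isUnit_mem _ h1 hu)

theorem some_prime (q : F[X]) (hq : Prime q) (h : HeightOneSpectrum F[X]) (hqh : q ∈ h.asIdeal) :
    av F (some h) (algebraMap F[X] (RatFunc F) q) = 2 ^ (-(q.natDegree : ℤ)) := by
  have h1 : h.asIdeal = Ideal.span {q} := by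
    have h2 : (Ideal.span {q}).IsMaximal := PrincipalIdealRing.isMaximal_of_irreducible hq.irreducible
    exact (h2.eq_of_le h.isPrime.ne_top
      ((Ideal.span_singleton_le_iff_mem _).mpr hqh)).symm
  change h.adicAbv (one_lt_bs F h) (algebraMap F[X] (RatFunc F) q) = _
  rw [HeightOneSpectrum.adicAbv_of_algebraMap]
  change ((WithZeroMulInt.toNNReal (ne_zero_of_lt (one_lt_bs F h)) (h.intValuation q) : ℝ≥0) : ℝ) = _
  rw [h.intValuation_singleton hq.ne_zero h1]
  rw [WithZeroMulInt.toNNReal_neg_apply _ WithZero.exp_ne_zero]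
  have h3 : ((WithZero.unzero (WithZero.exp_ne_zero (a := (-1 : ℤ)))).toAdd) = -1 := by
    rfl
  rw [h3, zpow_neg_one, bs, dg_eq F h q h1]
  push_cast
  rw [zpow_neg, zpow_natCast]

theorem formula_prime (q : F[X]) (hq : Prime q) :
    ∏ᶠ i, av F i (algebraMap F[X] (RatFunc F) q) = 1 := by
  classical
  have hmax : (Ideal.span {q}).IsMaximal :=
    PrincipalIdealRing.isMaximal_of_irreducible hq.irreducible
  let h₀ : HeightOneSpectrum F[X] := ⟨Ideal.span {q}, hmax.isPrime, by
    intro h
    rw [Ideal.span_singleton_eq_bot] at h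
    exact hq.ne_zero h⟩
  have h1 : (Function.mulSupport fun i => av F i (algebraMap F[X] (RatFunc F) q)) ⊆
      (({none, some h₀} : Finset (Option (HeightOneSpectrum F[X]))) : Set _) := by
    intro i hi
    cases i with
    | none => simp
    | some h =>
      have h2 : av F (some h) (algebraMap F[X] (RatFunc F) q) ≠ 1 := hi
      rw [Ne, av_some_eq, not_not] at h2
      have h3 : h = h₀ := by
        apply HeightOneSpectrum.ext
        exact (hmax.eq_of_le h.isPrime.ne_top
          ((Ideal.span_singleton_le_iff_mem _).mpr h2)).symm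
      simp [h3]
  rw [finprod_eq_prod_of_mulSupport_subset _ h1, Finset.prod_pair (by simp),
    some_prime F q hq h₀ (Ideal.mem_span_singleton_self q)]
  change avInf F _ * _ = 1
  rw [avInf_apply F (by
      intro h
      rw [map_eq_zero_iff _ (IsFractionRing.injective F[X] (RatFunc F))] at h
      exact hq.ne_zero h), RatFunc.intDegree_polynomial, ← zpow_add₀ (by norm_num)]
  simp

theorem formula_mul (x y : RatFunc F) (hx : x ≠ 0) (hy : y ≠ 0) :
    ∏ᶠ i, av F i (x * y) = (∏ᶠ i, av F i x) * ∏ᶠ i, av F i y := by
  rw [← finprod_mul_distrib (fin_all F x hx) (fin_all F y hy)]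
  simp only [map_mul]

theorem formula_poly (p : F[X]) (hp : p ≠ 0) :
    ∏ᶠ i, av F i (algebraMap F[X] (RatFunc F) p) = 1 := by
  induction p using UniqueFactorizationMonoid.induction_on_prime with
  | h₁ => exact absurd rfl hp
  | h₂ u hu =>
    rw [← finprod_one (α := Option (HeightOneSpectrum F[X]))]
    exact finprod_congr (unit_one F u hu)
  | h₃ a q ha hq ih =>
    have hinj := IsFractionRing.injective F[X] (RatFunc F)
    rw [map_mul, formula_mul F _ _ ((map_ne_zero_iff _ hinj).mpr hq.ne_zero)
      ((map_ne_zero_iff _ hinj).mpr ha), formula_prime F q hq, ih ha, one_mul]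

theorem formula (x : RatFunc F) (hx : x ≠ 0) : ∏ᶠ i, av F i x = 1 := by
  have hinj := IsFractionRing.injective F[X] (RatFunc F)
  have h1 : x * algebraMap F[X] (RatFunc F) x.denom = algebraMap F[X] (RatFunc F) x.num := by
    have h2 : algebraMap F[X] (RatFunc F) x.denom ≠ 0 :=
      (map_ne_zero_iff _ hinj).mpr (RatFunc.denom_ne_zero x)
    have h4 := RatFunc.num_div_denom x
    rw [div_eq_iff h2] at h4
    exact h4.symm
  have h3 := formula_mul F x (algebraMap F[X] (RatFunc F) x.denom) hx
    ((map_ne_zero_iff _ hinj).mpr (RatFunc.denom_ne_zero x))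
  rw [h1, formula_poly F _ (RatFunc.num_ne_zero hx), formula_poly F _ (RatFunc.denom_ne_zero x),
    mul_one] at h3
  exact h3.symm

/-- the admissible family -/
@[instance_reducible]
noncomputable def adm : Height.AdmissibleAbsValues (RatFunc F) where
  archAbsVal := 0
  nonarchAbsVal := Set.range (av F)
  isNonarchimedean := by
    rintro _ ⟨i, rfl⟩
    exact av_na F i
  hasFiniteMulSupport := by
    intro x hx
    have h1 := (fin_all F x hx).image (fun i => (⟨av F i, i, rfl⟩ : Set.range (av F)))
    refine h1.subset ?_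
    rintro ⟨_, i, rfl⟩ hi
    exact ⟨i, hi, rfl⟩
  product_formula := by
    intro x hx
    have h1 : ∏ᶠ v : Set.range (av F), v.val x = ∏ᶠ i, av F i x :=
      (finprod_comp_equiv (Equiv.ofInjective (av F) (av_inj F))
        (f := fun v : Set.range (av F) => v.val x)).symm
    rw [h1, formula F x hx]
    simp

theorem height_X : 0 < @Height.logHeight₁ (RatFunc F) _ (adm F) RatFunc.X := by
  have h1 : @Height.mulHeight₁ (RatFunc F) _ (adm F) RatFunc.X = 2 := by
    change (((0 : Multiset (AbsoluteValue (RatFunc F) ℝ)).map fun v ↦ max (v RatFunc.X) 1).prod *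
      ∏ᶠ v : Set.range (av F), max (v.val RatFunc.X) 1) = 2
    have h2 : ∏ᶠ v : Set.range (av F), max (v.val RatFunc.X) 1 =
        ∏ᶠ i, max (av F i RatFunc.X) 1 :=
      (finprod_comp_equiv (Equiv.ofInjective (av F) (av_inj F))
        (f := fun v : Set.range (av F) => max (v.val RatFunc.X) 1)).symm
    rw [h2, finprod_eq_single _ none]
    · rw [av_none_X]
      simp
    · intro i hi
      cases i with
      | none => exact absurd rfl hi
      | some h =>
        apply max_eq_right
        rw [← RatFunc.algebraMap_X]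
        exact av_some_le F h X
  change 0 < Real.log (@Height.mulHeight₁ (RatFunc F) _ (adm F) RatFunc.X)
  rw [h1]
  exact Real.log_pos (by norm_num)

end AdmRatAux

/-- **Admissible absolute values of rational function fields.** -/
theorem admRatP : AdmRatProp.{u} := by
  intro F _
  refine ⟨AdmRatAux.adm F, rfl, ?_, AdmRatAux.height_X F⟩
  rintro _ ⟨i, rfl⟩ _ ⟨j, rfl⟩ m m' hm hm' H
  rw [AdmRatAux.key F i j m m' hm hm' H]

end Pool.Agent.Lib.MP_16285c_ag
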