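import Mathlib

/-!
# Triangular rational self-maps of affine space: definitions

`MvPolynomial (Fin n) R` is the coordinate ring of affine `n`-space, `TP R n = R[x][Y]` the polynomials in one more
variable `Y`. The variables of affine `n+1`-space are `Y = X 0` and `x = (X 1, …, X n)`; its points are
`Fin.cons y x`.
-/

set_option autoImplicit false

namespace Pool.Agent.Lib.MP_16285c_ag

universe u

/-- Polynomials in `Y` over the coordinate ring of affine `n`-space. -/
abbrev TP (R : Type u) [CommRing R] (n : ℕ) : Type u := Polynomial (MvPolynomial (Fin n) R)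

/-- A rational self-map of affine space over `R`, given by numerators and denominators. -/
structure RM (R : Type u) [CommRing R] (n : ℕ) : Type u where
  num : Fin n → MvPolynomial (Fin n) R
  den : Fin n → MvPolynomial (Fin n) R

/-- A polynomial in `Y` as a polynomial in the variables `X 0 = Y`, `X 1`, …. -/
noncomputable def up {R : Type u} [CommRing R] {n : ℕ} (P : TP R n) : MvPolynomial (Fin (n + 1)) R :=
  (MvPolynomial.finSuccEquiv R n).symm P

/-- The polynomial in `Y` obtained by specialising `x`. -/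
noncomputable def ev {R : Type u} [CommRing R] {n : ℕ} (x : Fin n → R) (P : TP R n) :
    Polynomial R := P.map (MvPolynomial.eval x)

/-- The skew product `(Y, x) ↦ (P(x,Y)/Q(x,Y), f(x))`. -/
noncomputable def RM.cons {R : Type u} [CommRing R] {n : ℕ} (f : RM R n) (P Q : TP R n) : RM R (n + 1) where
  num := Fin.cons (α := fun _ => MvPolynomial (Fin (n + 1)) R) (up P)
    (fun i => MvPolynomial.rename Fin.succ (f.num i))
  den := Fin.cons (α := fun _ => MvPolynomial (Fin (n + 1)) R) (up Q)
    (fun i => MvPolynomial.rename Fin.succ (f.den i))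

/-- Change of the coefficients. -/
noncomputable def RM.map {R S : Type u} [CommRing R] [CommRing S] {n : ℕ} (f : RM R n) (φ : R →+* S) :
    RM S n where
  num := fun i => MvPolynomial.map φ (f.num i)
  den := fun i => MvPolynomial.map φ (f.den i)

/-- `x'` is the value of `f` at `x`, where `f` is defined. -/
def RM.Next {R : Type u} [CommRing R] {n : ℕ} (f : RM R n) (x x' : Fin n → R) : Prop :=
  ∀ i, MvPolynomial.eval x (f.den i) ≠ 0 ∧
    x' i * MvPolynomial.eval x (f.den i) = MvPolynomial.eval x (f.num i)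

/-- `x 0, x 1, …` is a well-defined orbit. -/
def RM.Orb {R : Type u} [CommRing R] {n : ℕ} (f : RM R n) (x : ℕ → Fin n → R) : Prop :=
  ∀ j, f.Next (x j) (x (j + 1))

/-- Zariski density. -/
def Dns {R : Type u} [CommRing R] {n : ℕ} (x : ℕ → Fin n → R) : Prop :=
  ∀ G : MvPolynomial (Fin n) R, G ≠ 0 → ∃ j, MvPolynomial.eval (x j) G ≠ 0

/-- Resultant identities. -/
def ResId {R : Type u} [CommRing R] {n : ℕ} (P Q : TP R n) (d : ℕ) (ρ : MvPolynomial (Fin n) R) : Prop :=
  ∃ U₀ V₀ U₁ V₁ : TP R n, U₀.natDegree < d ∧ V₀.natDegree < d ∧ U₁.natDegree < d ∧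
    V₁.natDegree < d ∧ U₀ * P + V₀ * Q = Polynomial.C ρ ∧
    U₁ * P + V₁ * Q = Polynomial.C ρ * Polynomial.X ^ (2 * d - 1)

/-- The Wronskian in `Y`. -/
noncomputable def Wr {R : Type u} [CommRing R] (P Q : Polynomial R) : Polynomial R :=
  P * Polynomial.derivative Q - Polynomial.derivative P * Q

/-- Triangular maps with the condition on the relative degrees `e`; `β` is a polynomial whose zero set contains the bad
points. -/
inductive Tower (R : Type u) [CommRing R] :
    (n : ℕ) → RM R n → (Fin n → ℕ) → MvPolynomial (Fin n) R → Prop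
  | nil (f : RM R 0) (e : Fin 0 → ℕ) : Tower R 0 f e 1
  | cons {n : ℕ} {f : RM R n} {e : Fin n → ℕ} {β : MvPolynomial (Fin n) R} (P Q : TP R n) (d : ℕ)
      (ρ : MvPolynomial (Fin n) R) (hf : Tower R n f e β) (hd : 1 ≤ d) (hP : P.natDegree ≤ d)
      (hQ : Q.natDegree ≤ d) (hρ : ρ ≠ 0) (hW : Wr P Q ≠ 0) (hres : ResId P Q d ρ)
      (he : d = 1 ∨ ∀ i, e i < d) :
      Tower R (n + 1) (f.cons P Q) (Fin.cons (α := fun _ => ℕ) d e)
        (MvPolynomial.rename Fin.succ (β * ρ))

/-- Composition of polynomials with `f`, as rational functions. -/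
noncomputable def RM.comp {k : Type u} [Field k] {n : ℕ} (f : RM k n) :
    MvPolynomial (Fin n) k →ₐ[k] FractionRing (MvPolynomial (Fin n) k) :=
  MvPolynomial.aeval fun i =>
    algebraMap (MvPolynomial (Fin n) k) (FractionRing (MvPolynomial (Fin n) k)) (f.num i) /
      algebraMap (MvPolynomial (Fin n) k) (FractionRing (MvPolynomial (Fin n) k)) (f.den i)

/-- Every rational function `A / B` with `(A / B) ∘ f = A / B` is constant. -/
def RM.NoInv {k : Type u} [Field k] {n : ℕ} (f : RM k n) : Prop :=
  ∀ A B : MvPolynomial (Fin n) k, B ≠ 0 →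
    f.comp A * algebraMap (MvPolynomial (Fin n) k) (FractionRing (MvPolynomial (Fin n) k)) B =
      f.comp B * algebraMap (MvPolynomial (Fin n) k) (FractionRing (MvPolynomial (Fin n) k)) A →
    ∃ c : k, A = MvPolynomial.C c * B

/-! ## Basic lemmas -/

section basic

variable {R S : Type u} [CommRing R] [CommRing S] {n : ℕ}

theorem eval_up (x : Fin n → R) (y : R) (P : TP R n) :
    MvPolynomial.eval (Fin.cons y x : Fin (n + 1) → R) (up P) = (ev x P).eval y := by
  rw [MvPolynomial.eval_eq_eval_mv_eval', up, AlgEquiv.apply_symm_apply, ev]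

theorem eval_rename_succ (x : Fin n → R) (y : R) (G : MvPolynomial (Fin n) R) :
    MvPolynomial.eval (Fin.cons y x : Fin (n + 1) → R) (MvPolynomial.rename Fin.succ G) =
      MvPolynomial.eval x G := by
  rw [MvPolynomial.eval_rename]
  rfl

theorem up_injective : Function.Injective (up (R := R) (n := n)) :=
  (MvPolynomial.finSuccEquiv R n).symm.injective

theorem up_surjective : Function.Surjective (up (R := R) (n := n)) :=
  (MvPolynomial.finSuccEquiv R n).symm.surjective

theorem finSuccEquiv_up (P : TP R n) : MvPolynomial.finSuccEquiv R n (up P) = P :=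
  (MvPolynomial.finSuccEquiv R n).apply_symm_apply P

theorem up_C (G : MvPolynomial (Fin n) R) :
    up (Polynomial.C G) = MvPolynomial.rename Fin.succ G := by
  apply (MvPolynomial.finSuccEquiv R n).injective
  rw [finSuccEquiv_up]
  induction G using MvPolynomial.induction_on with
  | C a => simp [MvPolynomial.finSuccEquiv_apply]
  | add p q hp hq => rw [map_add, map_add, map_add, hp, hq]
  | mul_X p i hp =>
    rw [map_mul, map_mul, map_mul, hp, MvPolynomial.rename_X, MvPolynomial.finSuccEquiv_X_succ]

theorem up_X : up (Polynomial.X : TP R n) = MvPolynomial.X 0 := by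
  apply (MvPolynomial.finSuccEquiv R n).injective
  rw [finSuccEquiv_up, MvPolynomial.finSuccEquiv_X_zero]

theorem up_add (P Q : TP R n) : up (P + Q) = up P + up Q := map_add _ _ _

theorem up_mul (P Q : TP R n) : up (P * Q) = up P * up Q := map_mul _ _ _

theorem up_pow (P : TP R n) (m : ℕ) : up (P ^ m) = up P ^ m := map_pow _ _ _

theorem map_up (φ : R →+* S) (P : TP R n) :
    MvPolynomial.map φ (up P) = up (P.map (MvPolynomial.map φ)) := by
  induction P using Polynomial.induction_on' with
  | add p q hp hq => rw [up_add, map_add, hp, hq, Polynomial.map_add, up_add]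
  | monomial m a =>
    rw [← Polynomial.C_mul_X_pow_eq_monomial, up_mul, up_pow, up_C, up_X, map_mul, map_pow,
      MvPolynomial.map_X, MvPolynomial.map_rename, Polynomial.map_mul, Polynomial.map_pow,
      Polynomial.map_X, Polynomial.map_C, up_mul, up_pow, up_C, up_X]

theorem ev_map (φ : R →+* S) (x : Fin n → R) (P : TP R n) :
    ev (fun i => φ (x i)) (P.map (MvPolynomial.map φ)) = (ev x P).map φ := by
  rw [ev, ev, Polynomial.map_map, Polynomial.map_map]
  congr 1
  ext i
  · simp
  · simp

theorem RM.map_cons (f : RM R n) (P Q : TP R n) (φ : R →+* S) :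
    (f.cons P Q).map φ =
      (f.map φ).cons (P.map (MvPolynomial.map φ)) (Q.map (MvPolynomial.map φ)) := by
  rw [RM.map, RM.cons, RM.cons]
  congr 1
  · funext i
    refine Fin.cases ?_ (fun i => ?_) i
    · simp [map_up]
    · simp [RM.map, MvPolynomial.map_rename]
  · funext i
    refine Fin.cases ?_ (fun i => ?_) i
    · simp [map_up]
    · simp [RM.map, MvPolynomial.map_rename]

theorem RM.cons_num_zero (f : RM R n) (P Q : TP R n) : (f.cons P Q).num 0 = up P := rfl

theorem RM.cons_den_zero (f : RM R n) (P Q : TP R n) : (f.cons P Q).den 0 = up Q := rfl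

theorem RM.cons_num_succ (f : RM R n) (P Q : TP R n) (i : Fin n) :
    (f.cons P Q).num i.succ = MvPolynomial.rename Fin.succ (f.num i) := rfl

theorem RM.cons_den_succ (f : RM R n) (P Q : TP R n) (i : Fin n) :
    (f.cons P Q).den i.succ = MvPolynomial.rename Fin.succ (f.den i) := rfl

theorem RM.next_cons (f : RM R n) (P Q : TP R n) (x x' : Fin n → R) (y y' : R) :
    (f.cons P Q).Next (Fin.cons y x) (Fin.cons y' x') ↔
      f.Next x x' ∧ (ev x Q).eval y ≠ 0 ∧ y' * (ev x Q).eval y = (ev x P).eval y := by
  constructor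
  · intro h
    refine ⟨fun i => ?_, ?_⟩
    · have := h i.succ
      rw [RM.cons_num_succ, RM.cons_den_succ, eval_rename_succ, eval_rename_succ] at this
      exact this
    · have := h 0
      rw [RM.cons_num_zero, RM.cons_den_zero, eval_up, eval_up] at this
      exact this
  · rintro ⟨h, h0⟩ i
    refine Fin.cases ?_ (fun i => ?_) i
    · rw [RM.cons_num_zero, RM.cons_den_zero, eval_up, eval_up]
      exact h0
    · rw [RM.cons_num_succ, RM.cons_den_succ, eval_rename_succ, eval_rename_succ]
      exact h i

theorem RM.orb_cons (f : RM R n) (P Q : TP R n) (x : ℕ → Fin n → R) (y : ℕ → R) :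
    (f.cons P Q).Orb (fun j => (Fin.cons (y j) (x j) : Fin (n + 1) → R)) ↔
      f.Orb x ∧ ∀ j, (ev (x j) Q).eval (y j) ≠ 0 ∧
        y (j + 1) * (ev (x j) Q).eval (y j) = (ev (x j) P).eval (y j) := by
  constructor
  · intro h
    exact ⟨fun j => ((f.next_cons P Q _ _ _ _).1 (h j)).1,
      fun j => ((f.next_cons P Q _ _ _ _).1 (h j)).2⟩
  · rintro ⟨h, h0⟩ j
    exact (f.next_cons P Q _ _ _ _).2 ⟨h j, h0 j⟩

/-- Orbits of a skew product, general form. -/
theorem RM.orb_cons' (f : RM R n) (P Q : TP R n) (z : ℕ → Fin (n + 1) → R) (h : (f.cons P Q).Orb z) :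
    f.Orb (fun j => Fin.tail (z j)) ∧
      ∀ j, (ev (Fin.tail (z j)) Q).eval (z j 0) ≠ 0 ∧
        z (j + 1) 0 * (ev (Fin.tail (z j)) Q).eval (z j 0) =
          (ev (Fin.tail (z j)) P).eval (z j 0) := by
  rw [← RM.orb_cons]
  convert h using 2 with j
  exact Fin.cons_self_tail (z j)

theorem RM.next_unique [IsDomain R] (f : RM R n) (x x' x'' : Fin n → R) (h : f.Next x x')
    (h' : f.Next x x'') : x' = x'' := by
  funext i
  exact mul_right_cancel₀ (h i).1 ((h i).2.trans (h' i).2.symm)

theorem RM.orb_unique [IsDomain R] (f : RM R n) (x x' : ℕ → Fin n → R) (h : f.Orb x)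
    (h' : f.Orb x') (h0 : x 0 = x' 0) : x = x' := by
  funext j
  induction j with
  | zero => exact h0
  | succ j ih =>
    have h2 := h' j
    rw [← ih] at h2
    exact f.next_unique _ _ _ (h j) h2

theorem rename_succ_injective :
    Function.Injective (MvPolynomial.rename (R := R) (Fin.succ : Fin n → Fin (n + 1))) :=
  MvPolynomial.rename_injective _ (Fin.succ_injective n)

theorem Tower.bad_ne_zero [IsDomain R] {f : RM R n} {e : Fin n → ℕ} {β : MvPolynomial (Fin n) R}
    (h : Tower R n f e β) : β ≠ 0 := by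
  induction h with
  | nil f e => exact one_ne_zero
  | cons P Q d ρ hf hd hP hQ hρ hW hres he ih =>
    intro h0
    rw [← map_zero (MvPolynomial.rename Fin.succ)] at h0
    exact mul_ne_zero ih hρ (rename_succ_injective h0)

end basic

end Pool.Agent.Lib.MP_16285c_ag
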