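import Pool.Agent.Lib.MP_16285c_ag.Spec

/-!
# MP_16285c_ag: residue fields of valuation rings of algebraically closed fields
-/

set_option autoImplicit false

namespace Pool.Agent.Lib.MP_16285c_ag

universe u

theorem closedP : ClosedProp.{u} := by
  intro k _ _ V
  refine IsAlgClosed.of_exists_root _ fun g hg hirr => ?_
  have hsurj : Function.Surjective (IsLocalRing.residue V) := IsLocalRing.residue_surjective
  have hl : g ∈ Polynomial.lifts (IsLocalRing.residue V) := by
    rw [Polynomial.mem_lifts]
    exact Polynomial.map_surjective _ hsurj g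
  obtain ⟨q, hq1, hq2, hq3⟩ := Polynomial.lifts_and_natDegree_eq_and_monic hl hg
  have hdeg : (q.map (algebraMap V k)).degree ≠ 0 := by
    rw [hq3.degree_map]
    intro h
    have h1 : q = 1 := hq3.natDegree_eq_zero.1 (Polynomial.natDegree_eq_of_degree_eq_some h)
    apply hirr.not_isUnit
    rw [← hq1, h1, Polynomial.map_one]
    exact isUnit_one
  obtain ⟨x, hx⟩ := IsAlgClosed.exists_root (q.map (algebraMap V k)) hdeg
  have hint : IsIntegral V x := by
    refine ⟨q, hq3, ?_⟩
    rw [Polynomial.IsRoot, Polynomial.eval_map] at hx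
    exact hx
  obtain ⟨y, hy⟩ := (IsIntegrallyClosed.isIntegral_iff (R := V) (K := k)).1 hint
  refine ⟨IsLocalRing.residue V y, ?_⟩
  have h0 : q.eval y = 0 := by
    have hinj : Function.Injective (algebraMap V k) := IsFractionRing.injective V k
    apply hinj
    rw [map_zero, ← Polynomial.eval₂_at_apply, hy, ← Polynomial.eval_map]
    exact hx
  rw [← hq1, Polynomial.eval_map, Polynomial.eval₂_at_apply, h0, map_zero]

end Pool.Agent.Lib.MP_16285c_ag
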