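import Pool.Agent.Lib.MP_16285c_ag.Spec

/-!
# Composition with a rational map and denominators (B1) (helper49)
-/

set_option autoImplicit false

namespace Pool.Agent.Lib.MP_16285c_ag

universe u

theorem compP : CompProp.{u} := by
  intro k _ n f hd G
  induction G using MvPolynomial.induction_on with
  | C a =>
    refine ⟨1, MvPolynomial.C a, one_ne_zero, ?_, fun _ _ => by simp, fun x x' _ => by simp⟩
    rw [map_one, one_mul, RM.comp, MvPolynomial.aeval_C, ← MvPolynomial.algebraMap_eq,
      ← IsScalarTower.algebraMap_apply]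
  | add p q hp hq =>
    obtain ⟨E₁, N₁, h1, h2, h3, h4⟩ := hp
    obtain ⟨E₂, N₂, g1, g2, g3, g4⟩ := hq
    refine ⟨E₁ * E₂, N₁ * E₂ + N₂ * E₁, mul_ne_zero h1 g1, ?_, fun x hx => ?_, fun x x' hx => ?_⟩
    · rw [map_add, map_mul, map_mul, h2, g2, map_add, map_mul]
      ring
    · rw [map_mul]
      exact mul_ne_zero (h3 x hx) (g3 x hx)
    · rw [map_add, map_mul, map_mul, h4 x x' hx, g4 x x' hx, map_mul, map_add]
      ring
  | mul_X p i hp =>
    obtain ⟨E₁, N₁, h1, h2, h3, h4⟩ := hp
    refine ⟨E₁ * f.den i, N₁ * f.num i, mul_ne_zero h1 (hd i), ?_, fun x hx => ?_,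
      fun x x' hx => ?_⟩
    · have h5 : algebraMap (MvPolynomial (Fin n) k) (FractionRing (MvPolynomial (Fin n) k))
          (f.den i) ≠ 0 := by
        rw [Ne, map_eq_zero_iff _ (IsFractionRing.injective _ _)]
        exact hd i
      have h6 : f.comp (MvPolynomial.X i) =
          algebraMap (MvPolynomial (Fin n) k) (FractionRing (MvPolynomial (Fin n) k)) (f.num i) /
          algebraMap (MvPolynomial (Fin n) k) (FractionRing (MvPolynomial (Fin n) k))
            (f.den i) := by
        rw [RM.comp, MvPolynomial.aeval_X]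
      rw [map_mul, h2, map_mul, map_mul, h6]
      field_simp
    · rw [map_mul]
      exact mul_ne_zero (h3 x hx) (hx i)
    · rw [map_mul, h4 x x' hx, map_mul, map_mul, MvPolynomial.eval_X, ← (hx i).2]
      ring

end Pool.Agent.Lib.MP_16285c_ag
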