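import Pool.Agent.Lib.MP_16285c_ag.Spec

/-!
# Counting points with `y ^ q * Q(y) = P(y)` (A5) (helper49)
-/

set_option autoImplicit false

namespace Pool.Agent.Lib.MP_16285c_ag

universe u

open Polynomial in
theorem countP : CountProp.{u} := by
  classical
  intro κ _ _ p _ _ P Q b d s hs hP hQ hW hb hlt
  set q := p ^ s with hq
  have hQ0 : Q ≠ 0 := by
    rintro rfl
    exact hW (by simp [Wr])
  have hqκ : (q : κ) = 0 := by
    rw [hq, Nat.cast_pow, CharP.cast_eq_zero κ p, zero_pow (by omega)]
  set F : κ[X] := X ^ q * Q - P with hF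
  have hdF : F.natDegree = q + Q.natDegree := by
    rw [hF, natDegree_sub_eq_left_of_natDegree_lt]
    · rw [natDegree_mul (pow_ne_zero _ X_ne_zero) hQ0, natDegree_X_pow]
    · rw [natDegree_mul (pow_ne_zero _ X_ne_zero) hQ0, natDegree_X_pow]
      omega
  have hF0 : F ≠ 0 := by
    intro h
    rw [h, natDegree_zero] at hdF
    omega
  have hF' : derivative F = X ^ q * derivative Q - derivative P := by
    rw [hF, derivative_sub, derivative_mul, derivative_X_pow, hqκ]
    simp
  have hid : Q * derivative F - derivative Q * F = Wr P Q := by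
    rw [hF', hF, Wr]
    ring
  have hdW : (Wr P Q).natDegree ≤ 2 * d := by
    rw [Wr]
    refine (natDegree_sub_le _ _).trans (max_le ?_ ?_)
    · refine natDegree_mul_le.trans ?_
      have := natDegree_derivative_le Q
      omega
    · refine natDegree_mul_le.trans ?_
      have := natDegree_derivative_le P
      omega
  have hmult : ∀ y : κ, F.rootMultiplicity y ≤ 1 + (Wr P Q).rootMultiplicity y := by
    intro y
    have h1 : (X - C y) ^ (F.rootMultiplicity y - 1) ∣ derivative F :=
      pow_sub_one_dvd_derivative_of_pow_dvd (pow_rootMultiplicity_dvd F y)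
    have h2 : (X - C y) ^ (F.rootMultiplicity y - 1) ∣ F :=
      (pow_dvd_pow _ (Nat.sub_le _ _)).trans (pow_rootMultiplicity_dvd F y)
    have h3 : (X - C y) ^ (F.rootMultiplicity y - 1) ∣ Wr P Q := by
      rw [← hid]
      exact dvd_sub (h1.mul_left _) (h2.mul_left _)
    have h4 := (le_rootMultiplicity_iff hW).2 h3
    omega
  have hsum : F.natDegree ≤ F.roots.toFinset.card + (Wr P Q).natDegree := by
    rw [← IsAlgClosed.card_roots_eq_natDegree (p := F), ← Multiset.toFinset_sum_count_eq]
    calc ∑ a ∈ F.roots.toFinset, F.roots.count a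
        ≤ ∑ a ∈ F.roots.toFinset, (1 + (Wr P Q).roots.count a) := by
          refine Finset.sum_le_sum fun a _ => ?_
          rw [count_roots, count_roots]
          exact hmult a
      _ = F.roots.toFinset.card + ∑ a ∈ F.roots.toFinset, (Wr P Q).roots.count a := by
          rw [Finset.sum_add_distrib, Finset.card_eq_sum_ones]
      _ ≤ F.roots.toFinset.card + (Wr P Q).natDegree := by
          refine Nat.add_le_add_left ?_ _
          have h5 : ∑ a ∈ F.roots.toFinset, (Wr P Q).roots.count a ≤
              ∑ a ∈ F.roots.toFinset ∪ (Wr P Q).roots.toFinset, (Wr P Q).roots.count a :=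
            Finset.sum_le_sum_of_subset Finset.subset_union_left
          have h6 : ∑ a ∈ F.roots.toFinset ∪ (Wr P Q).roots.toFinset, (Wr P Q).roots.count a =
              ∑ a ∈ (Wr P Q).roots.toFinset, (Wr P Q).roots.count a := by
            refine (Finset.sum_subset Finset.subset_union_right fun a _ ha => ?_).symm
            rwa [Multiset.mem_toFinset, ← Multiset.count_eq_zero] at ha
          rw [h6, Multiset.toFinset_sum_count_eq] at h5
          exact h5.trans (card_roots' _)
  by_contra hcon
  push Not at hcon
  have hsub : F.roots.toFinset ⊆ b.roots.toFinset := by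
    intro y hy
    rw [Multiset.mem_toFinset, mem_roots hF0, IsRoot.def, hF] at hy
    rw [Multiset.mem_toFinset, mem_roots hb, IsRoot.def]
    refine hcon y ?_
    rw [eval_sub, eval_mul, eval_pow, eval_X, sub_eq_zero] at hy
    exact hy
  have h7 := (Finset.card_le_card hsub).trans ((Multiset.toFinset_card_le _).trans (card_roots' b))
  omega

end Pool.Agent.Lib.MP_16285c_ag
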