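import Pool.Agent.Lib.MP_16285c_ag.Spec

set_option autoImplicit false

namespace Pool.Agent.Lib.MP_16285c_ag

universe u

theorem descP : DescProp.{u} := by
  classical
  intro k _ K n x hx G hG
  by_contra hcon
  have hcon' : ∀ j, MvPolynomial.eval (fun i => ((x j i : K) : k)) G = 0 := by
    intro j
    by_contra h
    exact hcon ⟨j, h⟩
  obtain ⟨m, hm⟩ := MvPolynomial.ne_zero_iff.1 hG
  have hex : ∃ l : Module.Dual K k, l (MvPolynomial.coeff m G) ≠ 0 := by
    by_contra h
    have h1 : ∀ l : Module.Dual K k, l (MvPolynomial.coeff m G) = 0 := by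
      intro l
      by_contra h2
      exact h ⟨l, h2⟩
    exact hm ((Module.forall_dual_apply_eq_zero_iff K _).1 h1)
  obtain ⟨l, hl⟩ := hex
  let G' : MvPolynomial (Fin n) K :=
    ∑ s ∈ G.support, MvPolynomial.monomial s (l (MvPolynomial.coeff s G))
  have hG' : G' ≠ 0 := by
    intro h0
    have h1 := congrArg (MvPolynomial.coeff m) h0
    simp only [G', MvPolynomial.coeff_sum, MvPolynomial.coeff_monomial, MvPolynomial.coeff_zero,
      Finset.sum_ite_eq'] at h1
    rw [if_pos (MvPolynomial.mem_support_iff.2 hm)] at h1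
    exact hl h1
  obtain ⟨j, hj⟩ := hx G' hG'
  apply hj
  have h2 := hcon' j
  rw [MvPolynomial.eval_eq'] at h2
  have h3 := congrArg l h2
  rw [map_sum, map_zero] at h3
  rw [← h3]
  simp only [G', map_sum]
  refine Finset.sum_congr rfl fun s _ => ?_
  rw [MvPolynomial.eval_monomial]
  have h4 : MvPolynomial.coeff s G * ∏ i, ((x j i : K) : k) ^ s i =
      (∏ i, (x j i) ^ s i : K) • MvPolynomial.coeff s G := by
    rw [Subfield.smul_def, smul_eq_mul, mul_comm]
    push_cast
    rfl
  rw [h4, map_smul, smul_eq_mul, mul_comm, Finsupp.prod_fintype]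
  intro i
  simp

end Pool.Agent.Lib.MP_16285c_ag
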