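import Pool.Agent.Lib.MP_16285c_ag.Spec

set_option autoImplicit false

namespace Pool.Agent.Lib.MP_16285c_ag

universe u

theorem detP : DetProp.{u} := by
  intro R _ n P Q ρ hP hQ hres
  obtain ⟨U₀, V₀, U₁, V₁, h1, h2, h3, h4, h5, h6⟩ := hres
  have hc : ∀ U : TP R n, U.natDegree < 1 → U = Polynomial.C (U.coeff 0) := fun U hU =>
    Polynomial.eq_C_of_natDegree_le_zero (by omega)
  rw [hc U₀ h1, hc V₀ h2] at h5
  rw [hc U₁ h3, hc V₁ h4] at h6
  have e50 := congrArg (fun p => Polynomial.coeff p 0) h5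
  have e51 := congrArg (fun p => Polynomial.coeff p 1) h5
  have e60 := congrArg (fun p => Polynomial.coeff p 0) h6
  have e61 := congrArg (fun p => Polynomial.coeff p 1) h6
  simp only [Polynomial.coeff_add, Polynomial.coeff_C_mul, Polynomial.coeff_C_zero,
    Polynomial.coeff_C_succ, Polynomial.coeff_X_pow] at e50 e51 e60 e61
  norm_num [Polynomial.coeff_C] at e50 e51 e60 e61
  refine ⟨-(U₀.coeff 0 * V₁.coeff 0 - V₀.coeff 0 * U₁.coeff 0), ?_⟩
  have : ρ ^ 2 = (U₀.coeff 0 * P.coeff 0 + V₀.coeff 0 * Q.coeff 0) *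
      (U₁.coeff 0 * P.coeff 1 + V₁.coeff 0 * Q.coeff 1) -
      (U₀.coeff 0 * P.coeff 1 + V₀.coeff 0 * Q.coeff 1) *
      (U₁.coeff 0 * P.coeff 0 + V₁.coeff 0 * Q.coeff 0) := by
    rw [e50, e61, e51]; ring
  rw [this]; ring

end Pool.Agent.Lib.MP_16285c_ag
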