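import Pool.Agent.Lib.MP_16285c_ag.Spec

set_option autoImplicit false

namespace Pool.Agent.Lib.MP_16285c_ag

universe u

theorem fastP (h1 : TailProp.{u}) (h2 : LowProp.{u}) (h3 : RootProp.{u}) (h4 : RealLowProp)
    (h5 : GrowthProp.{u}) : FastProp.{u} := by
  intro K _ _ n f e β hT x ho hd P Q d ρ hd2 he hP hQ hres hρ
  have hdR : (2 : ℝ) ≤ d := by exact_mod_cast hd2
  set ν : ℝ := d - 1 / 2 with hν
  have hν1 : 1 ≤ ν := by rw [hν]; linarith
  have hνd : ν < d := by rw [hν]; linarith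
  have hν0 : 0 < ν := by linarith
  obtain ⟨C₁, hC₁, hg⟩ := h5 K n f e β hT x ho ν hν1 (fun i => by
    have h6 : e i + 1 ≤ d := he i
    have h7 : ((e i : ℝ)) + 1 ≤ d := by exact_mod_cast h6
    rw [hν]; linarith)
  obtain ⟨C, hC, hlow⟩ := h2 K n P Q d ρ (by omega) hres
  obtain ⟨B, hB⟩ := h4 d ν (C * (1 + C₁)) hν0.le hνd (mul_nonneg hC (by linarith))
  have hνp : ∀ j : ℕ, 1 ≤ ν ^ j := fun j => one_le_pow₀ hν1
  refine ⟨B, fun y hy hyB => ?_⟩
  obtain ⟨-, htop⟩ := (RM.orb_cons f P Q x y).1 hy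
  have hgrow := hB (fun j => Height.logHeight₁ (y j)) hyB (fun j => by
    have h6 := hlow (x j) (y j) (y (j + 1)) (hρ j) (htop j).1 (htop j).2
    have h7 := hg j
    have h8 := hνp j
    have h9 : C * (1 + ∑ i, Height.logHeight₁ (x j i)) ≤ C * (1 + C₁) * ν ^ j := by
      rw [mul_assoc]
      refine mul_le_mul_of_nonneg_left ?_ hC
      nlinarith
    show (d : ℝ) * Height.logHeight₁ (y j) ≤ Height.logHeight₁ (y (j + 1)) + C * (1 + C₁) * ν ^ j
    linarith)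
  intro G' hG'
  by_contra hcon
  have hcon' : ∀ j, MvPolynomial.eval (Fin.cons (y j) (x j) : Fin (n + 1) → K) G' = 0 := by
    intro j
    by_contra h
    exact hcon ⟨j, h⟩
  obtain ⟨G, rfl⟩ := up_surjective G'
  have hG : G ≠ 0 := by
    rintro rfl
    exact hG' (by rw [up, map_zero])
  obtain ⟨C₂, hC₂, hroot⟩ := h3 K n G
  -- a large index
  have hratio : 1 < (d : ℝ) / ν := by rw [lt_div_iff₀ hν0]; linarith
  obtain ⟨m, hm⟩ := pow_unbounded_of_one_lt (C₂ * (1 + C₁)) hratio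
  obtain ⟨j, hj, hlc⟩ := h1 K n x hd G.leadingCoeff (Polynomial.leadingCoeff_ne_zero.2 hG) m
  have h6 := hroot (x j) (y j) hlc (by rw [← eval_up]; exact hcon' j)
  have h7 := hg j
  have h8 := hνp j
  have h9 : C₂ * (1 + ∑ i, Height.logHeight₁ (x j i)) ≤ C₂ * (1 + C₁) * ν ^ j := by
    rw [mul_assoc]
    refine mul_le_mul_of_nonneg_left ?_ hC₂
    nlinarith
  have h10 := hgrow j
  have h11 : ((d : ℝ) / ν) ^ m ≤ ((d : ℝ) / ν) ^ j := pow_le_pow_right₀ hratio.le hj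
  have h12 : ((d : ℝ) / ν) ^ j * ν ^ j = (d : ℝ) ^ j := by
    rw [← mul_pow, div_mul_cancel₀ _ hν0.ne']
  have h13 : C₂ * (1 + C₁) * ν ^ j < (d : ℝ) ^ j := by
    rw [← h12]
    exact mul_lt_mul_of_pos_right (lt_of_lt_of_le hm h11) (by linarith)
  have h14 : (d : ℝ) ^ j ≤ Height.logHeight₁ (y j) := h10
  linarith

end Pool.Agent.Lib.MP_16285c_ag
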