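import Pool.Agent.Lib.MP_16285c_ag.Spec

/-!
# Frobenius points of towers (A6) (helper49)
-/

set_option autoImplicit false

namespace Pool.Agent.Lib.MP_16285c_ag

universe u

namespace FrobAux

theorem ev_ne_zero {R : Type u} [CommRing R] {n : ℕ} {P : TP R n} {x : Fin n → R}
    (h : MvPolynomial.eval x P.leadingCoeff ≠ 0) : ev x P ≠ 0 := by
  intro h0
  apply h
  have h1 := congrArg (fun T => Polynomial.coeff T P.natDegree) h0
  simpa [ev] using h1

theorem ev_Wr {R : Type u} [CommRing R] {n : ℕ} (P Q : TP R n) (x : Fin n → R) :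
    Wr (ev x P) (ev x Q) = ev x (Wr P Q) := by
  simp [Wr, ev, Polynomial.derivative_map]

end FrobAux

open FrobAux in
theorem frobP (h1 : CountProp.{u}) : FrobProp.{u} := by
  intro κ _ _ p _ _ n f e β hT
  induction hT with
  | nil f e =>
    intro b hb
    refine ⟨0, fun s _ _ => ⟨Fin.elim0, fun i => i.elim0, ?_⟩⟩
    rw [MvPolynomial.eq_C_of_isEmpty b] at hb ⊢
    rw [MvPolynomial.eval_C]
    intro h
    exact hb (by rw [h, map_zero])
  | @cons n f e β P Q d ρ hf hd hP hQ hρ hW hres he ih =>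
    intro b hb
    obtain ⟨b', rfl⟩ := up_surjective b
    have hb' : b' ≠ 0 := by
      rintro rfl
      exact hb (map_zero _)
    have hlb : b'.leadingCoeff ≠ 0 := Polynomial.leadingCoeff_ne_zero.2 hb'
    have hlw : (Wr P Q).leadingCoeff ≠ 0 := Polynomial.leadingCoeff_ne_zero.2 hW
    obtain ⟨B, hB⟩ := ih (b'.leadingCoeff * (Wr P Q).leadingCoeff * ρ)
      (mul_ne_zero (mul_ne_zero hlb hlw) hρ)
    refine ⟨max B (2 * d + b'.natDegree + 1), fun s hs hBs => ?_⟩
    obtain ⟨a, ha, hab⟩ := hB s hs ((le_max_left _ _).trans hBs)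
    rw [map_mul, map_mul] at hab
    have hab1 := left_ne_zero_of_mul (left_ne_zero_of_mul hab)
    have hab2 := right_ne_zero_of_mul (left_ne_zero_of_mul hab)
    have hab3 := right_ne_zero_of_mul hab
    have hdb : (ev a b').natDegree ≤ b'.natDegree := Polynomial.natDegree_map_le
    have hlt : 2 * d + b'.natDegree + 1 ≤ p ^ s := (le_max_right _ _).trans hBs
    obtain ⟨y, hy1, hy2⟩ := h1 κ p (ev a P) (ev a Q) (ev a b') d s hs
      (Polynomial.natDegree_map_le.trans hP) (Polynomial.natDegree_map_le.trans hQ)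
      (by rw [ev_Wr]; exact ev_ne_zero hab2) (ev_ne_zero hab1) (by omega)
    have hQy : (ev a Q).eval y ≠ 0 := by
      intro h0
      rw [h0, mul_zero] at hy1
      obtain ⟨U₀, V₀, U₁, V₁, _, _, _, _, hid, _⟩ := hres
      have h2 := congrArg (fun T => Polynomial.eval y (Polynomial.map (MvPolynomial.eval a) T)) hid
      simp only [Polynomial.map_add, Polynomial.map_mul, Polynomial.map_C, Polynomial.eval_add,
        Polynomial.eval_mul, Polynomial.eval_C] at h2
      rw [ev] at h0 hy1
      rw [h0, ← hy1, mul_zero, mul_zero, add_zero] at h2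
      exact hab3 h2.symm
    refine ⟨Fin.cons y a, fun i => ?_, ?_⟩
    · refine Fin.cases ?_ (fun i => ?_) i
      · rw [RM.cons_num_zero, RM.cons_den_zero, eval_up, eval_up, Fin.cons_zero]
        exact ⟨hQy, hy1⟩
      · rw [RM.cons_num_succ, RM.cons_den_succ, eval_rename_succ, eval_rename_succ, Fin.cons_succ]
        exact ha i
    · rw [eval_up]
      exact hy2

end Pool.Agent.Lib.MP_16285c_ag
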