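import Pool.Agent.Lib.MP_16285c_ag.Spec

set_option autoImplicit false

namespace Pool.Agent.Lib.MP_16285c_ag

universe u

theorem growthP (h1 : UpProp.{u}) (h2 : RealUpProp) : GrowthProp.{u} := by
  intro K _ _ n f e β hT
  induction hT with
  | nil f e =>
    intro x _ ν _ _
    exact ⟨0, le_rfl, fun j => by simp⟩
  | @cons n f e β P Q d ρ hf hd hP hQ hρ hW hres he ih =>
    intro z hz ν hν hlt
    obtain ⟨hbase, htop⟩ := RM.orb_cons' f P Q z hz
    obtain ⟨C₁, hC₁, hg⟩ := ih _ hbase ν hν (fun i => by simpa using hlt i.succ)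
    obtain ⟨C, hC, hup⟩ := h1 K n P Q d hP hQ
    have hdν : (d : ℝ) < ν := by simpa using hlt 0
    have hνp : ∀ j : ℕ, 1 ≤ ν ^ j := fun j => one_le_pow₀ hν
    obtain ⟨C₂, hC₂, hg₂⟩ := h2 (fun j => Height.logHeight₁ (z j 0)) d ν (C * (1 + C₁))
      (Nat.cast_nonneg d) hdν (mul_nonneg hC (by linarith)) (fun j => Height.zero_le_logHeight₁ _)
      (fun j => by
        have h3 := hup (Fin.tail (z j)) (z j 0) (z (j + 1) 0) (htop j).1 (htop j).2
        have h4 := hg j
        have h5 := hνp j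
        have h6 : C * (1 + ∑ i, Height.logHeight₁ (Fin.tail (z j) i)) ≤ C * (1 + C₁) * ν ^ j := by
          rw [mul_assoc]
          refine mul_le_mul_of_nonneg_left ?_ hC
          nlinarith
        linarith)
    refine ⟨C₂ + C₁, by linarith, fun j => ?_⟩
    rw [Fin.sum_univ_succ, add_mul]
    have h7 := hg j
    have h8 := hg₂ j
    exact add_le_add h8 h7

end Pool.Agent.Lib.MP_16285c_ag
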