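import Pool.Agent.Lib.MP_16285c_ag.Spec

/-!
# (B7): the absolute covariant `tc ^ 2 / hs ^ 3` is invariant under Moebius transformations
-/

set_option autoImplicit false

namespace Pool.Agent.Lib.MP_16285c_ag

universe u

open Polynomial

namespace HessAux

variable {K L : Type u} [Field K] [Field L] [Algebra K L]

/-- The form of degree `m` of a polynomial. -/
noncomputable def fo (a b : K[X]) (m : ℕ) (R : K[X]) : K[X] :=
  ∑ i ∈ Finset.range (m + 1), C (R.coeff i) * a ^ i * b ^ (m - i)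

theorem fo_deriv (α β γ δ : K) (m : ℕ) (R : K[X]) :
    (C γ * X + C δ) * derivative (fo (C α * X + C β) (C γ * X + C δ) (m + 1) R) =
      ((m : K[X]) + 1) * C γ * fo (C α * X + C β) (C γ * X + C δ) (m + 1) R +
      C (α * δ - β * γ) * fo (C α * X + C β) (C γ * X + C δ) m (derivative R) := by
  have hD : (C (α * δ - β * γ) : K[X]) =
      C α * (C γ * X + C δ) - C γ * (C α * X + C β) := by
    rw [C_sub, C_mul, C_mul]
    ring
  have hda : derivative (C α * X + C β : K[X]) = C α := by simp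
  have hdb : derivative (C γ * X + C δ : K[X]) = C γ := by simp
  rw [hD]
  unfold fo
  generalize ha : (C α * X + C β : K[X]) = a at *
  generalize hb : (C γ * X + C δ : K[X]) = b at *
  rw [Finset.sum_range_succ' (n := m + 1)]
  rw [derivative_add, derivative_sum, mul_add, mul_add, Finset.mul_sum, Finset.mul_sum,
    Finset.mul_sum]
  have h1 : b * derivative (C (R.coeff 0) * a ^ 0 * b ^ (m + 1 - 0)) =
      ((m : K[X]) + 1) * C γ * (C (R.coeff 0) * a ^ 0 * b ^ (m + 1 - 0)) := by
    rw [pow_zero, mul_one, Nat.sub_zero, derivative_C_mul, derivative_pow, hdb]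
    push_cast
    simp only [C_add, C_1, map_natCast]
    ring
  rw [h1]
  have h2 : ∀ j ∈ Finset.range (m + 1),
      b * derivative (C (R.coeff (j + 1)) * a ^ (j + 1) * b ^ (m + 1 - (j + 1))) =
      ((m : K[X]) + 1) * C γ * (C (R.coeff (j + 1)) * a ^ (j + 1) * b ^ (m + 1 - (j + 1))) +
      (C α * b - C γ * a) * (C ((derivative R).coeff j) * a ^ j * b ^ (m - j)) := by
    intro j hj
    have hj' : j ≤ m := Nat.lt_succ_iff.1 (Finset.mem_range.1 hj)
    obtain ⟨n, rfl⟩ := Nat.exists_eq_add_of_le hj'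
    have e1 : j + n + 1 - (j + 1) = n := by omega
    have e2 : j + n - j = n := by omega
    rw [e1, e2, mul_assoc, derivative_C_mul, derivative_mul, derivative_pow, derivative_pow, hda,
      hdb, coeff_derivative, Nat.add_sub_cancel, C_mul]
    have h3 : b * (C (n : K) * b ^ (n - 1)) = C (n : K) * b ^ n := by
      rcases Nat.eq_zero_or_pos n with h | h
      · subst h
        simp
      · obtain ⟨n', rfl⟩ := Nat.exists_eq_add_of_le h
        rw [show 1 + n' - 1 = n' by omega]
        ring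
    have h4 : b * (C (R.coeff (j + 1)) * (C ((j + 1 : ℕ) : K) * a ^ j * C α * b ^ n +
        a ^ (j + 1) * (C (n : K) * b ^ (n - 1) * C γ))) =
        C (R.coeff (j + 1)) * (C ((j + 1 : ℕ) : K) * a ^ j * C α * b ^ n * b +
        a ^ (j + 1) * ((b * (C (n : K) * b ^ (n - 1))) * C γ)) := by ring
    rw [h4, h3]
    push_cast
    simp only [C_add, C_1, map_natCast]
    ring
  rw [Finset.sum_congr rfl h2, Finset.sum_add_distrib]
  ring

theorem fo_eval (a b : K[X]) (m : ℕ) (R : K[X]) (hR : R.natDegree ≤ m) (Y y : L)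
    (h : y * aeval Y b = aeval Y a) :
    aeval Y (fo a b m R) = aeval Y b ^ m * aeval y R := by
  rw [aeval_eq_sum_range' (Nat.lt_succ_of_le hR), fo, map_sum, Finset.mul_sum]
  refine Finset.sum_congr rfl fun i hi => ?_
  have hi' : i ≤ m := Nat.lt_succ_iff.1 (Finset.mem_range.1 hi)
  obtain ⟨n, rfl⟩ := Nat.exists_eq_add_of_le hi'
  rw [map_mul, map_mul, map_pow, map_pow, aeval_C, ← h, show i + n - i = n by omega,
    Algebra.smul_def, pow_add, mul_pow]
  ring

/-- Elimination. -/
theorem fin (m w b γ D B r0 r1 r2 r3 G0 G1 G2 G3 : L) (hw : w ≠ 0) (hb : b ≠ 0)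
    (h0 : w * G0 = B * b ^ 3 * r0)
    (h1 : w * G1 = m * γ * (B * b ^ 2 * r0) + D * (B * b * r1))
    (h2 : b * (w * G2) = m * (m - 1) * γ ^ 2 * (B * b ^ 2 * r0) +
      2 * (m - 1) * γ * D * (B * b * r1) + D ^ 2 * (B * r2))
    (h3 : b ^ 3 * (w * G3) = m * (m - 1) * (m - 2) * γ ^ 3 * (B * b ^ 3 * r0) +
      3 * (m - 1) * (m - 2) * γ ^ 2 * D * (B * b ^ 2 * r1) +
      3 * (m - 2) * γ * D ^ 2 * (B * b * r2) + D ^ 3 * (B * r3)) :
    (m * G0 * (m * G0 * G3 - (m - 2) * G1 * G2) -
        (2 * m - 4) * G1 * (m * G0 * G2 - (m - 1) * G1 ^ 2)) ^ 2 *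
      (m * r0 * r2 - (m - 1) * r1 ^ 2) ^ 3 =
    (m * r0 * (m * r0 * r3 - (m - 2) * r1 * r2) -
        (2 * m - 4) * r1 * (m * r0 * r2 - (m - 1) * r1 ^ 2)) ^ 2 *
      (m * G0 * G2 - (m - 1) * G1 ^ 2) ^ 3 := by
  have hH : w ^ 2 * b ^ 2 * (m * G0 * G2 - (m - 1) * G1 ^ 2) =
      D ^ 2 * B ^ 2 * b ^ 4 * (m * r0 * r2 - (m - 1) * r1 ^ 2) := by
    have e : w ^ 2 * b ^ 2 * (m * G0 * G2 - (m - 1) * G1 ^ 2) =
        b * m * (w * G0) * (b * (w * G2)) - (m - 1) * b ^ 2 * (w * G1) ^ 2 := by ring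
    rw [e, h0, h1, h2]
    ring
  have hT : w ^ 3 * b ^ 3 * (m * G0 * (m * G0 * G3 - (m - 2) * G1 * G2) -
        (2 * m - 4) * G1 * (m * G0 * G2 - (m - 1) * G1 ^ 2)) =
      D ^ 3 * B ^ 3 * b ^ 6 * (m * r0 * (m * r0 * r3 - (m - 2) * r1 * r2) -
        (2 * m - 4) * r1 * (m * r0 * r2 - (m - 1) * r1 ^ 2)) := by
    have e : w ^ 3 * b ^ 3 * (m * G0 * (m * G0 * G3 - (m - 2) * G1 * G2) -
        (2 * m - 4) * G1 * (m * G0 * G2 - (m - 1) * G1 ^ 2)) =
        m ^ 2 * (w * G0) ^ 2 * (b ^ 3 * (w * G3)) -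
        3 * m * (m - 2) * b ^ 2 * (w * G0) * (w * G1) * (b * (w * G2)) +
        2 * (m - 2) * (m - 1) * b ^ 3 * (w * G1) ^ 3 := by ring
    rw [e, h0, h1, h2, h3]
    ring
  generalize hHG : m * G0 * G2 - (m - 1) * G1 ^ 2 = HG at *
  generalize hHR : m * r0 * r2 - (m - 1) * r1 ^ 2 = HR at *
  generalize hTG : m * G0 * (m * G0 * G3 - (m - 2) * G1 * G2) - (2 * m - 4) * G1 * HG = TG at *
  generalize hTR : m * r0 * (m * r0 * r3 - (m - 2) * r1 * r2) - (2 * m - 4) * r1 * HR = TR at *
  have hne : w ^ 6 * b ^ 6 ≠ 0 := mul_ne_zero (pow_ne_zero _ hw) (pow_ne_zero _ hb)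
  apply mul_left_cancel₀ hne
  calc w ^ 6 * b ^ 6 * (TG ^ 2 * HR ^ 3) = (w ^ 3 * b ^ 3 * TG) ^ 2 * HR ^ 3 := by ring
    _ = (D ^ 3 * B ^ 3 * b ^ 6 * TR) ^ 2 * HR ^ 3 := by rw [hT]
    _ = TR ^ 2 * (D ^ 2 * B ^ 2 * b ^ 4 * HR) ^ 3 := by ring
    _ = TR ^ 2 * (w ^ 2 * b ^ 2 * HG) ^ 3 := by rw [hH]
    _ = w ^ 6 * b ^ 6 * (TR ^ 2 * HG ^ 3) := by ring

theorem aeval_hs (m : ℕ) (G : K[X]) (Y : L) :
    aeval Y (hs m G) = (m : L) * aeval Y G * aeval Y (derivative (derivative G)) -
      ((m : L) - 1) * aeval Y (derivative G) ^ 2 := by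
  simp [hs]

theorem aeval_tc (m : ℕ) (G : K[X]) (Y : L) :
    aeval Y (tc m G) = (m : L) * aeval Y G *
      ((m : L) * aeval Y G * aeval Y (derivative (derivative (derivative G))) -
        ((m : L) - 2) * aeval Y (derivative G) * aeval Y (derivative (derivative G))) -
      (2 * (m : L) - 4) * aeval Y (derivative G) *
        ((m : L) * aeval Y G * aeval Y (derivative (derivative G)) -
          ((m : L) - 1) * aeval Y (derivative G) ^ 2) := by
  have e : derivative (hs m G) = (m : K[X]) * G * derivative (derivative (derivative G)) -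
      ((m : K[X]) - 2) * derivative G * derivative (derivative G) := by
    rw [hs, sq, derivative_sub, derivative_mul, derivative_mul, derivative_mul, derivative_mul]
    simp only [derivative_natCast, derivative_sub, derivative_one]
    ring
  rw [tc, e, ← aeval_hs]
  simp only [map_sub, map_mul, map_natCast, map_ofNat]

end HessAux

open HessAux in
theorem hessP : HessProp.{u} := by
  intro K L _ _ _ m G R α β γ δ w hm hG hR hD hw hsum Y hb y hy
  obtain ⟨M, rfl⟩ := Nat.exists_eq_add_of_le hm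
  rw [show 3 + M = M + 2 + 1 by ring] at *
  have hF : fo (C α * X + C β) (C γ * X + C δ) (M + 2 + 1) R = C w * G := hsum
  have d1 := fo_deriv α β γ δ (M + 2) R
  have d2 := fo_deriv α β γ δ (M + 1) (derivative R)
  have d3 := fo_deriv α β γ δ M (derivative (derivative R))
  rw [hF, derivative_C_mul] at d1
  have hdb : derivative (C γ * X + C δ : K[X]) = C γ := by simp
  -- differentiate `d1`
  have d1' := congrArg derivative d1
  rw [derivative_mul, hdb, derivative_C_mul, derivative_add, derivative_C_mul] at d1'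
  have d1m : derivative ((((M + 2 : ℕ) : K[X]) + 1) * C γ * (C w * G)) =
      (((M + 2 : ℕ) : K[X]) + 1) * C γ * (C w * derivative G) := by
    simp [derivative_mul]
  rw [d1m] at d1'
  have d1'' := congrArg derivative d1'
  rw [derivative_add, derivative_mul (f := C γ), derivative_C, zero_mul, zero_add,
    derivative_mul (f := C γ * X + C δ), hdb, derivative_add, derivative_C_mul,
    derivative_C_mul, derivative_C_mul] at d1''
  have d1m' : derivative ((((M + 2 : ℕ) : K[X]) + 1) * C γ * (C w * derivative G)) =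
      (((M + 2 : ℕ) : K[X]) + 1) * C γ * (C w * derivative (derivative G)) := by
    simp [derivative_mul]
  rw [d1m'] at d1''
  have d2' := congrArg derivative d2
  rw [derivative_mul, hdb, derivative_add, derivative_C_mul] at d2'
  have d2m : ∀ F : K[X], derivative ((((M + 1 : ℕ) : K[X]) + 1) * C γ * F) =
      (((M + 1 : ℕ) : K[X]) + 1) * C γ * derivative F := by
    intro F
    simp [derivative_mul]
  rw [d2m] at d2'
  have hya : y * aeval Y (C γ * X + C δ : K[X]) = aeval Y (C α * X + C β : K[X]) := by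
    simpa using hy
  have hbe : aeval Y (C γ * X + C δ : K[X]) = algebraMap K L γ * Y + algebraMap K L δ := by simp
  have hdR : ∀ {F : K[X]} {n : ℕ}, F.natDegree ≤ n + 1 → (derivative F).natDegree ≤ n := by
    intro F n h
    exact (natDegree_derivative_le F).trans (by omega)
  have hR1 := hdR hR
  have hR2 := hdR hR1
  have hR3 := hdR hR2
  have v0 := fo_eval (L := L) _ _ _ _ hR Y y hya
  have v1 := fo_eval (L := L) _ _ _ _ hR1 Y y hya
  have v2 := fo_eval (L := L) _ _ _ _ hR2 Y y hya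
  have v3 := fo_eval (L := L) _ _ _ _ hR3 Y y hya
  rw [hF] at v0
  rw [hbe] at v0 v1 v2 v3
  rw [map_mul, aeval_C] at v0
  rw [aeval_hs, aeval_hs, aeval_tc, aeval_tc]
  -- evaluate
  have f1 := congrArg (aeval Y) d1
  have f1' := congrArg (aeval Y) d1'
  have f1'' := congrArg (aeval Y) d1''
  have f2 := congrArg (aeval Y) d2
  have f2' := congrArg (aeval Y) d2'
  have f3 := congrArg (aeval Y) d3
  simp only [map_add, map_mul, aeval_C, aeval_X, map_natCast, map_one] at f1 f1' f1'' f2 f2' f3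
  generalize hbb : algebraMap K L γ * Y + algebraMap K L δ = b at *
  have hw' : algebraMap K L w ≠ 0 := by
    rwa [Ne, map_eq_zero_iff _ (algebraMap K L).injective]
  generalize aeval Y (derivative (fo (C α * X + C β) (C γ * X + C δ) (M + 2) (derivative R))) =
    F1' at *
  generalize aeval Y (derivative (derivative
    (fo (C α * X + C β) (C γ * X + C δ) (M + 2) (derivative R)))) = F1'' at *
  generalize aeval Y (derivative (fo (C α * X + C β) (C γ * X + C δ) (M + 1)
    (derivative (derivative R)))) = F2' at *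
  generalize aeval Y (fo (C α * X + C β) (C γ * X + C δ) (M + 2) (derivative R)) = F1 at *
  generalize aeval Y (fo (C α * X + C β) (C γ * X + C δ) (M + 1)
    (derivative (derivative R))) = F2 at *
  generalize aeval Y (fo (C α * X + C β) (C γ * X + C δ) M
    (derivative (derivative (derivative R)))) = F3 at *
  generalize algebraMap K L (α * δ - β * γ) = D at *
  generalize algebraMap K L γ = g at *
  generalize algebraMap K L w = w' at *
  push_cast at f1 f1' f1'' f2 f2' f3 ⊢
  have E2 : b ^ 2 * (w' * aeval Y (derivative (derivative G))) =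
      ((M : L) + 3) * ((M : L) + 2) * g ^ 2 * (w' * aeval Y G) + 2 * ((M : L) + 2) * g * D * F1 +
        D ^ 2 * F2 := by
    linear_combination b * f1' + ((M : L) + 2) * g * f1 + D * f2
  have E3 : b ^ 3 * (w' * aeval Y (derivative (derivative (derivative G)))) =
      ((M : L) + 3) * ((M : L) + 2) * ((M : L) + 1) * g ^ 3 * (w' * aeval Y G) +
        3 * ((M : L) + 2) * ((M : L) + 1) * g ^ 2 * D * F1 +
        3 * ((M : L) + 1) * g * D ^ 2 * F2 + D ^ 3 * F3 := by
    linear_combination b ^ 2 * f1'' + ((M : L) + 1) * g * E2 +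
      D * (b * f2' + ((M : L) + 1) * g * f2 + D * f3)
  refine fin ((M : L) + 2 + 1) w' b g D (b ^ M) _ _ _ _ _ _ _ _ hw' hb ?_ ?_ ?_ ?_
  · rw [v0]
    ring
  · apply mul_left_cancel₀ hb
    linear_combination f1 + ((M : L) + 3) * g * v0 + D * v1
  · apply mul_left_cancel₀ hb
    linear_combination E2 + ((M : L) + 3) * ((M : L) + 2) * g ^ 2 * v0 +
      2 * ((M : L) + 2) * g * D * v1 + D ^ 2 * v2
  · linear_combination E3 + ((M : L) + 3) * ((M : L) + 2) * ((M : L) + 1) * g ^ 3 * v0 +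
      3 * ((M : L) + 2) * ((M : L) + 1) * g ^ 2 * D * v1 +
      3 * ((M : L) + 1) * g * D ^ 2 * v2 + D ^ 3 * v3

end Pool.Agent.Lib.MP_16285c_ag
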