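import Pool.Agent.Lib.MP_16285c_ag.Spec

/-!
# Composition is injective (B3) (helper49)
-/

set_option autoImplicit false

namespace Pool.Agent.Lib.MP_16285c_ag

universe u

theorem injP (h1 : CompProp.{u}) (h2 : TailProp.{u}) : InjProp.{u} := by
  intro k _ n f x hf hx
  have hd : ∀ i, f.den i ≠ 0 := fun i h => (hf 0 i).1 (by rw [h, map_zero])
  refine ⟨hd, (injective_iff_map_eq_zero _).2 fun G hG => ?_⟩
  by_contra hG0
  obtain ⟨E, N, g1, g2, g3, g4⟩ := h1 k n f hd G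
  rw [hG, mul_zero, map_eq_zero_iff _ (IsFractionRing.injective _ _)] at g2
  obtain ⟨j, hj, he⟩ := h2 k n x hx G hG0 1
  obtain ⟨i, rfl⟩ : ∃ i, j = i + 1 := ⟨j - 1, by omega⟩
  have h3 := g4 (x i) (x (i + 1)) (hf i)
  rw [g2, map_zero] at h3
  exact mul_ne_zero (g3 (x i) fun l => (hf i l).1) he h3.symm

end Pool.Agent.Lib.MP_16285c_ag
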