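import Pool.Agent.Lib.MP_16285c_ag.Spec

/-!
# (B10): invariants of the tail are invariants
-/

set_option autoImplicit false

namespace Pool.Agent.Lib.MP_16285c_ag

universe u

namespace InvTailAux

/-- The embedding of fraction fields induced by `rename Fin.succ`. -/
noncomputable def iot (k : Type u) [Field k] (n : ℕ) :
    FractionRing (MvPolynomial (Fin n) k) →+* FractionRing (MvPolynomial (Fin (n + 1)) k) :=
  IsFractionRing.map (j := (MvPolynomial.rename (R := k) (Fin.succ : Fin n → Fin (n + 1))).toRingHom)
    rename_succ_injective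

theorem iot_algebraMap (k : Type u) [Field k] (n : ℕ) (A : MvPolynomial (Fin n) k) :
    iot k n (algebraMap _ _ A) = algebraMap _ _ (MvPolynomial.rename Fin.succ A) := by
  rw [iot, IsFractionRing.map, IsLocalization.map_eq]
  rfl

theorem comp_X (k : Type u) [Field k] (n : ℕ) (f : RM k n) (i : Fin n) :
    f.comp (MvPolynomial.X i) = algebraMap _ _ (f.num i) / algebraMap _ _ (f.den i) := by
  rw [RM.comp, MvPolynomial.aeval_X]

theorem comp_C (k : Type u) [Field k] (n : ℕ) (f : RM k n) (a : k) :
    f.comp (MvPolynomial.C a) = algebraMap _ _ (MvPolynomial.C a : MvPolynomial (Fin n) k) := by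
  rw [RM.comp, MvPolynomial.aeval_C, IsScalarTower.algebraMap_apply k (MvPolynomial (Fin n) k)]
  rfl

theorem comp_rename (k : Type u) [Field k] (n : ℕ) (f : RM k n) (P Q : TP k n)
    (A : MvPolynomial (Fin n) k) :
    (f.cons P Q).comp (MvPolynomial.rename Fin.succ A) = iot k n (f.comp A) := by
  induction A using MvPolynomial.induction_on with
  | C a => rw [MvPolynomial.rename_C, comp_C, comp_C, iot_algebraMap, MvPolynomial.rename_C]
  | add p q hp hq => rw [map_add, map_add, map_add, map_add, hp, hq]
  | mul_X p i hp =>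
    rw [map_mul, map_mul, map_mul, map_mul, hp, MvPolynomial.rename_X, comp_X, comp_X, map_div₀,
      iot_algebraMap, iot_algebraMap, RM.cons_num_succ, RM.cons_den_succ]

end InvTailAux

open InvTailAux in
theorem invTailP : InvTailProp.{u} := by
  intro k _ n f P Q h A B hB hAB
  have h1 := h (MvPolynomial.rename Fin.succ A) (MvPolynomial.rename Fin.succ B) (by
    intro h0
    rw [← map_zero (MvPolynomial.rename Fin.succ)] at h0
    exact hB (rename_succ_injective h0)) (by
    rw [comp_rename, comp_rename, ← iot_algebraMap, ← iot_algebraMap, ← map_mul, ← map_mul, hAB])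
  obtain ⟨c, hc⟩ := h1
  refine ⟨c, rename_succ_injective ?_⟩
  rw [hc, map_mul, MvPolynomial.rename_C]

end Pool.Agent.Lib.MP_16285c_ag
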