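import Pool.Agent.Lib.MP_16285c_ag.Spec

/-!
# Orbits of points reducing to a Frobenius point (A7) (helper49)
-/

set_option autoImplicit false

namespace Pool.Agent.Lib.MP_16285c_ag

universe u

namespace LiftAux

variable {k : Type u} [Field k] {V : ValuationSubring k} {R₀ : Subring k}
  {hR : ∀ r ∈ R₀, r ∈ V} {n : ℕ}

theorem lies_eval {z : Fin n → k} {c : Fin n → IsLocalRing.ResidueField V}
    (h : ∀ i, Lies V (z i) (c i)) (G : MvPolynomial (Fin n) R₀) :
    Lies V (MvPolynomial.eval z (MvPolynomial.map R₀.subtype G))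
      (MvPolynomial.eval c (MvPolynomial.map (red V R₀ hR) G)) := by
  choose h1 h2 using h
  have e1 : MvPolynomial.eval z (MvPolynomial.map R₀.subtype G) =
      V.subtype (MvPolynomial.eval₂ (inc V R₀ hR) (fun i => (⟨z i, h1 i⟩ : V)) G) := by
    rw [MvPolynomial.eval_map, MvPolynomial.hom_eval₂]
    rfl
  have e2 : MvPolynomial.eval c (MvPolynomial.map (red V R₀ hR) G) =
      IsLocalRing.residue V
        (MvPolynomial.eval₂ (inc V R₀ hR) (fun i => (⟨z i, h1 i⟩ : V)) G) := by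
    rw [MvPolynomial.eval_map, MvPolynomial.hom_eval₂]
    congr 1
    funext i
    exact (h2 i).symm
  rw [e1, e2]
  exact ⟨(MvPolynomial.eval₂ (inc V R₀ hR) (fun i => (⟨z i, h1 i⟩ : V)) G).2, rfl⟩

theorem lies_zero {a : IsLocalRing.ResidueField V} (h : Lies V 0 a) : a = 0 := by
  obtain ⟨h1, h2⟩ := h
  rw [← h2]
  exact map_zero (IsLocalRing.residue V)

theorem lies_div {x y : k} {a b : IsLocalRing.ResidueField V} (hx : Lies V x (a * b))
    (hy : Lies V y b) (hb : b ≠ 0) : y ≠ 0 ∧ Lies V (x / y) a := by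
  have hy0 : y ≠ 0 := by
    rintro rfl
    exact hb (lies_zero hy)
  obtain ⟨h1, h2⟩ := hx
  obtain ⟨g1, g2⟩ := hy
  have hu : IsUnit (⟨y, g1⟩ : V) := by
    rw [← IsLocalRing.residue_ne_zero_iff_isUnit, g2]
    exact hb
  obtain ⟨w, hw⟩ := hu.exists_right_inv
  have hw' : y * (w : k) = 1 := congrArg Subtype.val hw
  have hq : x / y = ((⟨x, h1⟩ * w : V) : k) := by
    rw [div_eq_iff hy0]
    show x = x * (w : k) * y
    rw [mul_assoc, mul_comm (w : k) y, hw', mul_one]
  refine ⟨hy0, ?_⟩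
  rw [hq]
  refine ⟨(⟨x, h1⟩ * w : V).2, ?_⟩
  show IsLocalRing.residue V (⟨x, h1⟩ * w) = a
  have h3 := congrArg (IsLocalRing.residue V) hw
  rw [map_mul, g2, map_one] at h3
  rw [map_mul, h2, mul_assoc, h3, mul_one]

theorem eval_frob (p s : ℕ) [Fact p.Prime] [CharP (IsLocalRing.ResidueField V) p]
    (hq : ∀ r, red V R₀ hR r ^ (p ^ s) = red V R₀ hR r) (c : Fin n → IsLocalRing.ResidueField V)
    (G : MvPolynomial (Fin n) R₀) :
    MvPolynomial.eval (fun i => c i ^ p ^ s) (MvPolynomial.map (red V R₀ hR) G) =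
      (MvPolynomial.eval c (MvPolynomial.map (red V R₀ hR) G)) ^ p ^ s := by
  have : ExpChar (IsLocalRing.ResidueField V) p := ExpChar.prime Fact.out
  have e1 : ∀ t : IsLocalRing.ResidueField V,
      t ^ p ^ s = iterateFrobenius (IsLocalRing.ResidueField V) p s t := fun t => rfl
  rw [e1, MvPolynomial.eval_map, MvPolynomial.eval_map, MvPolynomial.hom_eval₂]
  congr 1
  ext r
  exact (hq r).symm

end LiftAux

open LiftAux in
theorem liftP : LiftProp.{u} := by
  intro k _ V R₀ hR p s _ _ hq n f a ha x₀ hx₀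
  set ψ := red V R₀ hR with hψ
  have hsucc : ∀ (i : Fin n) (j : ℕ), a i ^ (p ^ s) ^ (j + 1) = (a i ^ (p ^ s) ^ j) ^ p ^ s := by
    intro i j
    rw [pow_succ (p ^ s) j, pow_mul]
  have hev : ∀ (j : ℕ) (G : MvPolynomial (Fin n) R₀),
      MvPolynomial.eval (fun i => a i ^ (p ^ s) ^ j) (MvPolynomial.map ψ G) =
        (MvPolynomial.eval a (MvPolynomial.map ψ G)) ^ (p ^ s) ^ j := by
    intro j G
    induction j with
    | zero => simp
    | succ j ih =>
      simp only [hsucc]
      rw [hψ, eval_frob p s hq, ← hψ, ih, pow_succ (p ^ s) j, pow_mul]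
  have hF : ∀ j, FrobPt (f.map ψ) (p ^ s) (fun i => a i ^ (p ^ s) ^ j) := by
    intro j i
    obtain ⟨h1, h2⟩ := ha i
    have e1 : (f.map ψ).den i = MvPolynomial.map ψ (f.den i) := rfl
    have e2 : (f.map ψ).num i = MvPolynomial.map ψ (f.num i) := rfl
    rw [e1] at h1 h2
    rw [e2] at h2
    rw [e1, e2, hev, hev]
    refine ⟨pow_ne_zero _ h1, ?_⟩
    rw [← h2, mul_pow, pow_right_comm]
  let nxt : (Fin n → k) → (Fin n → k) := fun z i =>
    MvPolynomial.eval z (MvPolynomial.map R₀.subtype (f.num i)) /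
      MvPolynomial.eval z (MvPolynomial.map R₀.subtype (f.den i))
  have hL : ∀ j, ∀ i, Lies V (nxt^[j] x₀ i) (a i ^ (p ^ s) ^ j) := by
    intro j
    induction j with
    | zero =>
      intro i
      simpa using hx₀ i
    | succ j ih =>
      intro i
      rw [Function.iterate_succ_apply', hsucc]
      obtain ⟨h1, h2⟩ := hF j i
      have e1 : (f.map ψ).den i = MvPolynomial.map ψ (f.den i) := rfl
      have e2 : (f.map ψ).num i = MvPolynomial.map ψ (f.num i) := rfl
      rw [e1] at h1 h2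
      rw [e2] at h2
      refine (lies_div ?_ (lies_eval (hR := hR) ih (f.den i)) h1).2
      rw [h2]
      exact lies_eval (hR := hR) ih (f.num i)
  have hne : ∀ G : MvPolynomial (Fin n) R₀,
      MvPolynomial.eval a (MvPolynomial.map ψ G) ≠ 0 →
      ∀ j, MvPolynomial.eval (nxt^[j] x₀) (MvPolynomial.map R₀.subtype G) ≠ 0 := by
    intro G hG j h0
    have h1 := lies_eval (hR := hR) (hL j) G
    rw [h0] at h1
    have h2 := lies_zero h1
    rw [← hψ, hev] at h2
    exact pow_ne_zero _ hG h2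
  refine ⟨fun j => nxt^[j] x₀, rfl, fun j i => ?_, hL, hne⟩
  have h1 : MvPolynomial.eval (nxt^[j] x₀) (MvPolynomial.map R₀.subtype (f.den i)) ≠ 0 :=
    hne (f.den i) (ha i).1 j
  refine ⟨h1, ?_⟩
  show nxt^[j + 1] x₀ i * MvPolynomial.eval (nxt^[j] x₀) (MvPolynomial.map R₀.subtype (f.den i)) =
    MvPolynomial.eval (nxt^[j] x₀) (MvPolynomial.map R₀.subtype (f.num i))
  rw [Function.iterate_succ_apply']
  exact div_mul_cancel₀ _ h1

end Pool.Agent.Lib.MP_16285c_ag
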