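import Pool.Agent.Lib.MP_16285c_ag.Spec

set_option autoImplicit false

namespace Pool.Agent.Lib.MP_16285c_ag

universe u

/-! ## Assembly: lifting Frobenius points to points with dense orbits -/

section desc

variable {k : Type u} [Field k] {R₀ : Subring k} {K : Subfield k} {n : ℕ}

theorem evalDesc (ι : R₀ →+* K) (hι : ∀ r, ((ι r : K) : k) = r) (x : Fin n → k) (xK : Fin n → K)
    (h : ∀ i, ((xK i : K) : k) = x i) (G : MvPolynomial (Fin n) R₀) :
    MvPolynomial.eval x (MvPolynomial.map R₀.subtype G) =
      ((MvPolynomial.eval xK (MvPolynomial.map ι G) : K) : k) := by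
  have hx : x = fun i => K.subtype (xK i) := by
    funext i; exact (h i).symm
  have hs : R₀.subtype = K.subtype.comp ι := by
    ext r; exact (hι r).symm
  rw [hx, hs, ← MvPolynomial.map_map]
  generalize MvPolynomial.map ι G = H
  rw [MvPolynomial.eval_map]
  change _ = K.subtype (MvPolynomial.eval xK H)
  rw [MvPolynomial.eval, MvPolynomial.coe_eval₂Hom, MvPolynomial.hom_eval₂]
  simp

theorem orbDesc (ι : R₀ →+* K) (hι : ∀ r, ((ι r : K) : k) = r) (f : RM R₀ n) (x : ℕ → Fin n → k)
    (h : (f.map R₀.subtype).Orb x) (h0 : ∀ i, x 0 i ∈ K) :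
    ∃ xK : ℕ → Fin n → K, (∀ j i, ((xK j i : K) : k) = x j i) ∧ (f.map ι).Orb xK := by
  have hmem : ∀ j i, x j i ∈ K := by
    intro j
    induction j with
    | zero => exact h0
    | succ j ih =>
      intro i
      have h1 := h j i
      let z : Fin n → K := fun i => ⟨x j i, ih i⟩
      have hz : ∀ i, ((z i : K) : k) = x j i := fun i => rfl
      have hd : MvPolynomial.eval (x j) ((f.map R₀.subtype).den i) =
          ((MvPolynomial.eval z (MvPolynomial.map ι (f.den i)) : K) : k) :=
        evalDesc ι hι (x j) z hz (f.den i)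
      have hn : MvPolynomial.eval (x j) ((f.map R₀.subtype).num i) =
          ((MvPolynomial.eval z (MvPolynomial.map ι (f.num i)) : K) : k) :=
        evalDesc ι hι (x j) z hz (f.num i)
      have h2 : x (j + 1) i = MvPolynomial.eval (x j) ((f.map R₀.subtype).num i) /
          MvPolynomial.eval (x j) ((f.map R₀.subtype).den i) := by
        rw [eq_div_iff h1.1]; exact h1.2
      rw [h2, hd, hn]
      exact K.div_mem (SetLike.coe_mem _) (SetLike.coe_mem _)
  refine ⟨fun j i => ⟨x j i, hmem j i⟩, fun j i => rfl, fun j i => ?_⟩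
  have h1 := h j i
  have hd : MvPolynomial.eval (x j) ((f.map R₀.subtype).den i) =
      ((MvPolynomial.eval (fun i => (⟨x j i, hmem j i⟩ : K)) ((f.map ι).den i) : K) : k) :=
    evalDesc ι hι (x j) _ (fun i => rfl) (f.den i)
  have hn : MvPolynomial.eval (x j) ((f.map R₀.subtype).num i) =
      ((MvPolynomial.eval (fun i => (⟨x j i, hmem j i⟩ : K)) ((f.map ι).num i) : K) : k) :=
    evalDesc ι hι (x j) _ (fun i => rfl) (f.num i)
  rw [hd, hn] at h1
  refine ⟨fun h3 => h1.1 ?_, ?_⟩
  · rw [h3]; rfl
  · apply Subtype.ext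
    exact h1.2

end desc

theorem dns_nil {k : Type u} [Field k] (x : ℕ → Fin 0 → k) : Dns x := by
  intro G hG
  refine ⟨0, fun h => hG ?_⟩
  rw [MvPolynomial.eq_C_of_isEmpty G] at h ⊢
  rw [MvPolynomial.eval_C] at h
  rw [h, map_zero]

theorem liftAll (hLift : LiftProp.{u}) (hMap : MapProp.{u}) (hMob : MobProp.{u})
    (hInvTail : InvTailProp.{u}) (hFast : FastProp.{u}) (hDesc : DescProp.{u})
    (k : Type u) [Field k] [CharZero k] (V : ValuationSubring k) (R₀ : Subring k) (S₀ : Finset k)
    (hgen : ∀ K : Subfield k, (S₀ : Set k) ⊆ K → ∀ r ∈ R₀, r ∈ K)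
    (hR : ∀ r ∈ R₀, r ∈ V) (p s : ℕ) [Fact p.Prime]
    [CharP (IsLocalRing.ResidueField V) p]
    (hfix : ∀ r, red V R₀ hR r ^ (p ^ s) = red V R₀ hR r) (hsup : Supply k V)
    (n : ℕ) (f : RM R₀ n) (e : Fin n → ℕ) (β : MvPolynomial (Fin n) R₀) (hT : Tower R₀ n f e β) :
    ∀ a : Fin n → IsLocalRing.ResidueField V, FrobPt (f.map (red V R₀ hR)) (p ^ s) a →
      MvPolynomial.eval a (MvPolynomial.map (red V R₀ hR) β) ≠ 0 →
      (f.map R₀.subtype).NoInv →
      ∃ x₀ : Fin n → k, (∀ i, Lies V (x₀ i) (a i)) ∧
        ∀ x : ℕ → Fin n → k, x 0 = x₀ → (f.map R₀.subtype).Orb x → Dns x := by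
  classical
  induction hT with
  | nil f e =>
    intro a _ _ _
    exact ⟨fun i => i.elim0, fun i => i.elim0, fun x _ _ => dns_nil x⟩
  | @cons n f e β P Q d ρ hf hd hP hQ hρ hW hres he ih =>
    intro a ha hb hinv
    set ψ := red V R₀ hR with hψ
    have hcons : a = Fin.cons (a 0) (Fin.tail a) := (Fin.cons_self_tail a).symm
    -- the Frobenius point of the base
    have ha' : FrobPt (f.map ψ) (p ^ s) (Fin.tail a) := by
      intro i
      have h1 := ha i.succ
      rw [RM.map_cons, RM.cons_num_succ, RM.cons_den_succ, hcons, eval_rename_succ,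
        eval_rename_succ, Fin.cons_succ] at h1
      exact h1
    have hb1 : MvPolynomial.eval (Fin.tail a) (MvPolynomial.map ψ (β * ρ)) ≠ 0 := by
      rw [MvPolynomial.map_rename, hcons, eval_rename_succ] at hb
      exact hb
    rw [map_mul, map_mul] at hb1
    have hbβ := left_ne_zero_of_mul hb1
    have hbρ := right_ne_zero_of_mul hb1
    have hcm := RM.map_cons f P Q R₀.subtype
    have hinv' : (f.map R₀.subtype).NoInv := by
      rw [hcm] at hinv
      exact hInvTail k n _ _ _ hinv
    obtain ⟨x₀, hx₀, hdns⟩ := ih (Fin.tail a) ha' hbβ hinv'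
    obtain ⟨x, hx0, hxo, hxl, hxG⟩ := hLift k V R₀ hR p s hfix n f (Fin.tail a) ha' x₀ hx₀
    have hxd : Dns x := hdns x hx0 hxo
    have hxρ := hxG ρ hbρ
    -- orbits over the base orbit
    have horb : ∀ y : k, Lies V y (a 0) → ∃ ys : ℕ → k, ys 0 = y ∧
        ((f.cons P Q).map R₀.subtype).Orb
          (fun j => (Fin.cons (ys j) (x j) : Fin (n + 1) → k)) := by
      intro y hy
      have hl : ∀ i, Lies V ((Fin.cons y x₀ : Fin (n + 1) → k) i) (a i) := by
        intro i
        refine Fin.cases ?_ (fun i => ?_) i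
        · exact hy
        · exact hx₀ i
      obtain ⟨z, hz0, hzo, -, -⟩ := hLift k V R₀ hR p s hfix (n + 1) (f.cons P Q) a ha _ hl
      have hzo' := hzo
      rw [hcm] at hzo'
      have ht : (fun j => Fin.tail (z j)) = x := by
        refine RM.orb_unique _ _ _ (RM.orb_cons' _ _ _ _ hzo').1 hxo ?_
        simp only [hz0, hx0, Fin.tail_cons]
      refine ⟨fun j => z j 0, by simp only [hz0, Fin.cons_zero], ?_⟩
      have : (fun j => (Fin.cons (z j 0) (x j) : Fin (n + 1) → k)) = z := by
        funext j
        rw [← ht]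
        exact Fin.cons_self_tail (z j)
      rw [this]
      exact hzo
    have hdone : ∀ y : k, Lies V y (a 0) → ∀ ys : ℕ → k, ys 0 = y →
        ((f.cons P Q).map R₀.subtype).Orb
          (fun j => (Fin.cons (ys j) (x j) : Fin (n + 1) → k)) →
        Dns (fun j => (Fin.cons (ys j) (x j) : Fin (n + 1) → k)) →
        ∃ x₀ : Fin (n + 1) → k, (∀ i, Lies V (x₀ i) (a i)) ∧
          ∀ x : ℕ → Fin (n + 1) → k, x 0 = x₀ → ((f.cons P Q).map R₀.subtype).Orb x → Dns x := by
      intro y hy ys hys ho hd'
      refine ⟨Fin.cons y x₀, fun i => ?_, fun z hz0 hzo => ?_⟩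
      · refine Fin.cases ?_ (fun i => ?_) i
        · exact hy
        · exact hx₀ i
      · have : z = fun j => (Fin.cons (ys j) (x j) : Fin (n + 1) → k) := by
          refine RM.orb_unique _ _ _ hzo ho ?_
          rw [hz0, hys, hx0]
        rw [this]
        exact hd'
    -- a lift of `a 0`
    obtain ⟨⟨y₀, hy₀V⟩, hy₀⟩ := IsLocalRing.residue_surjective (a 0)
    have hy₀l : Lies V y₀ (a 0) := ⟨hy₀V, hy₀⟩
    have hresk : ∀ φ : R₀ →+* k, ResId (P.map (MvPolynomial.map φ)) (Q.map (MvPolynomial.map φ)) d
        (MvPolynomial.map φ ρ) := by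
      intro φ
      obtain ⟨U₀, V₀, U₁, V₁, h1, h2, h3, h4, h5, h6⟩ := hres
      refine ⟨U₀.map (MvPolynomial.map φ), V₀.map (MvPolynomial.map φ),
        U₁.map (MvPolynomial.map φ), V₁.map (MvPolynomial.map φ),
        lt_of_le_of_lt (Polynomial.natDegree_map_le) h1,
        lt_of_le_of_lt (Polynomial.natDegree_map_le) h2,
        lt_of_le_of_lt (Polynomial.natDegree_map_le) h3,
        lt_of_le_of_lt (Polynomial.natDegree_map_le) h4, ?_, ?_⟩
      · rw [← Polynomial.map_mul, ← Polynomial.map_mul, ← Polynomial.map_add, h5, Polynomial.map_C]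
      · rw [← Polynomial.map_mul, ← Polynomial.map_mul, ← Polynomial.map_add, h6,
          Polynomial.map_mul, Polynomial.map_C, Polynomial.map_pow, Polynomial.map_X]
    rcases (Nat.lt_or_ge 1 d) with hd2 | hd1
    · -- large relative degree
      have he' : ∀ i, e i < d := by
        rcases he with he | he
        · omega
        · exact he
      obtain ⟨K, A, hSK, hK⟩ := hsup (S₀ ∪ Finset.univ.image x₀ ∪ {y₀})
      have hS₀ : (S₀ : Set k) ⊆ K := fun z hz => hSK (by simp [Finset.mem_coe.1 hz])
      have hxK : ∀ i, x₀ i ∈ K := fun i => hSK (by simp)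
      have hyK : y₀ ∈ K := hSK (by simp)
      let ι : R₀ →+* K :=
        { toFun := fun r => ⟨r, hgen K hS₀ r r.2⟩
          map_one' := rfl
          map_mul' := fun _ _ => rfl
          map_zero' := rfl
          map_add' := fun _ _ => rfl }
      have hι : ∀ r, ((ι r : K) : k) = r := fun r => rfl
      have hιinj : Function.Injective ι := by
        intro r r' h
        apply Subtype.ext
        rw [← hι r, ← hι r', h]
      obtain ⟨xK, hxKc, hxKo⟩ := orbDesc ι hι f x hxo (fun i => by rw [hx0]; exact hxK i)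
      have hTK : Tower K n (f.map ι) e (MvPolynomial.map ι β) := by
        obtain ⟨S₂, hS₂, h⟩ := hMap R₀ n f e β hf
        refine h K ι (fun s hs h0 => hS₂ ?_)
        have : s = 0 := hιinj (by rw [h0, map_zero])
        rw [← this]; exact hs
      have hxKd : Dns xK := by
        intro G hG
        obtain ⟨j, hj⟩ := hxd (MvPolynomial.map K.subtype G) (by
          intro h0
          exact hG (MvPolynomial.map_injective _ K.subtype_injective (by rw [h0, map_zero])))
        refine ⟨j, fun h0 => hj ?_⟩
        have hxj : x j = fun i => K.subtype (xK j i) := by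
          funext i; exact (hxKc j i).symm
        rw [hxj, MvPolynomial.eval_map]
        have h3 := congrArg K.subtype h0
        rw [MvPolynomial.eval, MvPolynomial.coe_eval₂Hom, MvPolynomial.hom_eval₂, map_zero] at h3
        simpa using h3
      have hresK : ResId (P.map (MvPolynomial.map ι)) (Q.map (MvPolynomial.map ι)) d
          (MvPolynomial.map ι ρ) := by
        obtain ⟨U₀, V₀, U₁, V₁, h1, h2, h3, h4, h5, h6⟩ := hres
        refine ⟨U₀.map (MvPolynomial.map ι), V₀.map (MvPolynomial.map ι),
          U₁.map (MvPolynomial.map ι), V₁.map (MvPolynomial.map ι),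
          lt_of_le_of_lt (Polynomial.natDegree_map_le) h1,
          lt_of_le_of_lt (Polynomial.natDegree_map_le) h2,
          lt_of_le_of_lt (Polynomial.natDegree_map_le) h3,
          lt_of_le_of_lt (Polynomial.natDegree_map_le) h4, ?_, ?_⟩
        · rw [← Polynomial.map_mul, ← Polynomial.map_mul, ← Polynomial.map_add, h5,
            Polynomial.map_C]
        · rw [← Polynomial.map_mul, ← Polynomial.map_mul, ← Polynomial.map_add, h6,
            Polynomial.map_mul, Polynomial.map_C, Polynomial.map_pow, Polynomial.map_X]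
      have hρK : ∀ j, MvPolynomial.eval (xK j) (MvPolynomial.map ι ρ) ≠ 0 := by
        intro j h0
        apply hxρ j
        rw [evalDesc ι hι (x j) (xK j) (hxKc j) ρ, h0]
        rfl
      obtain ⟨B, hB⟩ := hFast K n (f.map ι) e _ hTK xK hxKo hxKd (P.map (MvPolynomial.map ι))
        (Q.map (MvPolynomial.map ι)) d (MvPolynomial.map ι ρ) hd2 he'
        (le_trans Polynomial.natDegree_map_le hP) (le_trans Polynomial.natDegree_map_le hQ) hresK hρK
      obtain ⟨y, hyl, hyB⟩ := hK ⟨y₀, hyK⟩ (a 0) hy₀l B
      obtain ⟨ys, hys0, hyso⟩ := horb y hyl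
      have hK0 : ∀ i, (fun j => (Fin.cons (ys j) (x j) : Fin (n + 1) → k)) 0 i ∈ K := by
        intro i
        refine Fin.cases ?_ (fun i => ?_) i
        · simp only [Fin.cons_zero, hys0]; exact y.2
        · simp only [Fin.cons_succ, hx0]; exact hxK i
      obtain ⟨zK, hzKc, hzKo⟩ := orbDesc ι hι (f.cons P Q) _ hyso hK0
      have hzK : zK = fun j => (Fin.cons (zK j 0) (xK j) : Fin (n + 1) → K) := by
        funext j i
        refine Fin.cases ?_ (fun i => ?_) i
        · simp
        · apply Subtype.ext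
          rw [hzKc j i.succ]
          simp only [Fin.cons_succ]
          exact (hxKc j i).symm
      have hd' : Dns zK := by
        rw [hzK]
        refine hB (fun j => zK j 0) ?_ ?_
        · rw [RM.map_cons] at hzKo
          rw [hzK] at hzKo
          exact hzKo
        · have : zK 0 0 = y := by
            apply Subtype.ext
            rw [hzKc 0 0]
            simp only [Fin.cons_zero, hys0]
          simp only [this]
          exact hyB
      refine hdone y hyl ys hys0 hyso ?_
      have h4 := hDesc k K (n + 1) zK hd'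
      convert h4 using 3 with j i
      exact (hzKc j _).symm
    · -- relative degree one
      have hd1' : d = 1 := le_antisymm hd1 hd
      subst hd1'
      have hp0 : IsLocalRing.residue V (p : V) = 0 := by
        rw [map_natCast]
        exact CharP.cast_eq_zero _ p
      let Y : Fin 3 → k := fun i => y₀ + ((i : ℕ) : k) * (p : k)
      have hYl : ∀ i, Lies V (Y i) (a 0) := by
        intro i
        refine ⟨V.add_mem _ _ hy₀V (V.mul_mem _ _ (natCast_mem V _) (natCast_mem V _)), ?_⟩
        have : (⟨Y i, V.add_mem _ _ hy₀V (V.mul_mem _ _ (natCast_mem V _) (natCast_mem V _))⟩ : V) =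
            ⟨y₀, hy₀V⟩ + ((i : ℕ) : V) * (p : V) := by
          apply Subtype.ext
          simp [Y]
        rw [this, map_add, map_mul, hp0, mul_zero, add_zero, hy₀]
      choose ys hys0 hyso using fun i => horb (Y i) (hYl i)
      have hpk : (p : k) ≠ 0 := by
        exact_mod_cast (Fact.out : p.Prime).ne_zero
      have hne : ∀ i i', i ≠ i' → ys i 0 ≠ ys i' 0 := by
        intro i i' hi h
        rw [hys0, hys0] at h
        have h1 : ((i : ℕ) : k) * (p : k) = ((i' : ℕ) : k) * (p : k) := add_left_cancel h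
        have h2 := mul_right_cancel₀ hpk h1
        exact hi (Fin.ext (by exact_mod_cast h2))
      have hres1 := hresk R₀.subtype
      have hinv2 := hinv
      rw [hcm] at hinv2
      obtain ⟨i, hi⟩ := hMob k n (f.map R₀.subtype) x hxo hxd (P.map (MvPolynomial.map R₀.subtype))
        (Q.map (MvPolynomial.map R₀.subtype)) (MvPolynomial.map R₀.subtype ρ)
        (le_trans Polynomial.natDegree_map_le hP) (le_trans Polynomial.natDegree_map_le hQ) hres1
        hxρ ys (fun i => by rw [← hcm]; exact hyso i) hne hinv2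
      exact hdone (Y i) (hYl i) (ys i) (hys0 i) (hyso i) hi

end Pool.Agent.Lib.MP_16285c_ag
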