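import Pool.Agent.Lib.MP_16285c_ag.Spec

set_option autoImplicit false

namespace Pool.Agent.Lib.MP_16285c_ag

universe u

namespace LowAux

theorem ev_sum {K : Type u} [Field K] {n d : ℕ} (x : Fin n → K) (y : K) (G : TP K n)
    (hG : G.natDegree < d) :
    (ev x G).eval y = ∑ i : Fin d, MvPolynomial.eval x (G.coeff i) * y ^ (i : ℕ) := by
  rw [ev, Polynomial.eval_map, Polynomial.eval₂_eq_sum_range' _ hG,
    ← Fin.sum_univ_eq_sum_range (fun i => MvPolynomial.eval x (G.coeff i) * y ^ i)]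

theorem ev_id {K : Type u} [Field K] {n : ℕ} (x : Fin n → K) (y : K) (U V P Q W : TP K n)
    (h : U * P + V * Q = W) :
    (ev x U).eval y * (ev x P).eval y + (ev x V).eval y * (ev x Q).eval y = (ev x W).eval y := by
  rw [← h, ev, ev, ev, ev, ev, Polynomial.map_add, Polynomial.map_mul, Polynomial.map_mul,
    Polynomial.eval_add, Polynomial.eval_mul, Polynomial.eval_mul]

end LowAux

open LowAux in
theorem lowP (h1 : PowProp.{u}) (h2 : PolyProp.{u}) (h3 : VecProp.{u}) : LowProp.{u} := by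
  intro K _ _ n P Q d ρ hd hres
  obtain ⟨U₀, V₀, U₁, V₁, g1, g2, g3, g4, h5, h6⟩ := hres
  obtain ⟨d, rfl⟩ : ∃ d', d = d' + 1 := ⟨d - 1, by omega⟩
  choose C hC hCx using h2 K n
  let M : Fin 2 × (Fin (d + 1) × Fin 2) → MvPolynomial (Fin n) K := fun c =>
    if c.1 = 0 then (if c.2.2 = 0 then U₁.coeff c.2.1 else V₁.coeff c.2.1)
    else (if c.2.2 = 0 then U₀.coeff c.2.1 else V₀.coeff c.2.1)
  set T : ℝ := Height.totalWeight K * Real.log (Nat.card (Fin (d + 1) × Fin 2)) with hT
  have hT0 : (0 : ℝ) ≤ T := mul_nonneg (Nat.cast_nonneg _) (Real.log_natCast_nonneg _)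
  refine ⟨T + ∑ c, C (M c), add_nonneg hT0 (Finset.sum_nonneg fun c _ => hC _),
    fun x y z hρ hq hz => ?_⟩
  have hs : 0 ≤ ∑ i, Height.logHeight₁ (x i) :=
    Finset.sum_nonneg fun i _ => Height.zero_le_logHeight₁ _
  set p := (ev x P).eval y with hp
  set q := (ev x Q).eval y with hqdef
  have hzdiv : z = p / q := by
    rw [eq_div_iff hq]; exact hz
  -- the identity
  have i0 := ev_id x y U₀ V₀ P Q _ h5
  have i1 := ev_id x y U₁ V₁ P Q _ h6
  have hC0 : (ev x (Polynomial.C ρ : TP K n)).eval y = MvPolynomial.eval x ρ := by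
    rw [ev, Polynomial.map_C, Polynomial.eval_C]
  have hC1 : (ev x (Polynomial.C ρ * Polynomial.X ^ (2 * (d + 1) - 1) : TP K n)).eval y =
      MvPolynomial.eval x ρ * y ^ (2 * (d + 1) - 1) := by
    rw [ev, Polynomial.map_mul, Polynomial.map_C, Polynomial.map_pow, Polynomial.map_X,
      Polynomial.eval_mul, Polynomial.eval_C, Polynomial.eval_pow, Polynomial.eval_X]
  rw [hC0] at i0
  rw [hC1] at i1
  have hvec : MvPolynomial.eval x ρ • (![y ^ (2 * (d + 1) - 1), 1] : Fin 2 → K) =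
      fun c => ∑ i : Fin (d + 1) × Fin 2, MvPolynomial.eval x (M (c, i)) *
        (y ^ (i.1 : ℕ) * (![p, q] : Fin 2 → K) i.2) := by
    funext c
    rw [Fintype.sum_prod_type]
    simp only [Fin.sum_univ_two]
    fin_cases c
    · simp only [M, Pi.smul_apply, smul_eq_mul]
      simp only [Fin.zero_eta, Fin.isValue, Matrix.cons_val_zero, ↓reduceIte, one_ne_zero,
        Matrix.cons_val_one]
      rw [← i1, ev_sum x y U₁ g3, ev_sum x y V₁ g4, Finset.sum_mul, Finset.sum_mul,
        ← Finset.sum_add_distrib]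
      exact Finset.sum_congr rfl fun i _ => by ring
    · simp only [M, Pi.smul_apply, smul_eq_mul]
      simp only [Fin.mk_one, Fin.isValue, Matrix.cons_val_one, one_ne_zero, ↓reduceIte,
        Matrix.cons_val_zero, mul_one]
      rw [← i0, ev_sum x y U₀ g1, ev_sum x y V₀ g2, Finset.sum_mul, Finset.sum_mul,
        ← Finset.sum_add_distrib]
      exact Finset.sum_congr rfl fun i _ => by ring
  have h4 := Height.logHeight_linearMap_apply_le (K := K)
    (fun c : Fin 2 × (Fin (d + 1) × Fin 2) => MvPolynomial.eval x (M c))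
    (fun i : Fin (d + 1) × Fin 2 => y ^ (i.1 : ℕ) * (![p, q] : Fin 2 → K) i.2)
  rw [← hvec, Height.logHeight_smul_eq_logHeight _ hρ, ← Height.logHeight₁_eq_logHeight,
    Height.logHeight₁_pow] at h4
  have hne1 : (fun i : Fin (d + 1) => y ^ (i : ℕ)) ≠ 0 := by
    intro h
    have := congrFun h 0
    simp at this
  have hne2 : (![p, q] : Fin 2 → K) ≠ 0 := by
    intro h
    have := congrFun h 1
    exact hq (by simpa using this)
  have h7 := Height.logHeight_fun_mul_eq hne1 hne2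
  rw [h7, h1 K y d, ← Height.logHeight₁_div_eq_logHeight, ← hzdiv] at h4
  have h8 := h3 K (Fin 2 × (Fin (d + 1) × Fin 2)) (fun c => MvPolynomial.eval x (M c))
  have h9 : ∑ c : Fin 2 × (Fin (d + 1) × Fin 2), Height.logHeight₁ (MvPolynomial.eval x (M c)) ≤
      (∑ c, C (M c)) * (1 + ∑ i, Height.logHeight₁ (x i)) := by
    rw [Finset.sum_mul]
    exact Finset.sum_le_sum fun c _ => hCx (M c) x
  have h10 : ((2 * (d + 1) - 1 : ℕ) : ℝ) = 2 * (d : ℝ) + 1 := by
    have : 2 * (d + 1) - 1 = 2 * d + 1 := by omega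
    rw [this]; push_cast; ring
  rw [h10] at h4
  push_cast
  nlinarith [mul_nonneg hT0 hs]

end Pool.Agent.Lib.MP_16285c_ag
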