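import Pool.Agent.Lib.MP_16285c_ag.LiftAll

set_option autoImplicit false

namespace Pool.Agent.Lib.MP_16285c_ag

universe u

/-- A field has the supply of heights for all places of residue characteristic `p`. -/
theorem supply_all (hNum : SupplyNumProp.{u}) (hFun : SupplyFunProp.{u}) (k : Type u) [Field k]
    [IsAlgClosed k] [CharZero k] (V : ValuationSubring k) (p : ℕ) [Fact p.Prime]
    [CharP (IsLocalRing.ResidueField V) p] : Supply k V := by
  by_cases h : Algebra.IsAlgebraic ℚ k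
  · exact hNum k V p
  · exact hFun k h V p

theorem mainTower (hMap : MapProp.{u}) (hSpread : SpreadProp.{u}) (hPlace : PlaceProp.{u})
    (hClosed : ClosedProp.{u}) (hFrob : FrobProp.{u}) (hLift : LiftProp.{u}) (hMob : MobProp.{u})
    (hInvTail : InvTailProp.{u}) (hFast : FastProp.{u}) (hDesc : DescProp.{u})
    (hNum : SupplyNumProp.{u}) (hFun : SupplyFunProp.{u})
    (k : Type u) [Field k] [IsAlgClosed k] [CharZero k] (N : ℕ) (f : RM k N) (e : Fin N → ℕ)
    (β : MvPolynomial (Fin N) k) (hT : Tower k N f e β) (hinv : f.NoInv)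
    (b : MvPolynomial (Fin N) k) (hb : b ≠ 0) :
    ∃ x : ℕ → Fin N → k, f.Orb x ∧ (∀ j, MvPolynomial.eval (x j) b ≠ 0) ∧ Dns x := by
  classical
  obtain ⟨S, hS⟩ := hSpread k N f e β hT b
  have hSub : (S : Set k) ⊆ Subring.closure (S : Set k) := Subring.subset_closure
  have hPl := fun S₂ => hPlace k S S₂
  generalize hR₀ : Subring.closure (S : Set k) = R₀ at hSub hPl
  obtain ⟨f₀, β₀, b₀, hT₀, hf₀, hβ₀, hb₀⟩ := hS R₀ hSub
  obtain ⟨S₂, h0, hmap⟩ := hMap R₀ N f₀ e β₀ hT₀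
  have hβ0 : β₀ ≠ 0 := hT₀.bad_ne_zero
  have hb0 : b₀ ≠ 0 := by
    rintro rfl
    exact hb (by rw [← hb₀, map_zero])
  obtain ⟨m, hm⟩ := MvPolynomial.ne_zero_iff.1 (mul_ne_zero hb0 hβ0)
  obtain ⟨V, hR, p, s₀, hp, hs₀, hchar, hfix₀, hne⟩ := hPl
    (insert ((MvPolynomial.coeff m (b₀ * β₀) : R₀) : k) (S₂.image (fun r : R₀ => (r : k))))
    (by
      intro h
      rw [Finset.mem_insert, Finset.mem_image] at h
      rcases h with h | ⟨r, hr, hr0⟩
      · exact hm (Subtype.ext h.symm)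
      · exact h0 (by
          have : r = 0 := Subtype.ext hr0
          rw [← this]; exact hr))
    (by
      intro z hz
      rw [Finset.mem_coe, Finset.mem_insert, Finset.mem_image] at hz
      rcases hz with rfl | ⟨r, hr, rfl⟩
      · exact SetLike.coe_mem _
      · exact SetLike.coe_mem _)
  have : Fact p.Prime := ⟨hp⟩
  have := hchar
  have := hClosed k V
  set ψ := red V R₀ hR with hψ
  have hTκ : Tower (IsLocalRing.ResidueField V) N (f₀.map ψ) e (MvPolynomial.map ψ β₀) := by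
    refine hmap _ ψ (fun s hs => hne s ?_)
    rw [Finset.mem_insert, Finset.mem_image]
    exact Or.inr ⟨s, hs, rfl⟩
  have hbκ : MvPolynomial.map ψ (b₀ * β₀) ≠ 0 := by
    intro h
    have h1 := congrArg (MvPolynomial.coeff m) h
    rw [MvPolynomial.coeff_map, MvPolynomial.coeff_zero] at h1
    refine hne (MvPolynomial.coeff m (b₀ * β₀)) ?_ h1
    rw [Finset.mem_insert]
    exact Or.inl rfl
  obtain ⟨B, hB⟩ := hFrob _ p N _ e _ hTκ _ hbκ
  have hpow : ∀ t : ℕ, ∀ r, ψ r ^ (p ^ (s₀ * t)) = ψ r := by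
    intro t r
    induction t with
    | zero => simp
    | succ t ih => rw [Nat.mul_succ, pow_add, pow_mul, ih, hfix₀]
  have hBle : B ≤ p ^ (s₀ * (B + 1)) := by
    have h1 : B < 2 ^ B := Nat.lt_two_pow_self
    have h2 : 2 ^ B ≤ p ^ B := Nat.pow_le_pow_left hp.two_le B
    have h3 : p ^ B ≤ p ^ (s₀ * (B + 1)) := by
      refine Nat.pow_le_pow_right hp.pos ?_
      nlinarith
    omega
  have hs1 : 1 ≤ s₀ * (B + 1) := Nat.mul_pos hs₀ (Nat.succ_pos B)
  obtain ⟨a, ha, hab⟩ := hB _ hs1 hBle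
  rw [map_mul, map_mul] at hab
  have hgen : ∀ K : Subfield k, (S : Set k) ⊆ K → ∀ r ∈ R₀, r ∈ K := by
    intro K hK r hr
    rw [← hR₀] at hr
    have : Subring.closure (S : Set k) ≤ K.toSubring := Subring.closure_le.2 hK
    exact this hr
  obtain ⟨x₀, hx₀, hd⟩ := liftAll hLift hMap hMob hInvTail hFast hDesc k V R₀ S hgen hR p
    (s₀ * (B + 1)) (hpow (B + 1)) (supply_all hNum hFun k V p) N f₀ e β₀ hT₀ a ha
    (right_ne_zero_of_mul hab) (by rw [hf₀]; exact hinv)
  obtain ⟨x, hx0, hxo, -, hxG⟩ := hLift k V R₀ hR p (s₀ * (B + 1)) (hpow (B + 1)) N f₀ a ha x₀ hx₀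
  refine ⟨x, by rw [← hf₀]; exact hxo, fun j => ?_, hd x hx0 hxo⟩
  rw [← hb₀]
  exact hxG b₀ (left_ne_zero_of_mul hab) j

end Pool.Agent.Lib.MP_16285c_ag
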