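import Pool.Agent.Lib.MP_16285c_ag.Spec

/-!
# A tower may be mapped by a homomorphism (helper91)
-/

set_option autoImplicit false

namespace Pool.Agent.Lib.MP_16285c_ag

universe u

namespace MapAux

theorem wr_map {R S : Type u} [CommRing R] [CommRing S] (φ : R →+* S) (P Q : Polynomial R) :
    Wr (P.map φ) (Q.map φ) = (Wr P Q).map φ := by
  unfold Wr
  rw [Polynomial.derivative_map, Polynomial.derivative_map, Polynomial.map_sub,
    Polynomial.map_mul, Polynomial.map_mul]

theorem res_map {R S : Type u} [CommRing R] [CommRing S] {n : ℕ} (φ : R →+* S) (P Q : TP R n)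
    (d : ℕ) (ρ : MvPolynomial (Fin n) R) (h : ResId P Q d ρ) :
    ResId (P.map (MvPolynomial.map φ)) (Q.map (MvPolynomial.map φ)) d (MvPolynomial.map φ ρ) := by
  obtain ⟨U₀, V₀, U₁, V₁, h1, h2, h3, h4, h5, h6⟩ := h
  refine ⟨U₀.map (MvPolynomial.map φ), V₀.map (MvPolynomial.map φ), U₁.map (MvPolynomial.map φ),
    V₁.map (MvPolynomial.map φ), lt_of_le_of_lt Polynomial.natDegree_map_le h1,
    lt_of_le_of_lt Polynomial.natDegree_map_le h2, lt_of_le_of_lt Polynomial.natDegree_map_le h3,
    lt_of_le_of_lt Polynomial.natDegree_map_le h4, ?_, ?_⟩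
  · rw [← Polynomial.map_mul, ← Polynomial.map_mul, ← Polynomial.map_add, h5, Polynomial.map_C]
  · rw [← Polynomial.map_mul, ← Polynomial.map_mul, ← Polynomial.map_add, h6, Polynomial.map_mul,
      Polynomial.map_C, Polynomial.map_pow, Polynomial.map_X]

theorem map_ne_zero {R S : Type u} [CommRing R] [CommRing S] {n : ℕ} (φ : R →+* S)
    (ρ : MvPolynomial (Fin n) R) (m : Fin n →₀ ℕ) (h : φ (ρ.coeff m) ≠ 0) :
    MvPolynomial.map φ ρ ≠ 0 := by
  intro h0
  apply h
  rw [← MvPolynomial.coeff_map, h0, MvPolynomial.coeff_zero]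

end MapAux

open MapAux in
/-- (A1) -/
theorem mapP : MapProp.{u} := by
  intro R _ _ n f e β h
  induction h with
  | nil f e =>
    refine ⟨∅, Finset.notMem_empty _, fun R' _ _ φ _ => ?_⟩
    rw [map_one]
    exact Tower.nil _ _
  | cons P Q d ρ hf hd hP hQ hρ hW hres he ih =>
    obtain ⟨S, h0, hS⟩ := ih
    obtain ⟨m, hm⟩ := MvPolynomial.ne_zero_iff.1 hρ
    obtain ⟨j, hj⟩ : ∃ j, (Wr P Q).coeff j ≠ 0 := by
      by_contra hno
      apply hW
      ext1 j
      rw [Polynomial.coeff_zero]
      by_contra hj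
      exact hno ⟨j, hj⟩
    obtain ⟨m', hm'⟩ := MvPolynomial.ne_zero_iff.1 hj
    classical
    refine ⟨insert (ρ.coeff m) (insert (((Wr P Q).coeff j).coeff m') S), ?_, ?_⟩
    · rw [Finset.mem_insert, Finset.mem_insert]
      rintro (h1 | h1 | h1)
      · exact hm h1.symm
      · exact hm' h1.symm
      · exact h0 h1
    · intro R' _ _ φ hφ
      have e1 := hS R' φ fun s hs =>
        hφ s (Finset.mem_insert_of_mem (Finset.mem_insert_of_mem hs))
      have e2 := hφ _ (Finset.mem_insert_self _ _)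
      have e3 := hφ _ (Finset.mem_insert_of_mem (Finset.mem_insert_self _ _))
      rw [RM.map_cons, MvPolynomial.map_rename, map_mul]
      refine Tower.cons _ _ d (MvPolynomial.map φ ρ) e1 hd
        (Polynomial.natDegree_map_le.trans hP) (Polynomial.natDegree_map_le.trans hQ)
        (map_ne_zero φ ρ m e2) ?_ (res_map φ P Q d ρ hres) he
      rw [wr_map]
      intro h1
      have h2 : ((Wr P Q).map (MvPolynomial.map φ)).coeff j = 0 := by
        rw [h1, Polynomial.coeff_zero]
      rw [Polynomial.coeff_map] at h2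
      exact map_ne_zero φ _ m' e3 h2

end Pool.Agent.Lib.MP_16285c_ag
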