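import Pool.Agent.Lib.MP_16285c_ag.Spec

/-!
# (B4): the minimal polynomial of three non-dense orbits
-/

set_option autoImplicit false

namespace Pool.Agent.Lib.MP_16285c_ag

universe u

open Polynomial

namespace MinL

/-- Clearing denominators. -/
theorem clear {R : Type u} [CommRing R] [IsDomain R] (A : (FractionRing R)[X]) :
    ∃ (c : R) (A' : R[X]), c ≠ 0 ∧ A'.map (algebraMap R (FractionRing R)) =
      C (algebraMap R (FractionRing R) c) * A := by
  obtain ⟨b, hbm, hb⟩ := IsLocalization.integerNormalization_spec (nonZeroDivisors R) A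
  refine ⟨b, IsLocalization.integerNormalization (nonZeroDivisors R) A,
    nonZeroDivisors.ne_zero hbm, ?_⟩
  rw [hb, ← algebraMap_smul (FractionRing R) (b : R) A, smul_eq_C_mul]

/-- The abstract form: `J` a set of polynomials defined by ring homomorphisms to a field. -/
theorem main {R : Type u} [CommRing R] [IsDomain R] [CharZero R] {ι F : Type u} [Field F]
    (e : ι → R[X] →+* F) (hne : ∃ G : R[X], G ≠ 0 ∧ ∀ i, e i G = 0) :
    ∃ G : R[X], G ≠ 0 ∧ (∀ i, e i G = 0) ∧
      (∀ H : R[X], (∀ i, e i H = 0) → G.map (algebraMap R (FractionRing R)) ∣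
        H.map (algebraMap R (FractionRing R))) ∧
      IsCoprime (G.map (algebraMap R (FractionRing R)))
        (derivative (G.map (algebraMap R (FractionRing R)))) := by
  classical
  have hex : ∃ m : ℕ, ∃ G : R[X], (G ≠ 0 ∧ ∀ i, e i G = 0) ∧ G.natDegree = m := by
    obtain ⟨G, hG⟩ := hne
    exact ⟨_, G, hG, rfl⟩
  obtain ⟨G, ⟨hG0, hG⟩, hGd⟩ := Nat.find_spec hex
  have hmin : ∀ H : R[X], H ≠ 0 → (∀ i, e i H = 0) → G.natDegree ≤ H.natDegree := by
    intro H hH0 hH
    rw [hGd]
    exact Nat.find_min' hex ⟨H, ⟨hH0, hH⟩, rfl⟩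
  have hinj : Function.Injective (algebraMap R (FractionRing R)) := IsFractionRing.injective _ _
  have hminj := Polynomial.map_injective _ hinj
  have hGK : G.map (algebraMap R (FractionRing R)) ≠ 0 := by
    intro h
    rw [← Polynomial.map_zero (algebraMap R (FractionRing R))] at h
    exact hG0 (hminj h)
  have hdeg : ∀ A : R[X], (A.map (algebraMap R (FractionRing R))).natDegree = A.natDegree :=
    fun A => natDegree_map_eq_of_injective hinj A
  have : CharZero (FractionRing R) := charZero_of_injective_algebraMap hinj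
  have hac : ∀ c : R, c ≠ 0 → algebraMap R (FractionRing R) c ≠ 0 := by
    intro c hc
    rwa [Ne, map_eq_zero_iff _ hinj]
  refine ⟨G, hG0, hG, ?_, ?_⟩
  · intro H hH
    by_contra hdvd
    set GK := G.map (algebraMap R (FractionRing R)) with hGKdef
    set HK := H.map (algebraMap R (FractionRing R)) with hHKdef
    have hT : HK % GK ≠ 0 := fun h => hdvd (EuclideanDomain.mod_eq_zero.1 h)
    obtain ⟨c, T', hc, hT'⟩ := clear (HK % GK)
    obtain ⟨d, S', hd, hS'⟩ := clear (HK / GK)
    have hid : C (c * d) * H - G * (C c * S') = C d * T' := by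
      apply hminj
      rw [Polynomial.map_sub, Polynomial.map_mul, Polynomial.map_mul, Polynomial.map_mul,
        Polynomial.map_mul, hT', hS', map_C, map_C, map_C, map_mul, C_mul, ← hGKdef, ← hHKdef]
      have := EuclideanDomain.div_add_mod HK GK
      linear_combination (-(C (algebraMap R (FractionRing R) c) *
        C (algebraMap R (FractionRing R) d))) * this
    have hmem : ∀ i, e i (C d * T') = 0 := by
      intro i
      rw [← hid, map_sub, map_mul (e i) (C (c * d)) H, map_mul (e i) G, hH, hG, mul_zero, zero_mul, sub_zero]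
    have hT'0 : T' ≠ 0 := by
      intro h
      rw [h, Polynomial.map_zero] at hT'
      exact mul_ne_zero (C_ne_zero.2 (hac c hc)) hT hT'.symm
    have h1 := hmin _ (mul_ne_zero (C_ne_zero.2 hd) hT'0) hmem
    have h2 : (C d * T').natDegree < G.natDegree := by
      rw [natDegree_C_mul hd, ← hdeg T', hT', natDegree_C_mul (hac c hc), ← hdeg G]
      apply natDegree_lt_natDegree hT
      exact EuclideanDomain.mod_lt HK hGK
    omega
  · have hsq : Squarefree (G.map (algebraMap R (FractionRing R))) := by
      intro A hA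
      by_contra hu
      obtain ⟨B, hB⟩ := hA
      have hA0 : A ≠ 0 := by
        rintro rfl
        rw [zero_mul, zero_mul] at hB
        exact hGK hB
      have hB0 : B ≠ 0 := by
        rintro rfl
        rw [mul_zero] at hB
        exact hGK hB
      obtain ⟨a, A', ha, hA'⟩ := clear A
      obtain ⟨b, B', hb, hB'⟩ := clear B
      have hid : A' * A' * B' = C (a * a * b) * G := by
        apply hminj
        rw [Polynomial.map_mul, Polynomial.map_mul, Polynomial.map_mul, hA', hB', map_C,
          map_mul (algebraMap R (FractionRing R)), map_mul (algebraMap R (FractionRing R)), C_mul,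
          C_mul, hB]
        ring
      have hA'0 : A' ≠ 0 := by
        intro h
        rw [h, Polynomial.map_zero] at hA'
        exact mul_ne_zero (C_ne_zero.2 (hac a ha)) hA0 hA'.symm
      have hB'0 : B' ≠ 0 := by
        intro h
        rw [h, Polynomial.map_zero] at hB'
        exact mul_ne_zero (C_ne_zero.2 (hac b hb)) hB0 hB'.symm
      have hmem : ∀ i, e i (A' * B') = 0 := by
        intro i
        have h1 := congrArg (e i) hid
        rw [map_mul, map_mul, map_mul, hG, mul_zero] at h1
        rw [map_mul]
        rcases mul_eq_zero.1 h1 with h2 | h2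
        · rcases mul_eq_zero.1 h2 with h3 | h3
          · rw [h3, zero_mul]
          · rw [h3, zero_mul]
        · rw [h2, mul_zero]
      have h1 := hmin _ (mul_ne_zero hA'0 hB'0) hmem
      have h2 := congrArg natDegree hid
      rw [natDegree_C_mul (mul_ne_zero (mul_ne_zero ha ha) hb),
        natDegree_mul (mul_ne_zero hA'0 hA'0) hB'0, natDegree_mul hA'0 hA'0] at h2
      rw [natDegree_mul hA'0 hB'0] at h1
      have h3 : A'.natDegree = 0 := by omega
      have h4 : A.natDegree = 0 := by
        rw [← hdeg A', hA', natDegree_C_mul (hac a ha)] at h3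
        exact h3
      apply hu
      rw [eq_C_of_natDegree_eq_zero h4] at hA0 ⊢
      exact isUnit_C.2 (isUnit_iff_ne_zero.2 (C_ne_zero.1 hA0))
    exact PerfectField.separable_iff_squarefree.2 hsq

end MinL

open MinL in
theorem minP : MinProp.{u} := by
  classical
  intro k _ _ n x hx y hy hnd
  let e : ULift.{u} (Fin 3 × ℕ) → TP k n →+* k := fun p =>
    (evalRingHom (y p.down.1 p.down.2)).comp (mapRingHom (MvPolynomial.eval (x p.down.2)))
  have he : ∀ (i : Fin 3) (j : ℕ) (H : TP k n), e ⟨(i, j)⟩ H = (ev (x j) H).eval (y i j) :=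
    fun i j H => rfl
  have hne : ∃ G : TP k n, G ≠ 0 ∧ ∀ i, e i G = 0 := by
    have h1 : ∀ i : Fin 3, ∃ G : TP k n, G ≠ 0 ∧ ∀ j, (ev (x j) G).eval (y i j) = 0 := by
      intro i
      have h2 := hnd i
      unfold Dns at h2
      push Not at h2
      obtain ⟨G, hG0, hG⟩ := h2
      obtain ⟨H, rfl⟩ := up_surjective G
      refine ⟨H, ?_, ?_⟩
      · rintro rfl
        exact hG0 (map_zero _)
      · intro j
        rw [← eval_up]
        exact hG j
    choose G hG0 hG using h1
    refine ⟨∏ i, G i, Finset.prod_ne_zero_iff.2 fun i _ => hG0 i, ?_⟩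
    rintro ⟨i, j⟩
    rw [map_prod]
    exact Finset.prod_eq_zero (Finset.mem_univ i) (by rw [he]; exact hG i j)
  obtain ⟨G, hG0, hG, hdvd, hcop⟩ := main e hne
  refine ⟨G, fun i j => by rw [← he]; exact hG _, ?_, ?_, hcop⟩
  · obtain ⟨j, hj⟩ := hx G.leadingCoeff (leadingCoeff_ne_zero.2 hG0)
    have hdeg : (ev (x j) G).natDegree = G.natDegree :=
      natDegree_map_of_leadingCoeff_ne_zero _ hj
    have hne0 : ev (x j) G ≠ 0 := by
      intro h
      have h1 : (ev (x j) G).coeff G.natDegree = 0 := by rw [h, coeff_zero]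
      rw [ev, coeff_map] at h1
      exact hj h1
    have hinj : Function.Injective fun i => y i j := by
      intro i i' h
      by_contra hii
      exact hy j i i' hii h
    have hsub : (Finset.univ.image fun i => y i j).val ⊆ (ev (x j) G).roots := by
      intro z hz
      rw [Finset.mem_val, Finset.mem_image] at hz
      obtain ⟨i, _, rfl⟩ := hz
      rw [mem_roots hne0, IsRoot.def, ← he]
      exact hG _
    have := card_le_degree_of_subset_roots hsub
    rw [Finset.card_image_of_injective _ hinj, Finset.card_univ, Fintype.card_fin, hdeg] at this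
    exact this
  · intro H hH
    apply hdvd
    rintro ⟨i, j⟩
    rw [he]
    exact hH i j

end Pool.Agent.Lib.MP_16285c_ag
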