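import Pool.Agent.Lib.MP_16285c_ag.Spec

/-!
# (B9): relative degree one: three non-dense orbits give an invariant
-/

set_option autoImplicit false

namespace Pool.Agent.Lib.MP_16285c_ag

universe u

open Polynomial

namespace MobAux

/-- The embedding of fraction fields induced by `rename Fin.succ`. -/
noncomputable def iot (k : Type u) [Field k] (n : ℕ) :
    FractionRing (MvPolynomial (Fin n) k) →+* FractionRing (MvPolynomial (Fin (n + 1)) k) :=
  IsFractionRing.map (j := (MvPolynomial.rename (R := k) (Fin.succ : Fin n → Fin (n + 1))).toRingHom)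
    rename_succ_injective

theorem iot_algebraMap (k : Type u) [Field k] (n : ℕ) (A : MvPolynomial (Fin n) k) :
    iot k n (algebraMap _ _ A) = algebraMap _ _ (MvPolynomial.rename Fin.succ A) := by
  rw [iot, IsFractionRing.map, IsLocalization.map_eq]
  rfl

theorem comp_X (k : Type u) [Field k] (n : ℕ) (f : RM k n) (i : Fin n) :
    f.comp (MvPolynomial.X i) = algebraMap _ _ (f.num i) / algebraMap _ _ (f.den i) := by
  rw [RM.comp, MvPolynomial.aeval_X]

theorem comp_C (k : Type u) [Field k] (n : ℕ) (f : RM k n) (a : k) :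
    f.comp (MvPolynomial.C a) = algebraMap _ _ (MvPolynomial.C a : MvPolynomial (Fin n) k) := by
  rw [RM.comp, MvPolynomial.aeval_C, IsScalarTower.algebraMap_apply k (MvPolynomial (Fin n) k)]
  rfl

theorem comp_rename (k : Type u) [Field k] (n : ℕ) (f : RM k n) (P Q : TP k n)
    (A : MvPolynomial (Fin n) k) :
    (f.cons P Q).comp (MvPolynomial.rename Fin.succ A) = iot k n (f.comp A) := by
  induction A using MvPolynomial.induction_on with
  | C a => rw [MvPolynomial.rename_C, comp_C, comp_C, iot_algebraMap, MvPolynomial.rename_C]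
  | add p q hp hq => rw [map_add, map_add, map_add, map_add, hp, hq]
  | mul_X p i hp =>
    rw [map_mul, map_mul, map_mul, map_mul, hp, MvPolynomial.rename_X, comp_X, comp_X, map_div₀,
      iot_algebraMap, iot_algebraMap, RM.cons_num_succ, RM.cons_den_succ]

theorem eval_Y (k : Type u) [Field k] (n : ℕ) (H : TP k n) :
    (H.map (algebraMap _ (FractionRing (MvPolynomial (Fin n) k)))).eval₂ (iot k n)
      (algebraMap (MvPolynomial (Fin (n + 1)) k) (FractionRing (MvPolynomial (Fin (n + 1)) k))
        (MvPolynomial.X 0)) =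
      algebraMap (MvPolynomial (Fin (n + 1)) k) (FractionRing (MvPolynomial (Fin (n + 1)) k))
        (up H) := by
  induction H using Polynomial.induction_on' with
  | add p q hp hq => rw [up_add, map_add, Polynomial.map_add, eval₂_add, hp, hq]
  | monomial m a =>
    rw [← C_mul_X_pow_eq_monomial, up_mul, up_pow, up_C, up_X, Polynomial.map_mul,
      Polynomial.map_pow, Polynomial.map_X, Polynomial.map_C, eval₂_mul, eval₂_C, eval₂_pow,
      eval₂_X, iot_algebraMap, map_mul, map_pow]

theorem eval_y (k : Type u) [Field k] (n : ℕ) (f : RM k n) (P Q H : TP k n) :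
    (H.map (f.comp : MvPolynomial (Fin n) k →+* FractionRing (MvPolynomial (Fin n) k))).eval₂
      (iot k n)
      (algebraMap (MvPolynomial (Fin (n + 1)) k) (FractionRing (MvPolynomial (Fin (n + 1)) k))
        (up P) / algebraMap (MvPolynomial (Fin (n + 1)) k)
          (FractionRing (MvPolynomial (Fin (n + 1)) k)) (up Q)) =
      (f.cons P Q).comp (up H) := by
  induction H using Polynomial.induction_on' with
  | add p q hp hq => rw [up_add, map_add, Polynomial.map_add, eval₂_add, hp, hq]
  | monomial m a =>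
    rw [← C_mul_X_pow_eq_monomial, up_mul, up_pow, up_C, up_X, Polynomial.map_mul,
      Polynomial.map_pow, Polynomial.map_X, Polynomial.map_C, eval₂_mul, eval₂_C, eval₂_pow,
      eval₂_X, map_mul, map_pow, comp_rename, comp_X, RM.cons_num_zero, RM.cons_den_zero]
    rfl

theorem map_hs {A B : Type u} [CommRing A] [CommRing B] (φ : A →+* B) (m : ℕ) (G : A[X]) :
    (hs m G).map φ = hs m (G.map φ) := by
  simp [hs, derivative_map]

theorem map_tc {A B : Type u} [CommRing A] [CommRing B] (φ : A →+* B) (m : ℕ) (G : A[X]) :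
    (tc m G).map φ = tc m (G.map φ) := by
  rw [tc, tc, ← map_hs φ]
  simp [derivative_map]

theorem eval_lin (k : Type u) [Field k] (n : ℕ) (P : TP k n) (hP : P.natDegree ≤ 1)
    (x : Fin n → k) (y : k) :
    (ev x P).eval y = MvPolynomial.eval x (P.coeff 1) * y + MvPolynomial.eval x (P.coeff 0) := by
  conv_lhs => rw [eq_X_add_C_of_natDegree_le_one hP]
  simp [ev]

theorem lin_map (k : Type u) [Field k] (n : ℕ) (P : TP k n) (hP : P.natDegree ≤ 1) :
    C (algebraMap _ (FractionRing (MvPolynomial (Fin n) k)) (P.coeff 1)) * X +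
      C (algebraMap _ (FractionRing (MvPolynomial (Fin n) k)) (P.coeff 0)) =
    P.map (algebraMap _ (FractionRing (MvPolynomial (Fin n) k))) := by
  conv_rhs => rw [eq_X_add_C_of_natDegree_le_one hP]
  simp

end MobAux

open MobAux in
theorem mobP (_hI : InjProp.{u}) (hM : MinProp.{u}) (hD : DetProp.{u}) (hS : SemiProp.{u})
    (hH : HessProp.{u}) (hN : NonconstProp.{u}) : MobProp.{u} := by
  intro k _ _ n f x hx hd P Q ρ hP hQ hres hρ y hy hy0 hno
  by_contra hcon
  push Not at hcon
  obtain ⟨Δ, hΔ⟩ := hD k n P Q ρ hP hQ hres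
  have hDx : ∀ j, MvPolynomial.eval (x j) (P.coeff 1 * Q.coeff 0 - P.coeff 0 * Q.coeff 1) ≠ 0 := by
    intro j h0
    have h1 := congrArg (MvPolynomial.eval (x j)) hΔ
    rw [map_pow, map_mul, h0, zero_mul] at h1
    exact hρ j (pow_eq_zero_iff (by norm_num) |>.1 h1)
  have horb := fun i => (f.orb_cons P Q x (y i)).1 (hy i)
  -- the points are distinct
  have hdist : ∀ j i i', i ≠ i' → y i j ≠ y i' j := by
    intro j
    induction j with
    | zero => exact hy0
    | succ j ih =>
      intro i i' hii heq
      have h1 := (horb i).2 j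
      have h2 := (horb i').2 j
      have h3 := hDx j
      rw [eval_lin k n P hP, eval_lin k n Q hQ] at h1 h2
      rw [map_sub, map_mul, map_mul] at h3
      apply mul_ne_zero h3 (sub_ne_zero.2 (ih i i' hii))
      rw [heq] at h1
      linear_combination (MvPolynomial.eval (x j) (Q.coeff 1) * y i j +
        MvPolynomial.eval (x j) (Q.coeff 0)) * h2.2 -
        (MvPolynomial.eval (x j) (Q.coeff 1) * y i' j +
        MvPolynomial.eval (x j) (Q.coeff 0)) * h1.2
  obtain ⟨G, hG, hG3, hGd, hGc⟩ := hM k n x hd y hdist hcon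
  obtain ⟨w, hw, hsum⟩ := hS k n f x hx hd P Q ρ hP hQ hres hρ y hy G hG hG3 hGd
  have hinj : Function.Injective (algebraMap (MvPolynomial (Fin n) k)
    (FractionRing (MvPolynomial (Fin n) k))) := IsFractionRing.injective _ _
  have hinj' : Function.Injective (algebraMap (MvPolynomial (Fin (n + 1)) k)
    (FractionRing (MvPolynomial (Fin (n + 1)) k))) := IsFractionRing.injective _ _
  have : CharZero (FractionRing (MvPolynomial (Fin n) k)) := charZero_of_injective_algebraMap hinj
  have hdeg : (G.map (algebraMap _ (FractionRing (MvPolynomial (Fin n) k)))).natDegree =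
      G.natDegree := natDegree_map_eq_of_injective hinj G
  obtain ⟨hh0, hconst⟩ := hN _ (G.map (algebraMap _ (FractionRing (MvPolynomial (Fin n) k))))
    (by rw [hdeg]; exact hG3) hGc
  rw [hdeg] at hh0 hconst
  have hD0 : P.coeff 1 * Q.coeff 0 - P.coeff 0 * Q.coeff 1 ≠ 0 := by
    intro h0
    apply hDx 0
    rw [h0, map_zero]
  have hQ0 : Q ≠ 0 := by
    rintro rfl
    apply hD0
    rw [coeff_zero, coeff_zero, mul_zero, mul_zero, sub_zero]
  have hupQ : algebraMap (MvPolynomial (Fin (n + 1)) k)
      (FractionRing (MvPolynomial (Fin (n + 1)) k)) (up Q) ≠ 0 := by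
    rw [Ne, map_eq_zero_iff _ hinj']
    intro h0
    apply hQ0
    apply up_injective
    rw [h0]
    exact (map_zero _).symm
  let _ : Algebra (FractionRing (MvPolynomial (Fin n) k))
    (FractionRing (MvPolynomial (Fin (n + 1)) k)) := (iot k n).toAlgebra
  have hlin : ∀ T : TP k n, T.natDegree ≤ 1 →
      iot k n (algebraMap _ _ (T.coeff 1)) *
        algebraMap (MvPolynomial (Fin (n + 1)) k) (FractionRing (MvPolynomial (Fin (n + 1)) k))
        (MvPolynomial.X 0) + iot k n (algebraMap _ _ (T.coeff 0)) =
      algebraMap (MvPolynomial (Fin (n + 1)) k) (FractionRing (MvPolynomial (Fin (n + 1)) k))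
        (up T) := by
    intro T hT
    rw [← eval_Y, ← lin_map k n T hT]
    simp
  have key := hH (FractionRing (MvPolynomial (Fin n) k))
    (FractionRing (MvPolynomial (Fin (n + 1)) k)) G.natDegree
    (G.map (algebraMap _ (FractionRing (MvPolynomial (Fin n) k))))
    (G.map (f.comp : MvPolynomial (Fin n) k →+* FractionRing (MvPolynomial (Fin n) k)))
    (algebraMap _ _ (P.coeff 1)) (algebraMap _ _ (P.coeff 0))
    (algebraMap _ _ (Q.coeff 1)) (algebraMap _ _ (Q.coeff 0)) w hG3 hdeg.le natDegree_map_le
    (by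
      rw [← map_mul, ← map_mul, ← map_sub, Ne, map_eq_zero_iff _ hinj]
      exact hD0)
    hw (by
      rw [← hsum]
      refine Finset.sum_congr rfl fun i _ => ?_
      rw [lin_map k n P hP, lin_map k n Q hQ, coeff_map]
      rfl)
    (algebraMap (MvPolynomial (Fin (n + 1)) k) (FractionRing (MvPolynomial (Fin (n + 1)) k))
        (MvPolynomial.X 0)) (by
      have := hlin Q hQ
      intro h0
      apply hupQ
      rw [← this]
      exact h0)
    (algebraMap (MvPolynomial (Fin (n + 1)) k) (FractionRing (MvPolynomial (Fin (n + 1)) k))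
        (up P) / algebraMap (MvPolynomial (Fin (n + 1)) k)
          (FractionRing (MvPolynomial (Fin (n + 1)) k)) (up Q)) (by
      have h1 := hlin Q hQ
      have h2 := hlin P hP
      change _ * (iot k n (algebraMap _ _ (Q.coeff 1)) * _ +
        iot k n (algebraMap _ _ (Q.coeff 0))) = iot k n (algebraMap _ _ (P.coeff 1)) * _ +
        iot k n (algebraMap _ _ (P.coeff 0))
      rw [h1, h2]
      exact div_mul_cancel₀ _ hupQ)
  rw [← map_tc, ← map_hs, ← map_tc, ← map_hs, aeval_def, aeval_def, aeval_def, aeval_def] at key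
  change eval₂ (iot k n) _ _ ^ 2 * eval₂ (iot k n) _ _ ^ 3 =
    eval₂ (iot k n) _ _ ^ 2 * eval₂ (iot k n) _ _ ^ 3 at key
  rw [eval_Y, eval_Y, eval_y, eval_y] at key
  have hB : up (hs G.natDegree G ^ 3) ≠ 0 := by
    intro h0
    have h1 : hs G.natDegree G ^ 3 = 0 := by
      apply up_injective
      rw [h0]
      exact (map_zero _).symm
    have h2 : hs G.natDegree G = 0 := pow_eq_zero_iff (by norm_num) |>.1 h1
    apply hh0
    rw [← map_hs, h2, Polynomial.map_zero]
  obtain ⟨c, hc⟩ := hno (up (tc G.natDegree G ^ 2)) (up (hs G.natDegree G ^ 3)) hB (by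
    rw [up_pow, up_pow, map_pow, map_pow, map_pow, map_pow]
    linear_combination -key)
  have hc' : tc G.natDegree G ^ 2 = C (MvPolynomial.C c) * hs G.natDegree G ^ 3 := by
    apply up_injective
    rw [hc, up_mul, up_C, MvPolynomial.rename_C]
  apply hconst (algebraMap _ _ (MvPolynomial.C c : MvPolynomial (Fin n) k))
  have h3 := congrArg (Polynomial.map (algebraMap _ (FractionRing (MvPolynomial (Fin n) k)))) hc'
  rw [Polynomial.map_pow, Polynomial.map_mul, Polynomial.map_pow, Polynomial.map_C, map_tc,
    map_hs] at h3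
  exact h3

end Pool.Agent.Lib.MP_16285c_ag
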