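import Pool.Agent.Lib.MP_16285c_ag.Spec

/-!
# (B8): the absolute covariant is not constant
-/

set_option autoImplicit false

namespace Pool.Agent.Lib.MP_16285c_ag

universe u

open Polynomial

theorem nonconstP : NonconstProp.{u} := by
  intro K _ _ G hG hcop
  have hm : ((G.natDegree : ℕ) : K[X]) ≠ 0 := by
    have : (G.natDegree : ℕ) ≠ 0 := by omega
    exact_mod_cast this
  have hm2 : (2 * ((G.natDegree : ℕ) : K[X]) - 4) ≠ 0 := by
    obtain ⟨M, hM⟩ := Nat.exists_eq_add_of_le hG
    rw [hM]
    have : (2 * M + 2 : ℕ) ≠ 0 := by omega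
    have h2 : ((2 * M + 2 : ℕ) : K[X]) ≠ 0 := by exact_mod_cast this
    have h3 : (2 * ((3 + M : ℕ) : K[X]) - 4) = ((2 * M + 2 : ℕ) : K[X]) := by
      push_cast
      ring
    rw [h3]
    exact h2
  have unitOf : ∀ q : ℕ, q ≠ 0 → IsUnit (q : K[X]) := by
    intro q hq
    have : (q : K) ≠ 0 := by exact_mod_cast hq
    have h2 : (q : K[X]) = C (q : K) := by simp
    rw [h2]
    exact isUnit_C.2 (isUnit_iff_ne_zero.2 this)
  have hm1u : IsUnit ((G.natDegree : K[X]) - 1) := by
    obtain ⟨M, hM⟩ := Nat.exists_eq_add_of_le hG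
    rw [hM]
    have h3 : (((3 + M : ℕ) : K[X]) - 1) = ((M + 2 : ℕ) : K[X]) := by
      push_cast
      ring
    rw [h3]
    exact unitOf _ (by omega)
  have hm2u : IsUnit (2 * ((G.natDegree : ℕ) : K[X]) - 4) := by
    obtain ⟨M, hM⟩ := Nat.exists_eq_add_of_le hG
    rw [hM]
    have h3 : (2 * ((3 + M : ℕ) : K[X]) - 4) = ((2 * M + 2 : ℕ) : K[X]) := by
      push_cast
      ring
    rw [h3]
    exact unitOf _ (by omega)
  have isCoU : ∀ {a : K[X]}, IsUnit a → IsCoprime G a := by
    intro a ha
    obtain ⟨b, hb⟩ := ha.exists_right_inv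
    exact ⟨0, b, by linear_combination hb⟩
  have hGnu : ¬ IsUnit G := by
    intro h
    have := natDegree_eq_zero_of_isUnit h
    omega
  set h := hs G.natDegree G with hh
  set T := tc G.natDegree G with hT
  have hcoph : IsCoprime G h := by
    have h1 : IsCoprime G (((G.natDegree : K[X]) - 1) * derivative G ^ 2) :=
      IsCoprime.mul_right (isCoU hm1u) hcop.pow_right
    have h2 := (h1.neg_right).add_mul_left_right
      ((G.natDegree : K[X]) * derivative (derivative G))
    have h3 : h = -(((G.natDegree : K[X]) - 1) * derivative G ^ 2) +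
        G * ((G.natDegree : K[X]) * derivative (derivative G)) := by
      rw [hh, hs]
      ring
    rw [h3]
    exact h2
  have hh0 : h ≠ 0 := by
    intro h0
    rw [h0] at hcoph
    exact hGnu (isCoprime_zero_right.1 hcoph)
  have hcopT : IsCoprime G T := by
    have h1 : IsCoprime G ((2 * (G.natDegree : K[X]) - 4) * derivative G * h) :=
      IsCoprime.mul_right (IsCoprime.mul_right (isCoU hm2u) hcop) hcoph
    have h2 := (h1.neg_right).add_mul_left_right ((G.natDegree : K[X]) * derivative h)
    have h3 : T = -((2 * (G.natDegree : K[X]) - 4) * derivative G * h) +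
        G * ((G.natDegree : K[X]) * derivative h) := by
      rw [hT, tc, ← hh]
      ring
    rw [h3]
    exact h2
  have hT0 : T ≠ 0 := by
    intro h0
    rw [h0] at hcopT
    exact hGnu (isCoprime_zero_right.1 hcopT)
  refine ⟨hh0, fun c hc => ?_⟩
  have hc0 : c ≠ 0 := by
    rintro rfl
    rw [C_0, zero_mul] at hc
    exact hT0 (pow_eq_zero_iff (by norm_num) |>.1 hc)
  have hdvd : h ∣ T := by
    have : h ^ 2 ∣ T ^ 2 := by
      rw [hc]
      exact ⟨C c * h, by ring⟩
    exact (IsIntegrallyClosed.pow_dvd_pow_iff (by norm_num)).1 this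
  obtain ⟨v, hv⟩ := hdvd
  have hv2 : v ^ 2 = C c * h := by
    have : h ^ 2 * v ^ 2 = h ^ 2 * (C c * h) := by
      rw [hv] at hc
      linear_combination hc
    exact mul_left_cancel₀ (pow_ne_zero 2 hh0) this
  have hv0 : v ≠ 0 := by
    rintro rfl
    rw [mul_zero] at hv
    exact hT0 hv
  have hvG : IsCoprime G v := by
    rw [hv] at hcopT
    exact hcopT.of_mul_right_right
  have hder : 2 * v * derivative v = C c * derivative h := by
    have := congrArg derivative hv2
    rw [sq, derivative_mul, derivative_C_mul] at this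
    linear_combination this
  have key : v ^ 2 = 2 * (G.natDegree : K[X]) * G * derivative v -
      (2 * (G.natDegree : K[X]) - 4) * derivative G * v := by
    have h1 : v * v ^ 2 = v * (2 * (G.natDegree : K[X]) * G * derivative v -
      (2 * (G.natDegree : K[X]) - 4) * derivative G * v) := by
      have e : T = (G.natDegree : K[X]) * G * derivative h -
          (2 * (G.natDegree : K[X]) - 4) * derivative G * h := by rw [hT, tc, ← hh]
      have e2 : C c * T = v * v ^ 2 := by
        rw [hv, hv2]
        ring
      rw [← e2, e]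
      linear_combination (-((G.natDegree : K[X]) * G)) * hder +
        ((2 * (G.natDegree : K[X]) - 4) * derivative G) * hv2
    exact mul_left_cancel₀ hv0 h1
  have hv' : v ∣ derivative v := by
    have h1 : v ∣ (2 * (G.natDegree : K[X])) * (G * derivative v) :=
      ⟨v + (2 * (G.natDegree : K[X]) - 4) * derivative G, by linear_combination -key⟩
    have h2u : IsUnit (2 * (G.natDegree : K[X])) := by
      have := unitOf (2 * G.natDegree) (by omega)
      push_cast at this
      exact this
    have h2 : v ∣ G * derivative v := (IsUnit.dvd_mul_left h2u).1 h1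
    exact hvG.symm.dvd_of_dvd_mul_left h2
  have hvd : v.natDegree = 0 := by
    by_contra hne
    have h1 := natDegree_derivative_lt hne
    have h2 : derivative v ≠ 0 := by
      intro h0
      exact hne (derivative_eq_zero.1 h0)
    have h3 := natDegree_le_of_dvd hv' h2
    omega
  have hvC := eq_C_of_natDegree_eq_zero hvd
  have hdv0 : derivative v = 0 := by rw [hvC, derivative_C]
  rw [hdv0, mul_zero, zero_sub] at key
  have key2 : v = -((2 * (G.natDegree : K[X]) - 4) * derivative G) := by
    apply mul_left_cancel₀ hv0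
    linear_combination key
  have hu : IsUnit v := by
    rw [hvC] at hv0 ⊢
    exact isUnit_C.2 (isUnit_iff_ne_zero.2 (C_ne_zero.1 hv0))
  rw [key2] at hu
  have hu2 : IsUnit (derivative G) := by
    have := hu.neg
    rw [neg_neg] at this
    exact isUnit_of_mul_isUnit_right this
  have hd0 := natDegree_eq_zero_of_isUnit hu2
  have hd1 := natDegree_derivative G
  omega

end Pool.Agent.Lib.MP_16285c_ag
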