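import Pool.Agent.Lib.MP_16285c_ag.Spec

/-!
# MP_16285c: places with finite residues on a finitely generated subring
-/

set_option autoImplicit false

namespace Pool.Agent.Lib.MP_16285c_ag

universe u

namespace PlaceAux

theorem jac : IsJacobsonRing ℤ := by
  rw [isJacobsonRing_iff_prime_eq]
  intro P hP
  by_cases h : P = ⊥
  · subst h
    rw [eq_bot_iff]
    intro x hx
    rw [Ideal.mem_jacobson_bot] at hx
    have h1 := hx x
    rw [Int.isUnit_iff] at h1
    have h2 : x * x = 0 := by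
      rcases h1 with h1 | h1
      · omega
      · have := mul_self_nonneg x
        omega
    exact (mul_self_eq_zero.1 h2)
  · have := hP.isMaximal h
    exact Ideal.jacobson_eq_self_of_isMaximal

theorem ft {k : Type u} [Field k] (T : Finset k) :
    Algebra.FiniteType ℤ (Subring.closure (T : Set k)) := by
  have h := Subalgebra.fg_adjoin_finset (R := ℤ) T
  rw [Algebra.adjoin_int] at h
  exact (Subalgebra.fg_iff_finiteType _).1 h

/-- a field of finite type over `ℤ` is finite -/
theorem finField {A κ : Type u} [CommRing A] [Field κ] [Algebra.FiniteType ℤ A] (f : A →+* κ)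
    (hf : Function.Surjective f) : ∃ p s : ℕ, p.Prime ∧ 1 ≤ s ∧ (p : κ) = 0 ∧
      ∀ x : κ, x ^ (p ^ s) = x := by
  have := jac
  have : Algebra.FiniteType ℤ κ := Algebra.FiniteType.of_surjective f.toIntAlgHom hf
  have : Module.Finite ℤ κ := finite_of_finite_type_of_isJacobsonRing ℤ κ
  obtain ⟨p, hp⟩ := CharP.exists κ
  have hpp : p.Prime := by
    rcases CharP.char_is_prime_or_zero κ p with h | h
    · exact h
    · subst h
      have : CharZero κ := CharP.charP_to_charZero κ
      exact absurd (isField_of_isIntegral_of_isField (R := ℤ) (S := κ)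
        (by
          rw [algebraMap_int_eq]
          exact Int.cast_injective) (Field.toIsField κ)) Int.not_isField
  have hp0 : (p : κ) = 0 := CharP.cast_eq_zero κ p
  have hfin : Finite κ := by
    refine Module.finite_of_fg_torsion κ ?_
    intro x
    refine ⟨⟨(p : ℤ), ?_⟩, ?_⟩
    · rw [mem_nonZeroDivisors_iff_ne_zero]
      exact_mod_cast hpp.ne_zero
    · change (p : ℤ) • x = 0
      rw [zsmul_eq_mul, Int.cast_natCast, hp0, zero_mul]
  have := Fintype.ofFinite κ
  obtain ⟨s, _, hs⟩ := FiniteField.card κ p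
  refine ⟨p, s, hpp, s.2, hp0, fun x => ?_⟩
  rw [← hs]
  exact FiniteField.pow_card x

theorem red_eq_zero {k : Type u} [Field k] (V : ValuationSubring k) (R₀ : Subring k)
    (hR : ∀ r ∈ R₀, r ∈ V) (r : R₀) : red V R₀ hR r = 0 ↔ (r : k) ∈ V.nonunits := by
  rw [ValuationSubring.mem_nonunits_iff_exists_mem_maximalIdeal]
  unfold red
  rw [RingHom.comp_apply, IsLocalRing.residue_eq_zero_iff]
  exact ⟨fun h => ⟨hR r r.2, h⟩, fun ⟨_, h⟩ => h⟩

end PlaceAux

open PlaceAux in
/-- **A3.** Places with finite residues. -/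
theorem placeP : PlaceProp.{u} := by
  classical
  intro k _ _ S S₂ h0 hS₂
  obtain ⟨π, hπ⟩ : ∃ π : k, π = ∏ s ∈ S₂, s := ⟨_, rfl⟩
  have hπ0 : π ≠ 0 := by
    rw [hπ, Finset.prod_ne_zero_iff]
    rintro a ha rfl
    exact h0 ha
  obtain ⟨A, hA⟩ : ∃ A : Subring k, A = Subring.closure ((insert π⁻¹ S : Finset k) : Set k) :=
    ⟨_, rfl⟩
  have : Algebra.FiniteType ℤ A := by
    rw [hA]
    exact ft _
  have hSA : Subring.closure (S : Set k) ≤ A := by
    rw [hA]
    refine Subring.closure_mono ?_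
    rw [Finset.coe_insert]
    exact Set.subset_insert _ _
  have hπA : π⁻¹ ∈ A := by
    rw [hA]
    refine Subring.subset_closure ?_
    rw [Finset.coe_insert]
    exact Set.mem_insert _ _
  obtain ⟨M, hM⟩ := Ideal.exists_maximal A
  obtain ⟨p, s, hp, hs, hp0, hps⟩ : ∃ p s : ℕ, p.Prime ∧ 1 ≤ s ∧ (p : A) ∈ M ∧
      ∀ x : A, x ^ (p ^ s) - x ∈ M := by
    let _ : Field (A ⧸ M) := Ideal.Quotient.field M
    obtain ⟨p, s, h1, h2, h3, h4⟩ := finField (A := A) (κ := A ⧸ M) (Ideal.Quotient.mk M)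
      Ideal.Quotient.mk_surjective
    refine ⟨p, s, h1, h2, ?_, fun x => ?_⟩
    · rw [← Ideal.Quotient.eq_zero_iff_mem, map_natCast]
      exact h3
    · rw [← Ideal.Quotient.eq_zero_iff_mem, map_sub, map_pow]
      have h5 := h4 (Ideal.Quotient.mk M x)
      rw [sub_eq_zero]
      exact h5
  obtain ⟨V, hAV, hMV⟩ := Ideal.image_subset_nonunits_valuationSubring M hM.ne_top
  have hR : ∀ r ∈ Subring.closure (S : Set k), r ∈ V := fun r hr => hAV (hSA hr)
  have key : ∀ (r : Subring.closure (S : Set k)) (a : A), (r : k) = a → a ∈ M →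
      red V (Subring.closure (S : Set k)) hR r = 0 := by
    intro r a hra ha
    rw [red_eq_zero, hra]
    exact hMV ⟨a, ha, rfl⟩
  refine ⟨V, hR, p, s, hp, hs, ?_, ?_, ?_⟩
  · rw [CharP.charP_iff_prime_eq_zero hp]
    have h1 := key (p : Subring.closure (S : Set k)) (p : A) (by push_cast; rfl) hp0
    rw [map_natCast] at h1
    exact h1
  · intro r
    have h1 := key (r ^ (p ^ s) - r) ((⟨r, hSA r.2⟩ : A) ^ (p ^ s) - ⟨r, hSA r.2⟩) (by push_cast; rfl)
      (hps _)
    rw [map_sub, map_pow, sub_eq_zero] at h1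
    exact h1
  · intro r hr h1
    rw [red_eq_zero, ValuationSubring.mem_nonunits_iff_exists_mem_maximalIdeal] at h1
    obtain ⟨h2, h3⟩ := h1
    have h4 : (∏ t ∈ S₂.erase (r : k), t) * π⁻¹ ∈ V := by
      refine hAV (A.mul_mem (A.prod_mem fun t ht => ?_) hπA)
      exact hSA (hS₂ (Finset.mem_of_mem_erase ht))
    have h5 : (r : k) * ((∏ t ∈ S₂.erase (r : k), t) * π⁻¹) = 1 := by
      rw [← mul_assoc, Finset.mul_prod_erase S₂ (fun t => t) hr, ← hπ, mul_inv_cancel₀ hπ0]
    rw [IsLocalRing.mem_maximalIdeal] at h3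
    refine h3 (isUnit_iff_exists_inv.2 ⟨⟨_, h4⟩, ?_⟩)
    exact Subtype.ext h5

end Pool.Agent.Lib.MP_16285c_ag
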