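import Pool.Agent.Lib.MP_16285c_ag.Spec

set_option autoImplicit false

namespace Pool.Agent.Lib.MP_16285c_ag

universe u

theorem polyP : PolyProp.{u} := by
  intro K _ _ n G
  have hs : ∀ x : Fin n → K, 0 ≤ ∑ i, Height.logHeight₁ (x i) := fun x =>
    Finset.sum_nonneg fun i _ => Height.zero_le_logHeight₁ _
  induction G using MvPolynomial.induction_on with
  | C a =>
    refine ⟨Height.logHeight₁ a, Height.zero_le_logHeight₁ _, fun x => ?_⟩
    rw [MvPolynomial.eval_C]
    nlinarith [hs x, Height.zero_le_logHeight₁ a, mul_nonneg (Height.zero_le_logHeight₁ a) (hs x)]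
  | add p q hp hq =>
    obtain ⟨C₁, h1, h1'⟩ := hp
    obtain ⟨C₂, h2, h2'⟩ := hq
    have h3 : (0 : ℝ) ≤ Height.totalWeight K * Real.log 2 :=
      mul_nonneg (Nat.cast_nonneg _) (Real.log_nonneg (by norm_num))
    refine ⟨Height.totalWeight K * Real.log 2 + C₁ + C₂, by linarith, fun x => ?_⟩
    rw [map_add]
    have h4 := Height.logHeight₁_add_le (MvPolynomial.eval x p) (MvPolynomial.eval x q)
    have h5 := h1' x
    have h6 := h2' x
    nlinarith [mul_nonneg h3 (hs x)]
  | mul_X p i hp =>
    obtain ⟨C₁, h1, h1'⟩ := hp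
    refine ⟨C₁ + 1, by linarith, fun x => ?_⟩
    rw [map_mul, MvPolynomial.eval_X]
    have h4 := Height.logHeight₁_mul_le (MvPolynomial.eval x p) (x i)
    have h5 := h1' x
    have h6 : Height.logHeight₁ (x i) ≤ ∑ i, Height.logHeight₁ (x i) :=
      Finset.single_le_sum (f := fun i => Height.logHeight₁ (x i))
        (fun i _ => Height.zero_le_logHeight₁ _) (Finset.mem_univ i)
    linarith

end Pool.Agent.Lib.MP_16285c_ag
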