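import Pool.Agent.Lib.MP_16285c_ag.Spec

set_option autoImplicit false

namespace Pool.Agent.Lib.MP_16285c_ag

universe u

namespace PowAux

theorem sup_pow {K : Type u} [Field K] (v : AbsoluteValue K ℝ) (y : K) (d : ℕ) :
    (⨆ i : Fin (d + 1), v (y ^ (i : ℕ))) = max (v (y ^ d)) 1 := by
  have h0 : 0 ≤ v y := v.nonneg y
  apply le_antisymm
  · refine ciSup_le fun i => ?_
    rw [map_pow, map_pow]
    rcases le_total (v y) 1 with h | h
    · exact le_max_of_le_right (pow_le_one₀ h0 h)
    · exact le_max_of_le_left (pow_le_pow_right₀ h (Nat.lt_succ_iff.1 i.2))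
  · have hb : BddAbove (Set.range fun i : Fin (d + 1) => v (y ^ (i : ℕ))) :=
      Finite.bddAbove_range _
    refine max_le ?_ ?_
    · have := le_ciSup hb (Fin.last d)
      simpa using this
    · have := le_ciSup hb 0
      simpa using this

end PowAux

theorem powP : PowProp.{u} := by
  intro K _ _ y d
  have hne : (fun i : Fin (d + 1) => y ^ (i : ℕ)) ≠ 0 := by
    intro h
    have := congrFun h 0
    simp at this
  rw [← Height.logHeight₁_pow, Height.logHeight_eq_log_mulHeight,
    Height.logHeight₁_eq_log_mulHeight₁, Height.mulHeight_eq hne, Height.mulHeight₁_eq]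
  simp only [PowAux.sup_pow]

end Pool.Agent.Lib.MP_16285c_ag
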