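import Pool.Agent.Lib.MP_16285c_ag.Spec

set_option autoImplicit false

namespace Pool.Agent.Lib.MP_16285c_ag

theorem realLowP : RealLowProp := by
  intro d ν C hν hνd hC
  have hdν : 0 < d - ν := sub_pos.2 hνd
  have hd : 0 ≤ d := le_trans hν hνd.le
  set E := C / (d - ν) with hE
  have hE0 : 0 ≤ E := div_nonneg hC hdν.le
  have hEC : E * (d - ν) = C := div_mul_cancel₀ C hdν.ne'
  refine ⟨1 + E, fun a ha h j => ?_⟩
  have key : ∀ j, (a 0 - E) * d ^ j + E * ν ^ j ≤ a j := by
    intro j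
    induction j with
    | zero => simp
    | succ j ih =>
      have h1 := h j
      have h2 : d * ((a 0 - E) * d ^ j + E * ν ^ j) ≤ d * a j := mul_le_mul_of_nonneg_left ih hd
      have h3 : d * ((a 0 - E) * d ^ j + E * ν ^ j) - C * ν ^ j =
          (a 0 - E) * d ^ (j + 1) + E * ν ^ (j + 1) := by
        rw [← hEC, pow_succ, pow_succ]; ring
      linarith
  have h4 := key j
  have h5 : 0 ≤ E * ν ^ j := mul_nonneg hE0 (pow_nonneg hν j)
  have h6 : 1 * d ^ j ≤ (a 0 - E) * d ^ j :=
    mul_le_mul_of_nonneg_right (by linarith) (pow_nonneg hd j)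
  linarith

end Pool.Agent.Lib.MP_16285c_ag
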