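import Pool.Agent.Lib.MP_16285c_ag.Spec

set_option autoImplicit false

namespace Pool.Agent.Lib.MP_16285c_ag

theorem realUpP : RealUpProp := by
  intro a d ν C hd hdν hC ha h
  have hν : 0 < ν - d := sub_pos.2 hdν
  have hν0 : 0 ≤ ν := le_trans hd hdν.le
  have hq : 0 ≤ C / (ν - d) := div_nonneg hC hν.le
  refine ⟨a 0 + C / (ν - d), add_nonneg (ha 0) hq, fun j => ?_⟩
  have hC' : C ≤ (a 0 + C / (ν - d)) * (ν - d) := by
    have : C / (ν - d) * (ν - d) = C := div_mul_cancel₀ C hν.ne'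
    nlinarith [mul_nonneg (ha 0) hν.le]
  induction j with
  | zero => simp; exact hq
  | succ j ih =>
    have hp : 0 ≤ ν ^ j := pow_nonneg hν0 j
    have h1 := h j
    have h2 : d * a j ≤ d * ((a 0 + C / (ν - d)) * ν ^ j) := mul_le_mul_of_nonneg_left ih hd
    have h3 : C * ν ^ j ≤ (a 0 + C / (ν - d)) * (ν - d) * ν ^ j :=
      mul_le_mul_of_nonneg_right hC' hp
    calc a (j + 1) ≤ d * a j + C * ν ^ j := h1
      _ ≤ d * ((a 0 + C / (ν - d)) * ν ^ j) + (a 0 + C / (ν - d)) * (ν - d) * ν ^ j := by linarith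
      _ = (a 0 + C / (ν - d)) * ν ^ (j + 1) := by rw [pow_succ]; ring

end Pool.Agent.Lib.MP_16285c_ag
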