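import Pool.Agent.Lib.MP_16285c_ag.Spec

set_option autoImplicit false

namespace Pool.Agent.Lib.MP_16285c_ag

universe u

namespace ResOfAux

open Polynomial

theorem res_ne_zero {A : Type u} [CommRing A] [IsDomain A] [DecompositionMonoid A[X]]
    (P Q : A[X]) (d : ℕ) (h : IsRelPrime P Q) (hd : d = max P.natDegree Q.natDegree) (h1 : 1 ≤ d) :
    resultant P Q d d ≠ 0 := by
  intro h0
  have hP : P.natDegree ≤ d := hd ▸ le_max_left _ _
  have hQ : Q.natDegree ≤ d := hd ▸ le_max_right _ _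
  have hdet : (sylvester P Q d d).det = 0 := h0
  obtain ⟨v, hv, hv0⟩ := Matrix.exists_mulVec_eq_zero_iff.2 hdet
  let b₁ := ((degreeLT.basis A d).prod (degreeLT.basis A d)).reindex finSumFinEquiv
  let b₂ := degreeLT.basis A (d + d)
  let X := b₁.equivFun.symm v
  have hX : b₁.repr X = b₁.equivFun.symm.symm X := rfl
  have hXv : ⇑(b₁.repr X) = v := by
    change b₁.equivFun X = v
    exact b₁.equivFun.apply_symm_apply v
  have hmul := LinearMap.toMatrix_mulVec_repr b₁ b₂ (sylvesterMap P Q hP hQ) X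
  rw [toMatrix_sylvesterMap', hXv, hv0] at hmul
  have hz : sylvesterMap P Q hP hQ X = 0 := by
    apply b₂.repr.injective
    rw [map_zero]
    ext i
    rw [← hmul]
    rfl
  have hz' : P * (X.2 : A[X]) + Q * (X.1 : A[X]) = 0 := by
    have := congrArg Subtype.val hz
    simpa using this
  have hX0 : X ≠ 0 := by
    intro h2
    apply hv
    rw [← hXv, h2]
    simp
  have hd1 : (X.1 : A[X]).degree < d := mem_degreeLT.1 X.1.2
  have hd2 : (X.2 : A[X]).degree < d := mem_degreeLT.1 X.2.2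
  have e1 : P ∣ Q * (X.1 : A[X]) := ⟨-(X.2 : A[X]), by linear_combination hz'⟩
  have e2 : Q ∣ P * (X.2 : A[X]) := ⟨-(X.1 : A[X]), by linear_combination hz'⟩
  have f1 : P ∣ (X.1 : A[X]) := h.dvd_of_dvd_mul_left e1
  have f2 : Q ∣ (X.2 : A[X]) := h.symm.dvd_of_dvd_mul_left e2
  have hno : ∀ R S : A[X], R.natDegree = d → S.degree < d → R ∣ S → S = 0 := by
    intro R S hR hS hRS
    by_contra hS0
    have h3 := natDegree_le_of_dvd hRS hS0
    rw [hR] at h3
    have h4 : S.natDegree < d := (natDegree_lt_iff_degree_lt hS0).2 hS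
    omega
  rcases max_choice P.natDegree Q.natDegree with hm | hm
  · have hPd : P.natDegree = d := by rw [hd, hm]
    have g1 : (X.1 : A[X]) = 0 := hno P _ hPd hd1 f1
    have hP0 : P ≠ 0 := by
      rintro rfl
      simp at hPd
      omega
    rw [g1, mul_zero, add_zero] at hz'
    have g2 : (X.2 : A[X]) = 0 := (mul_eq_zero.1 hz').resolve_left hP0
    exact hX0 (Prod.ext (Subtype.ext g1) (Subtype.ext g2))
  · have hQd : Q.natDegree = d := by rw [hd, hm]
    have g2 : (X.2 : A[X]) = 0 := hno Q _ hQd hd2 f2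
    have hQ0 : Q ≠ 0 := by
      rintro rfl
      simp at hQd
      omega
    rw [g2, mul_zero, zero_add] at hz'
    have g1 : (X.1 : A[X]) = 0 := (mul_eq_zero.1 hz').resolve_left hQ0
    exact hX0 (Prod.ext (Subtype.ext g1) (Subtype.ext g2))

theorem res_id {A : Type u} [CommRing A] [IsDomain A] (P Q W : A[X]) (d : ℕ) (hP : P.natDegree ≤ d)
    (hQ : Q.natDegree ≤ d) (h1 : 1 ≤ d) (hW : W.degree < ((d + d : ℕ) : WithBot ℕ)) :
    ∃ U V : A[X], U.natDegree < d ∧ V.natDegree < d ∧ U * P + V * Q = C (resultant P Q d d) * W := by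
  let X := adjSylvester (m := d) (n := d) P Q ⟨W, mem_degreeLT.2 hW⟩
  have h2 := LinearMap.congr_fun (sylveserMap_comp_adjSylvester P Q hP hQ) ⟨W, mem_degreeLT.2 hW⟩
  have h3 : P * (X.2 : A[X]) + Q * (X.1 : A[X]) = C (resultant P Q d d) * W := by
    have := congrArg Subtype.val h2
    simpa [Algebra.smul_def] using this
  have hlt : ∀ S : A[X], S.degree < d → S.natDegree < d := by
    intro S hS
    by_cases hS0 : S = 0
    · rw [hS0, natDegree_zero]; omega
    · exact (natDegree_lt_iff_degree_lt hS0).2 hS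
  refine ⟨X.2, X.1, hlt _ (mem_degreeLT.1 X.2.2), hlt _ (mem_degreeLT.1 X.1.2), ?_⟩
  rw [← h3]; ring

end ResOfAux

theorem resOfP : ResOfProp.{u} := by
  intro k _ n P Q d h hd h1
  have hP : P.natDegree ≤ d := hd ▸ le_max_left _ _
  have hQ : Q.natDegree ≤ d := hd ▸ le_max_right _ _
  refine ⟨Polynomial.resultant P Q d d, ResOfAux.res_ne_zero P Q d h hd h1, ?_⟩
  obtain ⟨U₀, V₀, g1, g2, g3⟩ := ResOfAux.res_id P Q 1 d hP hQ h1 (by
    rw [Polynomial.degree_one]
    exact_mod_cast (by omega : 0 < d + d))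
  obtain ⟨U₁, V₁, g4, g5, g6⟩ := ResOfAux.res_id P Q (Polynomial.X ^ (2 * d - 1)) d hP hQ h1 (by
    rw [Polynomial.degree_X_pow]
    exact_mod_cast (by omega : 2 * d - 1 < d + d))
  exact ⟨U₀, V₀, U₁, V₁, g1, g2, g4, g5, by rw [g3, mul_one], g6⟩

end Pool.Agent.Lib.MP_16285c_ag
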