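import Pool.Agent.Lib.MP_16285c_ag.Spec

set_option autoImplicit false

namespace Pool.Agent.Lib.MP_16285c_ag

universe u

theorem rootP (h1 : PowProp.{u}) (h2 : PolyProp.{u}) (h3 : VecProp.{u}) : RootProp.{u} := by
  intro K _ _ n G
  rcases Nat.eq_zero_or_pos G.natDegree with hs0 | hs0
  · refine ⟨0, le_rfl, fun x y hlc hroot => ?_⟩
    exfalso
    apply hlc
    rw [Polynomial.leadingCoeff, hs0]
    rw [ev, Polynomial.eq_C_of_natDegree_eq_zero hs0, Polynomial.map_C, Polynomial.eval_C] at hroot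
    exact hroot
  obtain ⟨s, hs⟩ : ∃ s, G.natDegree = s + 1 := ⟨G.natDegree - 1, by omega⟩
  choose C hC hCx using h2 K n
  let M : Fin (s + 2) × Fin (s + 1) → MvPolynomial (Fin n) K := fun c =>
    if (c.1 : ℕ) = s + 1 then - G.coeff c.2 else
      (if (c.1 : ℕ) = c.2 then G.leadingCoeff else 0)
  set T : ℝ := Height.totalWeight K * Real.log (Nat.card (Fin (s + 1))) with hT
  have hT0 : (0 : ℝ) ≤ T := mul_nonneg (Nat.cast_nonneg _) (Real.log_natCast_nonneg _)
  refine ⟨T + ∑ c, C (M c), add_nonneg hT0 (Finset.sum_nonneg fun c _ => hC _),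
    fun x y hlc hroot => ?_⟩
  have hsum : 0 ≤ ∑ i, Height.logHeight₁ (x i) :=
    Finset.sum_nonneg fun i _ => Height.zero_le_logHeight₁ _
  have hev : (ev x G).eval y = ∑ i ∈ Finset.range (s + 2), MvPolynomial.eval x (G.coeff i) * y ^ i := by
    rw [ev, Polynomial.eval_map, Polynomial.eval₂_eq_sum_range, hs]
  rw [hroot, Finset.sum_range_succ] at hev
  have hlead : MvPolynomial.eval x G.leadingCoeff * y ^ (s + 1) =
      ∑ i : Fin (s + 1), -(MvPolynomial.eval x (G.coeff i)) * y ^ (i : ℕ) := by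
    have h4 : MvPolynomial.eval x (G.coeff (s + 1)) = MvPolynomial.eval x G.leadingCoeff := by
      rw [Polynomial.leadingCoeff, hs]
    rw [h4] at hev
    simp only [neg_mul, Finset.sum_neg_distrib]
    rw [Fin.sum_univ_eq_sum_range (fun i => MvPolynomial.eval x (G.coeff i) * y ^ i)]
    linear_combination -hev
  have hvec : MvPolynomial.eval x G.leadingCoeff • (fun i : Fin (s + 2) => y ^ (i : ℕ)) =
      fun c => ∑ i : Fin (s + 1), MvPolynomial.eval x (M (c, i)) * y ^ (i : ℕ) := by
    funext c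
    simp only [M, Pi.smul_apply, smul_eq_mul]
    by_cases hc : (c : ℕ) = s + 1
    · simp only [hc, if_true]
      rw [hlead]
      exact Finset.sum_congr rfl fun i _ => by rw [map_neg]
    · simp only [hc, if_false]
      have hlt : (c : ℕ) < s + 1 := by
        have := c.2
        omega
      rw [Finset.sum_eq_single (⟨c, hlt⟩ : Fin (s + 1))]
      · simp
      · intro b _ hb
        have : ¬ ((c : ℕ) = (b : ℕ)) := fun h => hb (Fin.ext h.symm)
        simp [this]
      · intro h
        exact absurd (Finset.mem_univ _) h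
  have h4 := Height.logHeight_linearMap_apply_le (K := K)
    (fun c : Fin (s + 2) × Fin (s + 1) => MvPolynomial.eval x (M c))
    (fun i : Fin (s + 1) => y ^ (i : ℕ))
  rw [← hvec, Height.logHeight_smul_eq_logHeight _ hlc, h1 K y (s + 1), h1 K y s] at h4
  have h8 := h3 K (Fin (s + 2) × Fin (s + 1)) (fun c => MvPolynomial.eval x (M c))
  have h9 : ∑ c : Fin (s + 2) × Fin (s + 1), Height.logHeight₁ (MvPolynomial.eval x (M c)) ≤
      (∑ c, C (M c)) * (1 + ∑ i, Height.logHeight₁ (x i)) := by
    rw [Finset.sum_mul]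
    exact Finset.sum_le_sum fun c _ => hCx (M c) x
  push_cast at h4
  nlinarith [mul_nonneg hT0 hsum]

end Pool.Agent.Lib.MP_16285c_ag
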