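import Pool.Agent.Lib.MP_16285c_ag.Spec

/-!
# The transform of the minimal polynomial is a multiple of it
-/

set_option autoImplicit false

namespace Pool.Agent.Lib.MP_16285c_ag

universe u

namespace SemiAux

/-- linear polynomials -/
theorem lin {R : Type u} [CommRing R] (P : Polynomial R) (hP : P.natDegree ≤ 1) :
    P = Polynomial.C (P.coeff 1) * Polynomial.X + Polynomial.C (P.coeff 0) :=
  Polynomial.eq_X_add_C_of_natDegree_le_one hP

/-- the sum is not zero -/
theorem ne_zero {K : Type u} [Field K] (m : ℕ) (c : ℕ → K) (P Q : Polynomial K)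
    (hP : P.natDegree ≤ 1) (hQ : Q.natDegree ≤ 1)
    (hD : P.coeff 1 * Q.coeff 0 - P.coeff 0 * Q.coeff 1 ≠ 0) (hc : c m ≠ 0) :
    ∑ i ∈ Finset.range (m + 1), Polynomial.C (c i) * P ^ i * Q ^ (m - i) ≠ 0 := by
  obtain ⟨α, hα⟩ : ∃ α, α = P.coeff 1 := ⟨_, rfl⟩
  obtain ⟨β, hβ⟩ : ∃ β, β = P.coeff 0 := ⟨_, rfl⟩
  obtain ⟨γ, hγ⟩ : ∃ γ, γ = Q.coeff 1 := ⟨_, rfl⟩
  obtain ⟨δ, hδ⟩ : ∃ δ, δ = Q.coeff 0 := ⟨_, rfl⟩
  have eP : P = Polynomial.C α * Polynomial.X + Polynomial.C β := by
    rw [hα, hβ]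
    exact lin P hP
  have eQ : Q = Polynomial.C γ * Polynomial.X + Polynomial.C δ := by
    rw [hγ, hδ]
    exact lin Q hQ
  rw [← hα, ← hβ, ← hγ, ← hδ] at hD
  by_cases h : γ = 0
  · have hδ0 : δ ≠ 0 := by
      rintro rfl
      rw [h] at hD
      exact hD (by ring)
    have hα0 : α ≠ 0 := by
      rintro rfl
      rw [h] at hD
      exact hD (by ring)
    have eQ' : Q = Polynomial.C δ := by
      rw [eQ, h, Polynomial.C_0, zero_mul, zero_add]
    obtain ⟨R, hR⟩ : ∃ R : Polynomial K, R = ∑ i ∈ Finset.range (m + 1),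
        Polynomial.C (c i * δ ^ (m - i)) * Polynomial.X ^ i := ⟨_, rfl⟩
    have h1 : ∑ i ∈ Finset.range (m + 1), Polynomial.C (c i) * P ^ i * Q ^ (m - i) = R.comp P := by
      rw [hR, Polynomial.sum_comp]
      refine Finset.sum_congr rfl fun i _ => ?_
      rw [Polynomial.mul_comp, Polynomial.C_comp, Polynomial.pow_comp, Polynomial.X_comp, eQ',
        ← Polynomial.C_pow, Polynomial.C_mul]
      ring
    rw [h1]
    intro h2
    rcases Polynomial.comp_eq_zero_iff.1 h2 with h3 | ⟨_, h3⟩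
    · have h4 : R.coeff m = c m := by
        rw [hR, Polynomial.finsetSum_coeff]
        rw [Finset.sum_eq_single m]
        · rw [Polynomial.coeff_C_mul_X_pow, if_pos rfl, Nat.sub_self, pow_zero, mul_one]
        · intro i _ hi
          rw [Polynomial.coeff_C_mul_X_pow, if_neg (Ne.symm hi)]
        · intro hm
          exact absurd (Finset.mem_range.2 (Nat.lt_succ_self m)) hm
      rw [h3, Polynomial.coeff_zero] at h4
      exact hc h4.symm
    · have h4 : P.coeff 1 = 0 := by
        rw [h3, Polynomial.coeff_C, if_neg one_ne_zero]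
      rw [← hα] at h4
      exact hα0 h4
  · intro h2
    have h3 := congrArg (Polynomial.eval (-δ / γ)) h2
    rw [Polynomial.eval_finsetSum, Polynomial.eval_zero, Finset.sum_eq_single m] at h3
    · have eQ0 : P.eval (-δ / γ) = -(α * δ - β * γ) / γ := by
        rw [eP]
        simp only [Polynomial.eval_add, Polynomial.eval_mul, Polynomial.eval_C, Polynomial.eval_X]
        field_simp
        ring
      rw [Polynomial.eval_mul, Polynomial.eval_mul, Polynomial.eval_C, Nat.sub_self, pow_zero,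
        Polynomial.eval_one, mul_one, Polynomial.eval_pow, eQ0] at h3
      rcases mul_eq_zero.1 h3 with h4 | h4
      · exact hc h4
      · exact pow_ne_zero m (div_ne_zero (neg_ne_zero.2 hD) h) h4
    · intro i hi him
      have hi' := Finset.mem_range.1 hi
      have h4 : Q.eval (-δ / γ) = 0 := by
        rw [eQ]
        simp only [Polynomial.eval_add, Polynomial.eval_mul, Polynomial.eval_C, Polynomial.eval_X]
        field_simp
        ring
      rw [Polynomial.eval_mul, Polynomial.eval_pow, h4, zero_pow (by omega), mul_zero]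
    · intro hm
      exact absurd (Finset.mem_range.2 (Nat.lt_succ_self m)) hm

/-- values of polynomials over polynomials -/
theorem ev_eval {R : Type u} [CommRing R] {n : ℕ} (x : Fin n → R) (G : TP R n) (y : R) :
    (ev x G).eval y = ∑ i ∈ Finset.range (G.natDegree + 1), MvPolynomial.eval x (G.coeff i) * y ^ i := by
  have h1 : (ev x G).natDegree < G.natDegree + 1 := by
    rw [ev]
    exact Nat.lt_succ_of_le Polynomial.natDegree_map_le
  rw [Polynomial.eval_eq_sum_range' h1]
  refine Finset.sum_congr rfl fun i _ => ?_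
  rw [ev, Polynomial.coeff_map]

/-- the degree of the transform -/
theorem deg_le {K : Type u} [Field K] (m : ℕ) (c : ℕ → K) (P Q : Polynomial K)
    (hP : P.natDegree ≤ 1) (hQ : Q.natDegree ≤ 1) :
    (∑ i ∈ Finset.range (m + 1), Polynomial.C (c i) * P ^ i * Q ^ (m - i)).natDegree ≤ m := by
  refine Polynomial.natDegree_sum_le_of_forall_le _ _ fun i hi => ?_
  have hi' := Finset.mem_range.1 hi
  have h1 : (Polynomial.C (c i) * P ^ i).natDegree ≤ i := by
    refine (Polynomial.natDegree_C_mul_le _ _).trans ?_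
    refine (Polynomial.natDegree_pow_le).trans ?_
    calc i * P.natDegree ≤ i * 1 := Nat.mul_le_mul_left i hP
      _ = i := Nat.mul_one i
  have h2 : (Q ^ (m - i)).natDegree ≤ m - i := by
    refine (Polynomial.natDegree_pow_le).trans ?_
    calc (m - i) * Q.natDegree ≤ (m - i) * 1 := Nat.mul_le_mul_left _ hQ
      _ = m - i := Nat.mul_one _
  have h3 : (Polynomial.C (c i) * P ^ i * Q ^ (m - i)).natDegree ≤ _ := Polynomial.natDegree_mul_le
  omega

end SemiAux

open SemiAux in
theorem semiP (h1 : CompProp.{u}) (h2 : InjProp.{u}) (h3 : DetProp.{u}) : SemiProp.{u} := by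
  classical
  intro k _ _ n f x hx hd P Q ρ hP hQ hres hρ y hy G hG hG3 hdiv
  obtain ⟨hden, hinj⟩ := h2 k n f x hx hd
  choose E N hE0 hEN hEe hNe using h1 k n f hden
  obtain ⟨m, hm⟩ : ∃ m, m = G.natDegree := ⟨_, rfl⟩
  rw [← hm] at hG3 ⊢
  obtain ⟨φ, hφ⟩ : ∃ φ : MvPolynomial (Fin n) k →+* FractionRing (MvPolynomial (Fin n) k),
    φ = algebraMap _ _ := ⟨_, rfl⟩
  have hφinj : Function.Injective φ := by
    rw [hφ]
    exact IsFractionRing.injective _ _
  rw [← hφ] at hdiv ⊢
  have hG0 : G ≠ 0 := by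
    rintro rfl
    rw [Polynomial.natDegree_zero] at hm
    omega
  -- the polynomial over the coordinate ring
  obtain ⟨S, hS⟩ : ∃ S, S = Finset.range (m + 1) := ⟨_, rfl⟩
  obtain ⟨H', hH'⟩ : ∃ H' : TP k n, H' = ∑ i ∈ S, Polynomial.C
    ((∏ l ∈ S.erase i, E (G.coeff l)) * N (G.coeff i)) * P ^ i * Q ^ (m - i) := ⟨_, rfl⟩
  obtain ⟨H, hH⟩ : ∃ H : Polynomial (FractionRing (MvPolynomial (Fin n) k)), H = ∑ i ∈ S,
    Polynomial.C (f.comp (G.coeff i)) * (P.map φ) ^ i * (Q.map φ) ^ (m - i) := ⟨_, rfl⟩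
  obtain ⟨Et, hEt⟩ : ∃ Et, Et = ∏ l ∈ S, E (G.coeff l) := ⟨_, rfl⟩
  have hEt0 : φ Et ≠ 0 := by
    intro h0
    rw [← map_zero φ] at h0
    have h4 := hφinj h0
    rw [hEt] at h4
    exact Finset.prod_ne_zero_iff.2 (fun l _ => hE0 _) h4
  have hHH : H'.map φ = Polynomial.C (φ Et) * H := by
    rw [hH', hH, Polynomial.map_sum, Finset.mul_sum]
    refine Finset.sum_congr rfl fun i hi => ?_
    rw [Polynomial.map_mul, Polynomial.map_mul, Polynomial.map_C, Polynomial.map_pow,
      Polynomial.map_pow, map_mul]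
    have e1 : φ (N (G.coeff i)) = φ (E (G.coeff i)) * f.comp (G.coeff i) := by
      rw [hφ]
      exact hEN _
    have e2 : φ Et = φ (∏ l ∈ S.erase i, E (G.coeff l)) * φ (E (G.coeff i)) := by
      rw [hEt, ← map_mul, Finset.prod_erase_mul _ _ hi]
    rw [e1, e2, ← mul_assoc, Polynomial.C_mul]
    ring
  have hvan : ∀ i j, (ev (x j) H').eval (y i j) = 0 := by
    intro i j
    obtain ⟨_, ho⟩ := (f.orb_cons P Q x (y i)).1 (hy i)
    obtain ⟨hq0, hpq⟩ := ho j
    have hdx : ∀ i, MvPolynomial.eval (x j) (f.den i) ≠ 0 := fun i => (hx j i).1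
    have e0 : (ev (x j) H').eval (y i j) = ∑ l ∈ S, (∏ l ∈ S, MvPolynomial.eval (x j) (E (G.coeff l))) *
        ((ev (x j) Q).eval (y i j)) ^ m * (MvPolynomial.eval (x (j + 1)) (G.coeff l) *
          y i (j + 1) ^ l) := by
      rw [hH', ev, Polynomial.map_sum, Polynomial.eval_finsetSum]
      refine Finset.sum_congr rfl fun l hl => ?_
      have hl' : l ≤ m := by
        rw [hS, Finset.mem_range] at hl
        omega
      rw [Polynomial.map_mul, Polynomial.map_mul, Polynomial.map_C, Polynomial.map_pow,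
        Polynomial.map_pow, Polynomial.eval_mul, Polynomial.eval_mul, Polynomial.eval_C,
        Polynomial.eval_pow, Polynomial.eval_pow, map_mul, map_prod, hNe _ _ _ (hx j)]
      have e1 : (Polynomial.map (MvPolynomial.eval (x j)) P).eval (y i j) =
        y i (j + 1) * (ev (x j) Q).eval (y i j) := hpq.symm
      have e2 : (Polynomial.map (MvPolynomial.eval (x j)) Q).eval (y i j) =
        (ev (x j) Q).eval (y i j) := rfl
      rw [e1, e2, mul_pow, ← Finset.prod_erase_mul S _ hl]
      have e3 : ((ev (x j) Q).eval (y i j)) ^ m = ((ev (x j) Q).eval (y i j)) ^ l *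
          ((ev (x j) Q).eval (y i j)) ^ (m - l) := by
        rw [← pow_add, Nat.add_sub_cancel' hl']
      rw [e3]
      ring
    rw [e0, ← Finset.mul_sum, hS, hm, ← ev_eval, hG i (j + 1), mul_zero]
  have hdiv1 := hdiv H' hvan
  rw [hHH] at hdiv1
  have hdiv2 : G.map φ ∣ H := by
    have hu : IsUnit (Polynomial.C (φ Et)) := Polynomial.isUnit_C.2 (isUnit_iff_ne_zero.2 hEt0)
    exact (hu.dvd_mul_left).1 hdiv1
  -- the transform is not zero
  have hρ0 : ρ ≠ 0 := by
    rintro rfl
    exact hρ 0 (map_zero _)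
  obtain ⟨Δ, hΔ⟩ := h3 k n P Q ρ hP hQ hres
  have hD : P.coeff 1 * Q.coeff 0 - P.coeff 0 * Q.coeff 1 ≠ 0 := by
    intro h0
    rw [h0, zero_mul] at hΔ
    exact pow_ne_zero 2 hρ0 hΔ
  have hPK : (P.map φ).natDegree ≤ 1 := Polynomial.natDegree_map_le.trans hP
  have hQK : (Q.map φ).natDegree ≤ 1 := Polynomial.natDegree_map_le.trans hQ
  have hH0 : H ≠ 0 := by
    rw [hH, hS]
    refine ne_zero m (fun i => f.comp (G.coeff i)) _ _ hPK hQK ?_ ?_
    · rw [Polynomial.coeff_map, Polynomial.coeff_map, Polynomial.coeff_map, Polynomial.coeff_map,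
        ← map_mul, ← map_mul, ← map_sub]
      intro h0
      rw [← map_zero φ] at h0
      exact hD (hφinj h0)
    · show f.comp (G.coeff m) ≠ 0
      intro h0
      rw [← map_zero f.comp] at h0
      have h4 := hinj h0
      rw [hm] at h4
      exact hG0 (Polynomial.leadingCoeff_eq_zero.1 h4)
  have hHd : H.natDegree ≤ m := by
    rw [hH, hS]
    exact deg_le m (fun i => f.comp (G.coeff i)) _ _ hPK hQK
  obtain ⟨T, hT⟩ := hdiv2
  have hGd : (G.map φ).natDegree = m := by
    rw [Polynomial.natDegree_map_eq_of_injective hφinj, hm]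
  have hT0 : T ≠ 0 := by
    rintro rfl
    rw [mul_zero] at hT
    exact hH0 hT
  have hGK0 : G.map φ ≠ 0 := by
    intro h0
    rw [h0, zero_mul] at hT
    exact hH0 hT
  have hTd : T.natDegree = 0 := by
    have h4 := Polynomial.natDegree_mul hGK0 hT0
    rw [← hT, hGd] at h4
    omega
  refine ⟨T.coeff 0, ?_, ?_⟩
  · intro h0
    rw [Polynomial.eq_C_of_natDegree_eq_zero hTd, h0, Polynomial.C_0] at hT0
    exact hT0 rfl
  · rw [← hS, ← hH, hT, mul_comm]
    congr 1
    exact Polynomial.eq_C_of_natDegree_eq_zero hTd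

end Pool.Agent.Lib.MP_16285c_ag
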