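import Pool.Agent.Lib.MP_16285c_ag.Base

/-!
# The strong Zariski dense orbit conjecture for triangular rational maps: statements

Theorem. Let `k` be an algebraically closed field of characteristic zero and `f = (f₀, …, f_{N-1})` a rational self-map of
affine space such that `fᵢ = Pᵢ/Qᵢ` involves only the variables `x_j`, `j ≥ i`, and has degree `eᵢ ≥ 1` in `xᵢ`, where `eᵢ = 1`
or `eᵢ > e_j` for all `j > i`. If `f` has no non-constant invariant rational function then for every polynomial
`b ≠ 0` there is a point with well-defined Zariski dense orbit which never meets `b = 0`.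

Every lemma is a `Prop`; the proof is in the docstring; the files proving them are independent: used statements are
hypotheses. Notation: see `Base.lean` (please read it first). `K = FractionRing (MvPolynomial (Fin n) k)`.
-/

set_option autoImplicit false

namespace Pool.Agent.Lib.MP_16285c_ag

universe u

/-! ## A. Places and Frobenius points -/

/-- The inclusion of a subring into a valuation ring containing it. -/
def inc {k : Type u} [Field k] (V : ValuationSubring k) (R₀ : Subring k) (hR : ∀ r ∈ R₀, r ∈ V) : R₀ →+* V where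
  toFun r := ⟨r, hR r r.2⟩
  map_one' := rfl
  map_mul' _ _ := rfl
  map_zero' := rfl
  map_add' _ _ := rfl

/-- Reduction of a subring modulo the maximal ideal of a valuation ring containing it. -/
noncomputable def red {k : Type u} [Field k] (V : ValuationSubring k) (R₀ : Subring k)
    (hR : ∀ r ∈ R₀, r ∈ V) : R₀ →+* IsLocalRing.ResidueField V :=
  (IsLocalRing.residue V).comp (inc V R₀ hR)

/-- `x` is integral and reduces to `a`. -/
def Lies {k : Type u} [Field k] (V : ValuationSubring k) (x : k) (a : IsLocalRing.ResidueField V) :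
    Prop := ∃ h : x ∈ V, IsLocalRing.residue V ⟨x, h⟩ = a

/-- `f a = a ^ q`. -/
def FrobPt {κ : Type u} [Field κ] {n : ℕ} (f : RM κ n) (q : ℕ) (a : Fin n → κ) : Prop :=
  ∀ i, MvPolynomial.eval a (f.den i) ≠ 0 ∧
    a i ^ q * MvPolynomial.eval a (f.den i) = MvPolynomial.eval a (f.num i)

/-- (A1) A tower may be mapped by every homomorphism which does not kill finitely many given elements. PROOF. Induction on
`Tower`. `nil`: `S = ∅` (`map φ 1 = 1`). `cons`: add to the set of `f` one nonzero coefficient of `ρ` and one nonzero coefficient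
of a nonzero coefficient of `Wr P Q`. If these are not killed then `map φ ρ ≠ 0` and
`Wr (P.map _) (Q.map _) = (Wr P Q).map _ ≠ 0`. Degrees do not increase (`Polynomial.natDegree_map_le`), `ResId` is preserved (map the
identities), `RM.map_cons` and `MvPolynomial.map_rename` in `Base.lean` / Mathlib give the shape. -/
def MapProp : Prop :=
  ∀ (R : Type u) [CommRing R] [IsDomain R] (n : ℕ) (f : RM R n) (e : Fin n → ℕ)
    (β : MvPolynomial (Fin n) R), Tower R n f e β →
    ∃ S : Finset R, (0 : R) ∉ S ∧ ∀ (R' : Type u) [CommRing R'] [IsDomain R'] (φ : R →+* R'),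
      (∀ s ∈ S, φ s ≠ 0) → Tower R' n (f.map φ) e (MvPolynomial.map φ β)

/-- (A2) A tower over a field is defined over every subring containing a suitable finite set. PROOF. Induction on `Tower`: `S` is
the set of all coefficients of `b`, and (in the step) of `P`, `Q`, `ρ`, `U₀`, `V₀`, `U₁`, `V₁` (`ResId`), together with the set for `f` and `β` from
the induction hypothesis (applied with `b = 0` or `1`). A polynomial all of whose coefficients are in `R₀` is the image of a
polynomial over `R₀` (`MvPolynomial.mem_range_map_iff_coeffs_subset`, or `Polynomial.lifts`, or by hand with `Finsupp` sums), of the same `natDegree`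
(`Polynomial.natDegree_map_eq_of_injective`; `MvPolynomial.map_injective`). Identities may be checked after the injective map
to `k`. -/
def SpreadProp : Prop :=
  ∀ (k : Type u) [Field k] (n : ℕ) (f : RM k n) (e : Fin n → ℕ) (β : MvPolynomial (Fin n) k),
    Tower k n f e β → ∀ b : MvPolynomial (Fin n) k, ∃ S : Finset k, ∀ R₀ : Subring k,
      (S : Set k) ⊆ R₀ → ∃ (f₀ : RM R₀ n) (β₀ b₀ : MvPolynomial (Fin n) R₀),
        Tower R₀ n f₀ e β₀ ∧ f₀.map R₀.subtype = f ∧ MvPolynomial.map R₀.subtype β₀ = β ∧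
        MvPolynomial.map R₀.subtype b₀ = b

/-- (A3) PROOF. Let `R₁ = Subring.closure (S ∪ {(∏ s ∈ S₂, s)⁻¹})`, a domain of finite type over `ℤ`, `S₂ ⊆ R₁ˣ`. Let `𝔪` be a maximal
ideal of `R₁` (`Ideal.exists_maximal`). `R₁ ⧸ 𝔪` is a field of finite type over `ℤ`, hence a finite `ℤ`-module
(`finite_of_finite_type_of_isJacobsonRing ℤ _`), hence finite of some characteristic `p` (a field which is a finite
`ℤ`-module has positive characteristic since `ℚ` is not a finite `ℤ`-module; then it is a finite dimensional space over `ZMod p`), with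
`p ^ s` elements. `LocalSubring.ofPrime R₁ 𝔪` is dominated by a valuation ring `V` (`LocalSubring.exists_le_valuationSubring`; compare
line 149 of `Mathlib/RingTheory/Valuation/LocalSubring.lean`). The map `R₁ → ResidueField V` has the kernel `𝔪`, so its values satisfy
`z ^ (p ^ s) = z` (`FiniteField.pow_card`), `p` is zero in the residue field, and units of `R₁` do not go to `0`. -/
def PlaceProp : Prop :=
  ∀ (k : Type u) [Field k] [CharZero k] (S S₂ : Finset k), (0 : k) ∉ S₂ →
    (S₂ : Set k) ⊆ Subring.closure (S : Set k) →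
    ∃ (V : ValuationSubring k) (hR : ∀ r ∈ Subring.closure (S : Set k), r ∈ V) (p s : ℕ),
      p.Prime ∧ 1 ≤ s ∧ CharP (IsLocalRing.ResidueField V) p ∧
      (∀ r, red V (Subring.closure (S : Set k)) hR r ^ (p ^ s) =
        red V (Subring.closure (S : Set k)) hR r) ∧
      ∀ r : Subring.closure (S : Set k), (r : k) ∈ S₂ →
        red V (Subring.closure (S : Set k)) hR r ≠ 0

/-- (A4) PROOF. Lift a monic polynomial `g` over the residue field to a monic polynomial over `V` (`Polynomial.lifts_and_natDegree_eq_and_monic`). It has a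
root in `k`, integral over `V`, hence in `V` (`IsIntegrallyClosed`, `ValuationRing`). Its residue is a root of `g`. Use
`IsAlgClosed.of_exists_root`. -/
def ClosedProp : Prop :=
  ∀ (k : Type u) [Field k] [IsAlgClosed k] (V : ValuationSubring k),
    IsAlgClosed (IsLocalRing.ResidueField V)

/-- (A5) PROOF. `F = X ^ q * Q - P`, `q = p ^ s`. `Q ≠ 0` (else `Wr = 0`), `natDegree F = q + natDegree Q ≥ q` as `q > d`. In characteristic `p`:
`F' = X ^ q * Q' - P'` and `Q * F' - Q' * F = Wr P Q`. So for every root `y` of `F` of multiplicity `μ` we have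
`(X - y) ^ (μ - 1) ∣ Wr P Q`, i.e. `μ ≤ 1 + rootMultiplicity y (Wr P Q)`. Summing over the distinct roots of `F` (`κ` is algebraically closed:
`∑ μ = natDegree F`): `q ≤ #roots + natDegree (Wr P Q) ≤ #roots + 2 d`. If all the roots of `F` were roots of `b` then
`#roots ≤ natDegree b`, a contradiction. -/
def CountProp : Prop :=
  ∀ (κ : Type u) [Field κ] [IsAlgClosed κ] (p : ℕ) [Fact p.Prime] [CharP κ p] (P Q b : Polynomial κ)
    (d s : ℕ), 1 ≤ s → P.natDegree ≤ d → Q.natDegree ≤ d → Wr P Q ≠ 0 → b ≠ 0 →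
    2 * d + b.natDegree < p ^ s → ∃ y : κ, y ^ (p ^ s) * Q.eval y = P.eval y ∧ b.eval y ≠ 0

/-- (A6) Frobenius points of towers. PROOF (uses `CountProp`). Induction on `Tower`, for all `b`. `nil`: `b` is a nonzero constant, `B = 0`. `cons`: let
`b♯ = MvPolynomial.finSuccEquiv κ n b ≠ 0`, `b_c ≠ 0` a coefficient of it, `w ≠ 0` a coefficient of `Wr P Q` (both in
`MvPolynomial (Fin n) κ`). The induction hypothesis for `b' = b_c * w * ρ` gives `B'`; `B = max B' (2 * d + natDegree b♯ + 1)`. Let `a'` be the point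
for `b'` and `s`. `ev a' b♯ ≠ 0`, `Wr (ev a' P) (ev a' Q) = (Wr P Q).map _ ≠ 0`. `CountProp` gives `y` with
`y ^ p ^ s * Q(a', y) = P(a', y)`, `b♯(a', y) ≠ 0`. `Q(a', y) ≠ 0`: otherwise `P(a', y) = 0` and `ResId` gives
`ρ(a') = 0`. Take `a = Fin.cons y a'` (`eval_up`, `eval_rename_succ` in `Base.lean`, `MvPolynomial.eval_eq_eval_mv_eval'`). -/
def FrobProp : Prop :=
  ∀ (κ : Type u) [Field κ] [IsAlgClosed κ] (p : ℕ) [Fact p.Prime] [CharP κ p] (n : ℕ) (f : RM κ n)
    (e : Fin n → ℕ) (β : MvPolynomial (Fin n) κ), Tower κ n f e β → ∀ b : MvPolynomial (Fin n) κ,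
    b ≠ 0 → ∃ B : ℕ, ∀ s, 1 ≤ s → B ≤ p ^ s → ∃ a : Fin n → κ, FrobPt f (p ^ s) a ∧
      MvPolynomial.eval a b ≠ 0

/-- (A7) Orbits of points reducing to a Frobenius point. PROOF. Let `ψ = red V R₀ hR`, `q = p ^ s`. For `G : MvPolynomial (Fin n) R₀` and
`z : Fin n → k` with `Lies V (z i) (c i)` one has `Lies V (eval z (G.map R₀.subtype)) (eval c (G.map ψ))` (write `z` as the image
of `z' : Fin n → V`; both sides are images of `eval z' (G.map (inc V R₀ hR))`). Since `x ↦ x ^ q` is a ring homomorphism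
of the residue field (characteristic `p`; `iterateFrobenius` or `frobenius`) which fixes the coefficients of `G.map ψ`, one has
`eval (fun i => a i ^ q ^ j) (G.map ψ) = (eval a (G.map ψ)) ^ q ^ j`. Construct `x` by recursion:
`x (j+1) i = num / den` in `k`. By induction `Lies V (x j i) (a i ^ q ^ j)`: the denominator lies over
`(eval a (den i)) ^ q ^ j ≠ 0`, so it is a unit of `V` (`IsLocalRing.residue_eq_zero_iff` / `ne_zero_iff_isUnit`), and the quotient
lies over `(a i ^ q) ^ q ^ j`. The last claim: the value lies over a nonzero element. -/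
def LiftProp : Prop :=
  ∀ (k : Type u) [Field k] (V : ValuationSubring k) (R₀ : Subring k) (hR : ∀ r ∈ R₀, r ∈ V)
    (p s : ℕ) [Fact p.Prime] [CharP (IsLocalRing.ResidueField V) p],
    (∀ r, red V R₀ hR r ^ (p ^ s) = red V R₀ hR r) →
    ∀ (n : ℕ) (f : RM R₀ n) (a : Fin n → IsLocalRing.ResidueField V),
      FrobPt (f.map (red V R₀ hR)) (p ^ s) a → ∀ x₀ : Fin n → k, (∀ i, Lies V (x₀ i) (a i)) →
      ∃ x : ℕ → Fin n → k, x 0 = x₀ ∧ (f.map R₀.subtype).Orb x ∧
        (∀ j i, Lies V (x j i) (a i ^ (p ^ s) ^ j)) ∧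
        ∀ G : MvPolynomial (Fin n) R₀,
          MvPolynomial.eval a (MvPolynomial.map (red V R₀ hR) G) ≠ 0 →
          ∀ j, MvPolynomial.eval (x j) (MvPolynomial.map R₀.subtype G) ≠ 0

/-! ## B. Relative degree one -/

/-- (B1) The polynomials `N = E * (G ∘ f)`, `E` a product of denominators. PROOF. Induction on `G` (`MvPolynomial.induction_on`). `C a`: `E = 1`, `N = C a`. Sum:
`E = E₁ * E₂`, `N = N₁ * E₂ + N₂ * E₁`. `G * X i`: `E = E₁ * f.den i`, `N = N₁ * f.num i`. -/
def CompProp : Prop :=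
  ∀ (k : Type u) [Field k] (n : ℕ) (f : RM k n), (∀ i, f.den i ≠ 0) →
    ∀ G : MvPolynomial (Fin n) k, ∃ E N : MvPolynomial (Fin n) k, E ≠ 0 ∧
      algebraMap _ (FractionRing (MvPolynomial (Fin n) k)) N =
        algebraMap _ (FractionRing (MvPolynomial (Fin n) k)) E * f.comp G ∧
      (∀ x, (∀ i, MvPolynomial.eval x (f.den i) ≠ 0) → MvPolynomial.eval x E ≠ 0) ∧
      ∀ x x', f.Next x x' →
        MvPolynomial.eval x N = MvPolynomial.eval x E * MvPolynomial.eval x' G

/-- (B2) The tails of a dense sequence are dense. PROOF. Induction on `m`. Step: if `n = 0` then `G` is a nonzero constant. If `n > 0` apply the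
hypothesis for `m` to `G * (X 0 - C (x m 0)) ≠ 0`; the index `j ≥ m` obtained is not `m`. -/
def TailProp : Prop :=
  ∀ (k : Type u) [Field k] (n : ℕ) (x : ℕ → Fin n → k), Dns x → ∀ G : MvPolynomial (Fin n) k,
    G ≠ 0 → ∀ m : ℕ, ∃ j, m ≤ j ∧ MvPolynomial.eval (x j) G ≠ 0

/-- (B3) PROOF (uses `CompProp`, `TailProp`). `f.den i` does not vanish at `x 0`. If `f.comp G = 0` then `N = 0`, so
`eval (x (j+1)) G = 0` for all `j`; by `TailProp` (`m = 1`) `G = 0`. -/
def InjProp : Prop :=
  ∀ (k : Type u) [Field k] (n : ℕ) (f : RM k n) (x : ℕ → Fin n → k), f.Orb x → Dns x →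
    (∀ i, f.den i ≠ 0) ∧ Function.Injective f.comp

/-- (B4) PROOF. Let `𝒥` be the set of the `H : TP k n` vanishing at all the points `(y i j, x j)`. It is an ideal. It contains a nonzero
element: the product over `i : Fin 3` of nonzero polynomials vanishing on the `i`-th sequence (`eval_up`, `up_surjective`). Let `G ≠ 0` be an
element of `𝒥` of minimal `natDegree` `m`. (1) `m ≥ 3`: `Dns x` gives `j` with `eval (x j) G.leadingCoeff ≠ 0`; `ev (x j) G` is
nonzero of degree `m` and has three distinct roots `y i j`. (2) Divisibility: for `H ∈ 𝒥` pseudo-division gives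
`C c * H = G * S + T`, `c` a power of `G.leadingCoeff`, `T = 0` or `natDegree T < m` (strong induction on `natDegree H`);
`T ∈ 𝒥`, so `T = 0`, and `C c` becomes a unit over the fraction field. (3) Coprime to the derivative: otherwise (characteristic zero) the
image `G_K` of `G` is not squarefree (`Polynomial.separable_iff_squarefree` or
`Polynomial.squarefree_iff..`): `G_K = A ^ 2 * B` with `natDegree A ≥ 1`; clearing denominators
`C c * G = A ^ 2 * B` in `TP k n` with `c ≠ 0` (`IsLocalization.integerNormalization`), `natDegree A ≥ 1`. Then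
`A * B ∈ 𝒥` because `(A ^ 2 * B)(x j, y) = 0` implies `(A * B)(x j, y) = 0`, and `A * B ≠ 0` has smaller degree than `G`, a
contradiction. -/
def MinProp : Prop :=
  ∀ (k : Type u) [Field k] [CharZero k] (n : ℕ) (x : ℕ → Fin n → k), Dns x →
    ∀ y : Fin 3 → ℕ → k, (∀ j i i', i ≠ i' → y i j ≠ y i' j) →
    (∀ i, ¬ Dns (fun j => (Fin.cons (y i j) (x j) : Fin (n + 1) → k))) →
    ∃ G : TP k n, (∀ i j, (ev (x j) G).eval (y i j) = 0) ∧ 3 ≤ G.natDegree ∧
      (∀ H : TP k n, (∀ i j, (ev (x j) H).eval (y i j) = 0) →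
        G.map (algebraMap _ (FractionRing (MvPolynomial (Fin n) k))) ∣
          H.map (algebraMap _ (FractionRing (MvPolynomial (Fin n) k)))) ∧
      IsCoprime (G.map (algebraMap _ (FractionRing (MvPolynomial (Fin n) k))))
        (Polynomial.derivative
          (G.map (algebraMap _ (FractionRing (MvPolynomial (Fin n) k)))))

/-- (B5) PROOF. `natDegree < 1` means that `U₀, V₀, U₁, V₁` are constants `u₀, v₀, u₁, v₁ : R[x]`. Comparing the coefficients of
`1` and `Y` (`P = α Y + β`, `Q = γ Y + δ`): `u₀ α + v₀ γ = 0`, `u₀ β + v₀ δ = ρ`, `u₁ α + v₁ γ = ρ`, `u₁ β + v₁ δ = 0`. So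
`- ρ ^ 2 = (u₀ v₁ - v₀ u₁) (α δ - β γ)`. -/
def DetProp : Prop :=
  ∀ (R : Type u) [CommRing R] (n : ℕ) (P Q : TP R n) (ρ : MvPolynomial (Fin n) R),
    P.natDegree ≤ 1 → Q.natDegree ≤ 1 → ResId P Q 1 ρ →
    ∃ Δ : MvPolynomial (Fin n) R,
      ρ ^ 2 = (P.coeff 1 * Q.coeff 0 - P.coeff 0 * Q.coeff 1) * Δ

/-- (B6) The transform of `G` is a multiple of `G`. PROOF (uses `CompProp`, `InjProp`, `DetProp`). Let `m = natDegree G`, `H` the left side (a polynomial over
`K`, `natDegree H ≤ m`). `CompProp` for `g_i = G.coeff i`: `E_i`, `N_i`. Let `E = ∏ E_i` and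
`H' = ∑ i, C ((∏_{l ≠ i} E_l) * N_i) * P ^ i * Q ^ (m - i) : TP k n`, so `H'_K = C E * H`. At `(x j, y)`, `y = y i j`, with `p = P(x j, y)`,
`q = Q(x j, y) ≠ 0`, `p = y' q` (`y' = y i (j+1)`): `H'(x j, y) = E(x j) ∑ g_i(x (j+1)) p ^ i q ^ (m - i) = E(x j) q ^ m G(x (j+1), y') = 0`. So
`G_K ∣ H'_K`, hence `G_K ∣ H`, and `H = C u * G_K` by the degrees. `u ≠ 0`, i.e. `H ≠ 0`: `σ = f.comp` is injective, so `σ (g_m) ≠ 0`. `D = α δ - β γ ≠ 0`
by `DetProp` (`P_K = α Y + β`, `Q_K = γ Y + δ`). If `γ ≠ 0` the value of `H` at `- δ / γ` is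
`σ (g_m) (- D / γ) ^ m ≠ 0`; if `γ = 0` then `δ ≠ 0`, `α ≠ 0` and the coefficient of `Y ^ m` in `H` is `σ (g_m) α ^ m`. -/
def SemiProp : Prop :=
  ∀ (k : Type u) [Field k] [CharZero k] (n : ℕ) (f : RM k n) (x : ℕ → Fin n → k), f.Orb x →
    Dns x → ∀ (P Q : TP k n) (ρ : MvPolynomial (Fin n) k), P.natDegree ≤ 1 → Q.natDegree ≤ 1 →
    ResId P Q 1 ρ → (∀ j, MvPolynomial.eval (x j) ρ ≠ 0) → ∀ y : Fin 3 → ℕ → k,
    (∀ i, (f.cons P Q).Orb (fun j => (Fin.cons (y i j) (x j) : Fin (n + 1) → k))) →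
    ∀ G : TP k n, (∀ i j, (ev (x j) G).eval (y i j) = 0) → 3 ≤ G.natDegree →
    (∀ H : TP k n, (∀ i j, (ev (x j) H).eval (y i j) = 0) →
        G.map (algebraMap _ (FractionRing (MvPolynomial (Fin n) k))) ∣
          H.map (algebraMap _ (FractionRing (MvPolynomial (Fin n) k)))) →
    ∃ u : FractionRing (MvPolynomial (Fin n) k), u ≠ 0 ∧
      ∑ i ∈ Finset.range (G.natDegree + 1), Polynomial.C (f.comp (G.coeff i)) *
        (P.map (algebraMap _ (FractionRing (MvPolynomial (Fin n) k)))) ^ i *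
        (Q.map (algebraMap _ (FractionRing (MvPolynomial (Fin n) k)))) ^ (G.natDegree - i) =
      Polynomial.C u * G.map (algebraMap _ (FractionRing (MvPolynomial (Fin n) k)))

/-- The Hessian covariant of a polynomial, regarded as a form of degree `m`. -/
noncomputable def hs {R : Type u} [CommRing R] (m : ℕ) (G : Polynomial R) : Polynomial R :=
  (m : Polynomial R) * G * Polynomial.derivative (Polynomial.derivative G) -
    ((m : Polynomial R) - 1) * Polynomial.derivative G ^ 2

/-- The Jacobian covariant of `G` and its Hessian. -/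
noncomputable def tc {R : Type u} [CommRing R] (m : ℕ) (G : Polynomial R) : Polynomial R :=
  (m : Polynomial R) * G * Polynomial.derivative (hs m G) -
    (2 * (m : Polynomial R) - 4) * Polynomial.derivative G * hs m G

/-- (B7) The absolute covariant `tc ^ 2 / hs ^ 3`. PROOF. Let `a = α X + β`, `b = γ X + δ`, `D = α δ - β γ`, and for `s ≤ 3`
`R_s = ∑ i ≤ m, i (i - 1) ⋯ (i - s + 1) r_i a ^ (i - s) b ^ (m - i)` (`Nat.descFactorial i s`), polynomials over `K`.
Differentiating: `b R_s' = (m - s) γ R_s + D R_{s+1}` for `s ≤ 2` (the coefficient of `r_i`: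
`b ((i - s) α a ^ (i-s-1) b ^ (m-i) + (m - i) γ a ^ (i-s) b ^ (m-i-1)) = (m - s) γ a ^ (i-s) b ^ (m-i) + (i - s) D a ^ (i-s-1) b ^ (m-i)`, as
`α b - γ a = D`). Let `g = C u * G = R_0`, `E = m R_0 R_2 - (m-1) R_1 ^ 2`, `E₁ = m R_0 R_3 - (m - 2) R_1 R_2`. Then
`b E' = (2 m - 2) γ E + D E₁`, `b ^ 2 hs m g = D ^ 2 E`, `b ^ 3 (hs m g)' = D ^ 2 ((2 m - 4) γ E + D E₁)`,
`b ^ 3 tc m g = D ^ 3 (m R_0 E₁ - (2 m - 4) R_1 E)` (all by `ring` / `linear_combination`). Evaluate at `Y`, where
`b = b(Y) ≠ 0`, `y = a(Y) / b(Y)`: `R_s(Y) = b ^ (m - s) R^{(s)}(y)`, so `E(Y) = b ^ (2 m - 2) hs m R (y)` and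
`(m R_0 E₁ - (2 m - 4) R_1 E)(Y) = b ^ (3 m - 3) tc m R (y)` (`(hs m R)' = m R R''' - (m - 2) R' R''`). Also `hs m (C u * G) = C u ^ 2 * hs m G`,
`tc m (C u * G) = C u ^ 3 * tc m G`. Hence `u ^ 2 b ^ 2 hs m G (Y) = D ^ 2 b ^ (2 m - 2) hs m R (y)`,
`u ^ 3 b ^ 3 tc m G (Y) = D ^ 3 b ^ (3 m - 3) tc m R (y)`; eliminate. (Alternatively first prove the two formulas for the
values at `Y` in any way you like.) -/
def HessProp : Prop :=
  ∀ (K L : Type u) [Field K] [Field L] [Algebra K L] (m : ℕ) (G R : Polynomial K)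
    (α β γ δ w : K), 3 ≤ m → G.natDegree ≤ m → R.natDegree ≤ m → α * δ - β * γ ≠ 0 → w ≠ 0 →
    ∑ i ∈ Finset.range (m + 1), Polynomial.C (R.coeff i) *
      (Polynomial.C α * Polynomial.X + Polynomial.C β) ^ i *
      (Polynomial.C γ * Polynomial.X + Polynomial.C δ) ^ (m - i) = Polynomial.C w * G →
    ∀ Y : L, algebraMap K L γ * Y + algebraMap K L δ ≠ 0 →
    ∀ y : L, y * (algebraMap K L γ * Y + algebraMap K L δ) = algebraMap K L α * Y + algebraMap K L β →
      Polynomial.aeval Y (tc m G) ^ 2 * Polynomial.aeval y (hs m R) ^ 3 =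
        Polynomial.aeval y (tc m R) ^ 2 * Polynomial.aeval Y (hs m G) ^ 3

/-- (B8) The absolute covariant is not constant. PROOF. `h = hs m G`, `T = tc m G`, `m = natDegree G ≥ 3`. A common irreducible factor `π` of
`h` and `G` divides `(m - 1) G' ^ 2`, hence `G'`, a contradiction; so `h ≠ 0` (`G` is not a unit) and `h`, `G` are coprime. Similarly `T`
and `G` are coprime (`T ≡ - (2 m - 4) G' h` modulo `G`), so `T ≠ 0`. Suppose `T ^ 2 = C c * h ^ 3`; `c ≠ 0`. Case `natDegree h = 0`: then
`h' = 0`, `T = - (2 m - 4) G' h` has degree `m - 1 ≥ 2`, but `C c * h ^ 3` has degree `0`. Case `natDegree h ≥ 1`: pass to an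
algebraic closure and let `z` be a root of `h`, of multiplicity `μ ≥ 1`; `G(z) ≠ 0`. `h'` has multiplicity `μ - 1` at `z`
(characteristic zero, `Polynomial.derivative_rootMultiplicity_of_root`), so `T = m G h' - (2 m - 4) G' h` has multiplicity
`μ - 1` (`(X - z) ^ μ` divides the second summand but not the first). So `2 (μ - 1) = 3 μ`, impossible. -/
def NonconstProp : Prop :=
  ∀ (K : Type u) [Field K] [CharZero K] (G : Polynomial K), 3 ≤ G.natDegree →
    IsCoprime G (Polynomial.derivative G) → hs G.natDegree G ≠ 0 ∧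
      ∀ c : K, tc G.natDegree G ^ 2 ≠ Polynomial.C c * hs G.natDegree G ^ 3

/-- (B9) Relative degree one: three non-dense orbits give an invariant. PROOF (uses `InjProp`, `MinProp`, `DetProp`, `SemiProp`, `HessProp`,
`NonconstProp`). `P = α Y + β`, `Q = γ Y + δ` (coefficients in `MvPolynomial (Fin n) k`), `D = α δ - β γ`; `D(x j) ≠ 0` by `DetProp`. The `y i j` are
distinct for every `j` (induction: if `p / q = p' / q'` for `y ≠ y'` then `0 = p q' - p' q = D(x j) (y - y')`). `MinProp` gives `G`,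
`SemiProp` gives `u`. Let `A = up (tc m G ^ 2)`, `B = up (hs m G ^ 3)`, `m = natDegree G`. `hs` and `tc` commute with ring
homomorphisms of the coefficients. Let `L = FractionRing (MvPolynomial (Fin (n+1)) k)`, `ι : K → L` the map induced by
`rename Fin.succ` (`IsFractionRing.map`, or `IsFractionRing.lift`), `Y = algebraMap (X 0)`, `y = algebraMap (up P) / algebraMap (up Q)`. Then
`algebraMap (up H) = (H.map (algebraMap _ K)).eval₂ ι Y` and `(f.cons P Q).comp (up H) = ((H.map f.comp).eval₂ ι y)` for all `H : TP k n`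
(check on `C` and `X`; `ι ∘ f.comp = (f.cons P Q).comp ∘ rename Fin.succ`). `algebraMap (up Q) = ι γ Y + ι δ ≠ 0` since `(γ, δ) ≠ 0`. So `HessProp` (with `R = G.map f.comp`, its
`natDegree` is `m` by `InjProp`) gives `(f.cons P Q).comp A * algebraMap B = (f.cons P Q).comp B * algebraMap A`. `B ≠ 0`, and
`A = C c * B` is impossible, by `NonconstProp` for `G_K`. -/
def MobProp : Prop :=
  ∀ (k : Type u) [Field k] [CharZero k] (n : ℕ) (f : RM k n) (x : ℕ → Fin n → k), f.Orb x →
    Dns x → ∀ (P Q : TP k n) (ρ : MvPolynomial (Fin n) k), P.natDegree ≤ 1 → Q.natDegree ≤ 1 →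
    ResId P Q 1 ρ → (∀ j, MvPolynomial.eval (x j) ρ ≠ 0) → ∀ y : Fin 3 → ℕ → k,
    (∀ i, (f.cons P Q).Orb (fun j => (Fin.cons (y i j) (x j) : Fin (n + 1) → k))) →
    (∀ i i', i ≠ i' → y i 0 ≠ y i' 0) → (f.cons P Q).NoInv →
    ∃ i, Dns (fun j => (Fin.cons (y i j) (x j) : Fin (n + 1) → k))

/-- (B10) PROOF. `ι : K → L` as in (B9) (`L = FractionRing (MvPolynomial (Fin (n+1)) k)`, induced by `rename Fin.succ`) satisfies
`(f.cons P Q).comp (rename Fin.succ A) = ι (f.comp A)` (algebra homomorphisms agreeing on the variables: `map_div₀`). Apply `NoInv` to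
`rename Fin.succ A`, `rename Fin.succ B`, and `rename_succ_injective`. -/
def InvTailProp : Prop :=
  ∀ (k : Type u) [Field k] (n : ℕ) (f : RM k n) (P Q : TP k n), (f.cons P Q).NoInv → f.NoInv

/-! ## C. Heights. `K` is any field with `Height.AdmissibleAbsValues K` -/

/-- (C1) PROOF. `mulHeight` is a product of the factors `⨆ i, v (x i)`; `⨆ i ≤ d, v y ^ i = (max (v y) 1) ^ d`. -/
def PowProp : Prop :=
  ∀ (K : Type u) [Field K] [Height.AdmissibleAbsValues K] (y : K) (d : ℕ),
    Height.logHeight (fun i : Fin (d + 1) => y ^ (i : ℕ)) = d * Height.logHeight₁ y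

/-- (C2) PROOF. Induction on `G`: `logHeight₁_add_le`, `logHeight₁_mul_le`. -/
def PolyProp : Prop :=
  ∀ (K : Type u) [Field K] [Height.AdmissibleAbsValues K] (n : ℕ) (G : MvPolynomial (Fin n) K),
    ∃ C : ℝ, 0 ≤ C ∧ ∀ x : Fin n → K,
      Height.logHeight₁ (MvPolynomial.eval x G) ≤ C * (1 + ∑ i, Height.logHeight₁ (x i))

/-- (C3) PROOF. For every absolute value `⨆ i, v (x i) ≤ ∏ i, max (v (x i)) 1`; multiply over all `v`
(`mulHeight_eq` for `x ≠ 0`, `mulHeight₁_eq`; products of finite multisets and `finprod`). Or induction on the number of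
coordinates. -/
def VecProp : Prop :=
  ∀ (K : Type u) [Field K] [Height.AdmissibleAbsValues K] (ι : Type) [Fintype ι] (x : ι → K),
    Height.logHeight x ≤ ∑ i, Height.logHeight₁ (x i)

/-- (C4) PROOF (uses `PowProp`, `PolyProp`, `VecProp`). `logHeight₁ z = logHeight ![P(x,y), Q(x,y)]` (`logHeight₁_div_eq_logHeight`). The vector
`![P(x,y), Q(x,y)]` is the image of `(y ^ i)`, `i : Fin (d+1)`, under the matrix of the coefficients of `P` and `Q` at `x`
(`logHeight_linearMap_apply_le`). The height of the matrix is at most the sum of the heights of its entries, which are values of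
polynomials at `x`. -/
def UpProp : Prop :=
  ∀ (K : Type u) [Field K] [Height.AdmissibleAbsValues K] (n : ℕ) (P Q : TP K n) (d : ℕ),
    P.natDegree ≤ d → Q.natDegree ≤ d → ∃ C : ℝ, 0 ≤ C ∧ ∀ (x : Fin n → K) (y z : K),
      (ev x Q).eval y ≠ 0 → z * (ev x Q).eval y = (ev x P).eval y →
      Height.logHeight₁ z ≤ d * Height.logHeight₁ y + C * (1 + ∑ i, Height.logHeight₁ (x i))

/-- (C5) PROOF (uses `PowProp`, `PolyProp`, `VecProp`). `p = P(x,y)`, `q = Q(x,y) ≠ 0`, `ρ = ρ(x) ≠ 0`. By `ResId` the vector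
`ρ • ![y ^ (2 d - 1), 1]` is the image under a matrix (with entries coefficients of `U₁, V₁, U₀, V₀` at `x`) of the vector
`(i, c) ↦ y ^ i * ![p, q] c`, `i : Fin d`, `c : Fin 2`, whose height is `(d - 1) logHeight₁ y + logHeight₁ z` (`logHeight_fun_mul_eq`, `PowProp`,
`logHeight₁_div_eq_logHeight`). The height of `ρ • ![y ^ (2 d - 1), 1]` is `(2 d - 1) logHeight₁ y`
(`logHeight_smul_eq_logHeight`, `logHeight₁_eq_logHeight`, `logHeight₁_pow`). Use `logHeight_linearMap_apply_le`. -/
def LowProp : Prop :=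
  ∀ (K : Type u) [Field K] [Height.AdmissibleAbsValues K] (n : ℕ) (P Q : TP K n) (d : ℕ)
    (ρ : MvPolynomial (Fin n) K), 1 ≤ d → ResId P Q d ρ →
    ∃ C : ℝ, 0 ≤ C ∧ ∀ (x : Fin n → K) (y z : K), MvPolynomial.eval x ρ ≠ 0 →
      (ev x Q).eval y ≠ 0 → z * (ev x Q).eval y = (ev x P).eval y →
      d * Height.logHeight₁ y ≤ Height.logHeight₁ z + C * (1 + ∑ i, Height.logHeight₁ (x i))

/-- (C6) PROOF (uses `PowProp`, `PolyProp`, `VecProp`). Let `s = natDegree G`, `g_i` the coefficients at `x`, `g_s ≠ 0`. If `s = 0` there is no root. Otherwise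
`g_s • (y ^ i)_{i ≤ s}` is the image of `(y ^ i)_{i < s}` under the matrix with the rows `g_s e_i` (`i < s`) and
`(- g_i)_{i < s}`; so `s logHeight₁ y ≤ (s - 1) logHeight₁ y + (height of the matrix) + const`
(`logHeight_linearMap_apply_le`, `logHeight_smul_eq_logHeight`). -/
def RootProp : Prop :=
  ∀ (K : Type u) [Field K] [Height.AdmissibleAbsValues K] (n : ℕ) (G : TP K n),
    ∃ C : ℝ, 0 ≤ C ∧ ∀ (x : Fin n → K) (y : K), MvPolynomial.eval x G.leadingCoeff ≠ 0 →
      (ev x G).eval y = 0 → Height.logHeight₁ y ≤ C * (1 + ∑ i, Height.logHeight₁ (x i))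

/-- (C7) PROOF. `a j ≤ C' ν ^ j` with `C' = a 0 + C / (ν - d)` (and `≥ 0`): `d C' ν ^ j + C ν ^ j ≤ C' ν ^ (j+1)` iff `C ≤ C' (ν - d)`. -/
def RealUpProp : Prop :=
  ∀ (a : ℕ → ℝ) (d ν C : ℝ), 0 ≤ d → d < ν → 0 ≤ C → (∀ j, 0 ≤ a j) →
    (∀ j, a (j + 1) ≤ d * a j + C * ν ^ j) → ∃ C' : ℝ, 0 ≤ C' ∧ ∀ j, a j ≤ C' * ν ^ j

/-- (C8) PROOF. `a j ≥ (a 0 - C / (d - ν)) d ^ j + (C / (d - ν)) ν ^ j ≥ d ^ j` if `a 0 ≥ 1 + C / (d - ν)`: induction,
`d * (C / (d - ν)) * ν ^ j - C ν ^ j = (C / (d - ν)) ν ^ (j+1)`. -/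
def RealLowProp : Prop :=
  ∀ (d ν C : ℝ), 0 ≤ ν → ν < d → 0 ≤ C → ∃ B : ℝ, ∀ a : ℕ → ℝ, B < a 0 →
    (∀ j, d * a j ≤ a (j + 1) + C * ν ^ j) → ∀ j, d ^ j ≤ a j

/-- (C9) PROOF (uses `UpProp`, `RealUpProp`). Induction on `Tower`. `nil`: the sum is `0`. `cons`: the points are `Fin.cons (y j) (x j)` (`RM.orb_cons'` in
`Base.lean`); `a j = logHeight₁ (y j)` satisfies `a (j+1) ≤ d a j + C (1 + C₁ ν ^ j) ≤ d a j + C (1 + C₁) ν ^ j`, `1 ≤ ν`, `d < ν`. Sum:
`Fin.sum_univ_succ`. -/
def GrowthProp : Prop :=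
  ∀ (K : Type u) [Field K] [Height.AdmissibleAbsValues K] (n : ℕ) (f : RM K n) (e : Fin n → ℕ)
    (β : MvPolynomial (Fin n) K), Tower K n f e β → ∀ x : ℕ → Fin n → K, f.Orb x →
    ∀ ν : ℝ, 1 ≤ ν → (∀ i, (e i : ℝ) < ν) →
    ∃ C : ℝ, 0 ≤ C ∧ ∀ j, ∑ i, Height.logHeight₁ (x j i) ≤ C * ν ^ j

/-- (C10) Large relative degree. PROOF (uses `TailProp`, `LowProp`, `RootProp`, `RealLowProp`, `GrowthProp`). `ν = d - 1/2 > e i`, `ν ≥ 3/2`. `GrowthProp`: `∑ i, logHeight₁ (x j i) ≤ C₁ ν ^ j`. By
`LowProp` `d a_j ≤ a_{j+1} + C (1 + C₁) ν ^ j` for `a_j = logHeight₁ (y j)`. Let `B` be the constant of `RealLowProp`; then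
`a_j ≥ d ^ j`. If the orbit is not dense there is `G : TP K n`, `G ≠ 0`, vanishing at all `(y j, x j)` (`up_surjective`, `eval_up`). For the
infinitely many `j` with `eval (x j) G.leadingCoeff ≠ 0` (`TailProp`) `RootProp` gives `a_j ≤ C₂ (1 + C₁ ν ^ j)`, a contradiction for
large `j` since `(d / ν) ^ j → ∞`. -/
def FastProp : Prop :=
  ∀ (K : Type u) [Field K] [Height.AdmissibleAbsValues K] (n : ℕ) (f : RM K n) (e : Fin n → ℕ)
    (β : MvPolynomial (Fin n) K), Tower K n f e β → ∀ x : ℕ → Fin n → K, f.Orb x → Dns x →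
    ∀ (P Q : TP K n) (d : ℕ) (ρ : MvPolynomial (Fin n) K), 2 ≤ d → (∀ i, e i < d) →
    P.natDegree ≤ d → Q.natDegree ≤ d → ResId P Q d ρ → (∀ j, MvPolynomial.eval (x j) ρ ≠ 0) →
    ∃ B : ℝ, ∀ y : ℕ → K,
      (f.cons P Q).Orb (fun j => (Fin.cons (y j) (x j) : Fin (n + 1) → K)) →
      B < Height.logHeight₁ (y 0) → Dns (fun j => (Fin.cons (y j) (x j) : Fin (n + 1) → K))

/-- (C11) PROOF. Let `G ≠ 0` vanish at all the points, `c ≠ 0` a coefficient of `G`. There is a `K`-linear map `l : k → K` with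
`l c ≠ 0` (`Module.Dual`/`exists_dual_forall_apply_ne_zero..`, or a basis: `Module.Free`). Let `G'` be obtained from `G` by applying
`l` to the coefficients; `G' ≠ 0` and `eval (x j) G' = l (eval (x j) G) = 0`, as the coordinates are in `K`. -/
def DescProp : Prop :=
  ∀ (k : Type u) [Field k] (K : Subfield k) (n : ℕ) (x : ℕ → Fin n → K), Dns x →
    Dns (fun j i => ((x j i : K) : k))

/-! ## D. Supply of points of large height in residue classes -/

/-- There are fields of definition with points of large height in the residue classes. -/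
def Supply (k : Type u) [Field k] (V : ValuationSubring k) : Prop :=
  ∀ S : Finset k, ∃ (K : Subfield k) (_ : Height.AdmissibleAbsValues K), (S : Set k) ⊆ K ∧
    ∀ (y₀ : K) (a : IsLocalRing.ResidueField V), Lies V (y₀ : k) a → ∀ B : ℝ,
      ∃ y : K, Lies V (y : k) a ∧ B < Height.logHeight₁ y

/-- (D1) PROOF. `K = ℚ(S)` (as a subfield), a number field (`IntermediateField.adjoin ℚ S` is finite dimensional). The elements `y₀ + p ^ j`,
`j ≥ 1`, are infinitely many, lie over `a`, and only finitely many of them have height `≤ B` (`Northcott`,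
`finite_setOfPred_logHeight₁_le` in `Mathlib/NumberTheory/Height/NumberField.lean`). -/
def SupplyNumProp : Prop :=
  ∀ (k : Type u) [Field k] [CharZero k] [Algebra.IsAlgebraic ℚ k] (V : ValuationSubring k) (p : ℕ)
    [Fact p.Prime] [CharP (IsLocalRing.ResidueField V) p], Supply k V

/-- (D2) PROOF. If `v` is trivial take the trivial absolute value (`AbsoluteValue.trivial`). Otherwise let `Ev` be the completion
(`AbsoluteValue.Completion`, `Mathlib/Analysis/Normed/Field/WithAbs.lean`), a complete nontrivially normed field with ultrametric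
norm; `spectralNorm Ev (AlgebraicClosure Ev)` is a multiplicative nonarchimedean norm extending the norm of `Ev`
(`Mathlib/Analysis/Normed/Unbundled/SpectralNorm.lean`, `spectralMulAlgNorm`). `L` embeds into `AlgebraicClosure Ev` over `E`
(`IsAlgClosed.lift`); restrict. -/
def AbvExtProp : Prop :=
  ∀ (E L : Type u) [Field E] [Field L] [Algebra E L] [Algebra.IsAlgebraic E L]
    (v : AbsoluteValue E ℝ), IsNonarchimedean v →
    ∃ w : AbsoluteValue L ℝ, IsNonarchimedean w ∧ ∀ x : E, w (algebraMap E L x) = v x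

/-- (D3) PROOF (uses `AbvExtProp`). `G = L ≃ₐ[E] L`. Choose an extension `w_v` of every `v ∈ nonarchAbsVal E` and let `m_v ≥ 1` be the number
of the `g : G` with `w_v ∘ g = w_v`. The new set consists of the `(w_v ∘ g) ^ m_v` (a positive power of a nonarchimedean
absolute value is one); `archAbsVal = 0`. For fixed `v` every value of `g ↦ w_v ∘ g` is taken exactly `m_v` times, and different
`v` never give the same absolute value: if `(w_v ∘ g) ^ m_v = (w_{v'} ∘ g') ^ m_{v'}` then, restricted to `E`,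
`v ^ m_v = v' ^ m_{v'}`, so `v = v'` by hypothesis. So for `x ≠ 0` the product over the new set is
`∏ᶠ v, ∏ g, w_v (g x) = ∏ᶠ v, w_v (N x) = ∏ᶠ v, v (N x) = 1` (`Algebra.norm_eq_prod_automorphisms`). Finiteness: if all nonzero coefficients
of the minimal polynomial of `x` have `v`-value `1` then `w (x) = 1` for every nonarchimedean extension `w` of `v` (`x` and
`x⁻¹` are roots of polynomials with coefficients of value `≤ 1` and leading coefficient of value `1`). Heights: in the same way, for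
`x : E`, `mulHeight₁ (x in L) = ∏ᶠ v, max (v x) 1 ^ [L : E] ≥ mulHeight₁ x`. -/
def AdmExtProp : Prop :=
  ∀ (E L : Type u) [Field E] [Field L] [Algebra E L] [FiniteDimensional E L] [IsGalois E L]
    (A : Height.AdmissibleAbsValues E), A.archAbsVal = 0 →
    (∀ v ∈ A.nonarchAbsVal, ∀ v' ∈ A.nonarchAbsVal, ∀ m m' : ℕ, 1 ≤ m → 1 ≤ m' →
      (∀ x, v x ^ m = v' x ^ m') → v = v') →
    ∃ A' : Height.AdmissibleAbsValues L, ∀ x : E,
      @Height.logHeight₁ E _ A x ≤ @Height.logHeight₁ L _ A' (algebraMap E L x)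

/-- (D4) Rational functions. PROOF. The absolute values `φ ↦ exp (- deg P * ord_P φ)` for the monic irreducible polynomials `P`, and
`φ ↦ exp (deg φ)` (`RatFunc.intDegree`). Every polynomial is a constant times a product of monic irreducible ones, which
gives finiteness and the product formula. Inequivalent: `P` has value `< 1` only at `ord_P`. `RatFunc.X` has value `exp 1` at infinity and
`≤ 1` elsewhere. -/
def AdmRatProp : Prop :=
  ∀ (F : Type u) [Field F], ∃ A : Height.AdmissibleAbsValues (RatFunc F), A.archAbsVal = 0 ∧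
    (∀ v ∈ A.nonarchAbsVal, ∀ v' ∈ A.nonarchAbsVal, ∀ m m' : ℕ, 1 ≤ m → 1 ≤ m' →
      (∀ x, v x ^ m = v' x ^ m') → v = v') ∧
    0 < @Height.logHeight₁ (RatFunc F) _ A RatFunc.X

/-- (D5) PROOF. Let `t : k` be transcendental over `ℚ`, `t ∈ V` (replace `t` by `t⁻¹`). Extend `{t}` to a transcendence basis of `k` over `ℚ`
(`exists_isTranscendenceBasis'`, …) and let `F ⊆ k` be the subfield generated by the other elements. So `t` is
transcendental over `F` and `k` is algebraic over `F(t)`, the image of `RatFunc F → k`, `X ↦ t`. Let `K` be the subfield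
generated over `F(t)` by all the conjugates over `F(t)` of the elements of `S`: a finite Galois extension (e.g. `normalClosure`, or
`IntermediateField.adjoin` of the roots of the product of the minimal polynomials: a splitting field). -/
def TransProp : Prop :=
  ∀ (k : Type u) [Field k] [IsAlgClosed k] [CharZero k], ¬ Algebra.IsAlgebraic ℚ k →
    ∀ (V : ValuationSubring k) (S : Finset k), ∃ (F : Type u) (_ : Field F) (K : Subfield k)
      (_ : Algebra (RatFunc F) K), FiniteDimensional (RatFunc F) K ∧ IsGalois (RatFunc F) K ∧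
      (S : Set k) ⊆ K ∧ ((algebraMap (RatFunc F) K RatFunc.X : K) : k) ∈ V

/-- (D6) PROOF (uses `AdmExtProp`, `AdmRatProp`, `TransProp`). `K` as in `TransProp`, with the absolute values of `AdmExtProp`, `t` the image of `X`, `logHeight₁ t > 0`. The elements
`y₀ + p * t ^ j` lie over `a` and their heights tend to infinity:
`j * logHeight₁ t = logHeight₁ (t ^ j) ≤ logHeight₁ (y₀ + p * t ^ j) + logHeight₁ (- y₀) + logHeight₁ (p⁻¹) + const`
(`logHeight₁_mul_le`, `logHeight₁_add_le`). -/
def SupplyFunProp : Prop :=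
  ∀ (k : Type u) [Field k] [IsAlgClosed k] [CharZero k], ¬ Algebra.IsAlgebraic ℚ k →
    ∀ (V : ValuationSubring k) (p : ℕ) [Fact p.Prime] [CharP (IsLocalRing.ResidueField V) p],
      Supply k V

/-! ## E. From the final statement to towers -/

/-- (E1) PROOF. `MvPolynomial (Fin n) k` is a UFD and `P`, `Q` are relatively prime in `TP k n`, so their images in `K[Y]` are
coprime (Gauss: if `g` of positive degree divides both images, then its primitive integral multiple divides both `P` and `Q`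
up to units of `K`, `Polynomial.IsPrimitive.dvd_iff_fraction_map_dvd_fraction_map`, contents; note that `P = 0` or `Q = 0`
forces `d = 0`). So there are `U, W` over `K` with `U P + W Q = 1`, and one may take
`natDegree U < d`, `natDegree W < d`: divide `U` by `Q` if `natDegree Q = d` (then `W P`-degree forces `natDegree W < d`), otherwise
`natDegree P = d`, divide `W` by `P`; the degree of the other factor is forced because `natDegree (U P + W Q) = 0`. For the second
identity use the reversed polynomials `P* = Y ^ d P(1/Y)`, `Q*` (`Polynomial.reflect d`), which are coprime over `K` and of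
maximal degree `≤ d`, not both divisible by ... : a common root `0` is impossible as `max (natDegree P) (natDegree Q) = d`; a Bezout identity
`U* P* + W* Q* = 1` with degrees `< d` reflects to `U₁ P + W₁ Q = Y ^ (2 d - 1)` (`reflect (d-1)` of `U*`; `Polynomial.reflect_mul`). Clear
denominators with a common `ρ ≠ 0`. Alternative: linear algebra, the map `(U, W) ↦ U P + W Q` from pairs of polynomials of degree
`< d` to polynomials of degree `< 2 d` over `K` is injective (`P, Q` coprime, `max` of the degrees `= d`), hence surjective, as the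
dimensions are equal. -/
def ResOfProp : Prop :=
  ∀ (k : Type u) [Field k] (n : ℕ) (P Q : TP k n) (d : ℕ), IsRelPrime P Q →
    d = max P.natDegree Q.natDegree → 1 ≤ d → ∃ ρ : MvPolynomial (Fin n) k, ρ ≠ 0 ∧ ResId P Q d ρ

/-- (E2) PROOF. If `P Q' = P' Q` then `P ∣ P' Q`, so `P ∣ P'` (in the UFD `TP k n`, relatively prime) and `P' = 0` by the degree;
similarly `Q' = 0` (if `P = 0` then `Q` is a unit, so a constant). Characteristic zero: `P`, `Q` are constants in `Y`, a contradiction. -/
def WrOfProp : Prop :=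
  ∀ (k : Type u) [Field k] [CharZero k] (n : ℕ) (P Q : TP k n), IsRelPrime P Q →
    1 ≤ max P.natDegree Q.natDegree → Wr P Q ≠ 0

/-- (E3) PROOF (uses `ResOfProp`, `WrOfProp`). Induction on `N`. `N = 0`: `Tower.nil`, `β = 1`. `N + 1`: for `i = succ i'` the variable `0` does not occur in
`P i`, `Q i`, so `P i = rename Fin.succ (P' i')`, `Q i = rename Fin.succ (Q' i')` (`MvPolynomial.exists_rename_eq_of_vars_subset_range`); `P'`, `Q'` satisfy the
hypotheses (`IsRelPrime` because `rename` is injective and a unit `rename g` comes from a unit; `degreeOf_rename_of_injective`;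
`vars_rename`/`mem_vars_rename`). Top: `P 0 = up P₀`, `Q 0 = up Q₀`, `natDegree P₀ = degreeOf 0 (P 0)`
(`MvPolynomial.natDegree_finSuccEquiv`), `IsRelPrime P₀ Q₀` (`finSuccEquiv` is an isomorphism). `⟨P, Q⟩ = RM.cons ⟨P', Q'⟩ P₀ Q₀`,
`e = Fin.cons (e 0) (fun i => e i.succ)`. -/
def TowerOfProp : Prop :=
  ∀ (k : Type u) [Field k] [CharZero k] (N : ℕ) (P Q : Fin N → MvPolynomial (Fin N) k)
    (e : Fin N → ℕ), (∀ i, ∀ j ∈ (P i).vars, i ≤ j) → (∀ i, ∀ j ∈ (Q i).vars, i ≤ j) →
    (∀ i, IsRelPrime (P i) (Q i)) → (∀ i, e i = max ((P i).degreeOf i) ((Q i).degreeOf i)) →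
    (∀ i, 1 ≤ e i) → (∀ i, e i = 1 ∨ ∀ j, i < j → e j < e i) →
    ∃ β : MvPolynomial (Fin N) k, Tower k N ⟨P, Q⟩ e β

end Pool.Agent.Lib.MP_16285c_ag
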