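import Pool.Agent.Lib.MP_16285c_ag.Spec

/-!
# MP_16285c: a tower over a field is defined over a finitely generated subring
-/

set_option autoImplicit false

namespace Pool.Agent.Lib.MP_16285c_ag

universe u

namespace SpreadAux

variable {k : Type u} [Field k]

/-- `A` holds for all subrings which contain a suitable finite set. -/
def Ev (A : Subring k → Prop) : Prop :=
  ∃ S : Finset k, ∀ R₀ : Subring k, (S : Set k) ⊆ R₀ → A R₀

theorem Ev.and {A B : Subring k → Prop} (hA : Ev A) (hB : Ev B) : Ev fun R₀ => A R₀ ∧ B R₀ := by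
  classical
  obtain ⟨S, hS⟩ := hA
  obtain ⟨T, hT⟩ := hB
  refine ⟨S ∪ T, fun R₀ h => ?_⟩
  rw [Finset.coe_union, Set.union_subset_iff] at h
  exact ⟨hS R₀ h.1, hT R₀ h.2⟩

theorem Ev.mono {A B : Subring k → Prop} (hA : Ev A) (h : ∀ R₀, A R₀ → B R₀) : Ev B := by
  obtain ⟨S, hS⟩ := hA
  exact ⟨S, fun R₀ h1 => h R₀ (hS R₀ h1)⟩

theorem liftM {n : ℕ} (G : MvPolynomial (Fin n) k) :
    Ev fun R₀ : Subring k => ∃ G₀ : MvPolynomial (Fin n) R₀, MvPolynomial.map R₀.subtype G₀ = G := by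
  induction G using MvPolynomial.induction_on with
  | C a =>
    refine ⟨{a}, fun R₀ h => ?_⟩
    rw [Finset.coe_singleton, Set.singleton_subset_iff] at h
    exact ⟨MvPolynomial.C ⟨a, h⟩, by rw [MvPolynomial.map_C]; rfl⟩
  | add p q hp hq =>
    refine (hp.and hq).mono ?_
    rintro R₀ ⟨⟨p₀, hp₀⟩, q₀, hq₀⟩
    exact ⟨p₀ + q₀, by rw [map_add, hp₀, hq₀]⟩
  | mul_X p i hp =>
    refine hp.mono ?_
    rintro R₀ ⟨p₀, hp₀⟩
    exact ⟨p₀ * MvPolynomial.X i, by rw [map_mul, hp₀, MvPolynomial.map_X]⟩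

theorem liftP {n : ℕ} (P : TP k n) :
    Ev fun R₀ : Subring k => ∃ P₀ : TP R₀ n, P₀.map (MvPolynomial.map R₀.subtype) = P := by
  induction P using Polynomial.induction_on' with
  | add p q hp hq =>
    refine (hp.and hq).mono ?_
    rintro R₀ ⟨⟨p₀, hp₀⟩, q₀, hq₀⟩
    exact ⟨p₀ + q₀, by rw [Polynomial.map_add, hp₀, hq₀]⟩
  | monomial m a =>
    refine (liftM a).mono ?_
    rintro R₀ ⟨a₀, ha₀⟩
    exact ⟨Polynomial.monomial m a₀, by rw [Polynomial.map_monomial, ha₀]⟩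

section inj

variable {n : ℕ} (R₀ : Subring k)

theorem injM : Function.Injective
    (MvPolynomial.map R₀.subtype : MvPolynomial (Fin n) R₀ →+* MvPolynomial (Fin n) k) :=
  MvPolynomial.map_injective _ Subtype.val_injective

theorem injP : Function.Injective (fun P : TP R₀ n => P.map (MvPolynomial.map R₀.subtype)) :=
  Polynomial.map_injective _ (injM R₀)

theorem deg (P : TP R₀ n) : (P.map (MvPolynomial.map R₀.subtype)).natDegree = P.natDegree :=
  Polynomial.natDegree_map_eq_of_injective (injM R₀) P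

theorem map_Wr (P Q : TP R₀ n) : (Wr P Q).map (MvPolynomial.map R₀.subtype) =
    Wr (P.map (MvPolynomial.map R₀.subtype)) (Q.map (MvPolynomial.map R₀.subtype)) := by
  unfold Wr
  rw [Polynomial.map_sub, Polynomial.map_mul, Polynomial.map_mul, Polynomial.derivative_map,
    Polynomial.derivative_map]

theorem res {P₀ Q₀ U₀ V₀ U₁ V₁ : TP R₀ n} {d : ℕ} {ρ₀ : MvPolynomial (Fin n) R₀}
    (h1 : (U₀.map (MvPolynomial.map R₀.subtype)).natDegree < d)
    (h2 : (V₀.map (MvPolynomial.map R₀.subtype)).natDegree < d)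
    (h3 : (U₁.map (MvPolynomial.map R₀.subtype)).natDegree < d)
    (h4 : (V₁.map (MvPolynomial.map R₀.subtype)).natDegree < d)
    (h5 : U₀.map (MvPolynomial.map R₀.subtype) * P₀.map (MvPolynomial.map R₀.subtype) +
      V₀.map (MvPolynomial.map R₀.subtype) * Q₀.map (MvPolynomial.map R₀.subtype) =
      Polynomial.C (MvPolynomial.map R₀.subtype ρ₀))
    (h6 : U₁.map (MvPolynomial.map R₀.subtype) * P₀.map (MvPolynomial.map R₀.subtype) +
      V₁.map (MvPolynomial.map R₀.subtype) * Q₀.map (MvPolynomial.map R₀.subtype) =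
      Polynomial.C (MvPolynomial.map R₀.subtype ρ₀) * Polynomial.X ^ (2 * d - 1)) :
    ResId P₀ Q₀ d ρ₀ := by
  refine ⟨U₀, V₀, U₁, V₁, ?_, ?_, ?_, ?_, ?_, ?_⟩
  · rwa [deg] at h1
  · rwa [deg] at h2
  · rwa [deg] at h3
  · rwa [deg] at h4
  · apply injP R₀
    change (U₀ * P₀ + V₀ * Q₀).map (MvPolynomial.map R₀.subtype) =
      (Polynomial.C ρ₀).map (MvPolynomial.map R₀.subtype)
    rw [Polynomial.map_add, Polynomial.map_mul, Polynomial.map_mul, h5, Polynomial.map_C]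
  · apply injP R₀
    change (U₁ * P₀ + V₁ * Q₀).map (MvPolynomial.map R₀.subtype) =
      (Polynomial.C ρ₀ * Polynomial.X ^ (2 * d - 1)).map (MvPolynomial.map R₀.subtype)
    rw [Polynomial.map_add, Polynomial.map_mul, Polynomial.map_mul, h6, Polynomial.map_mul,
      Polynomial.map_C, Polynomial.map_pow, Polynomial.map_X]

end inj

end SpreadAux

open SpreadAux in
/-- **A2.** A tower over a field is defined over every subring containing a suitable finite set. -/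
theorem spreadP : SpreadProp.{u} := by
  intro k _ n f e β h
  induction h with
  | nil f e =>
    intro b
    refine (liftM b).mono ?_
    rintro R₀ ⟨b₀, hb₀⟩
    refine ⟨⟨fun i => i.elim0, fun i => i.elim0⟩, 1, b₀, Tower.nil _ _, ?_, map_one _, hb₀⟩
    cases f
    unfold RM.map
    congr 1
    · funext i
      exact i.elim0
    · funext i
      exact i.elim0
  | @cons n f e β P Q d ρ hf hd hP hQ hρ hW hres he ih =>
    intro b
    obtain ⟨U₀, V₀, U₁, V₁, h1, h2, h3, h4, h5, h6⟩ := hres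
    have ih' : Ev fun R₀ : Subring k => ∃ (f₀ : RM R₀ n) (β₀ b₀ : MvPolynomial (Fin n) R₀),
        Tower R₀ n f₀ e β₀ ∧ f₀.map R₀.subtype = f ∧ MvPolynomial.map R₀.subtype β₀ = β ∧
        MvPolynomial.map R₀.subtype b₀ = 0 := ih 0
    refine ((ih'.and ((liftM b).and (liftM ρ))).and (((liftP P).and (liftP Q)).and
      (((liftP U₀).and (liftP V₀)).and ((liftP U₁).and (liftP V₁))))).mono ?_
    rintro R₀ ⟨⟨⟨f₀, β₀, _, hT, rfl, rfl, _⟩, ⟨b₀, hb₀⟩, ⟨ρ₀, rfl⟩⟩, ⟨⟨P₀, rfl⟩, ⟨Q₀, rfl⟩⟩,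
      ⟨⟨U₀', rfl⟩, ⟨V₀', rfl⟩⟩, ⟨U₁', rfl⟩, ⟨V₁', rfl⟩⟩
    refine ⟨f₀.cons P₀ Q₀, MvPolynomial.rename Fin.succ (β₀ * ρ₀), b₀,
      Tower.cons P₀ Q₀ d ρ₀ hT hd ?_ ?_ ?_ ?_ (res R₀ h1 h2 h3 h4 h5 h6) he, ?_, ?_, hb₀⟩
    · rwa [deg] at hP
    · rwa [deg] at hQ
    · rintro rfl
      exact hρ (map_zero _)
    · intro h0
      apply hW
      rw [← map_Wr, h0, Polynomial.map_zero]
    · rw [RM.map_cons]
    · rw [MvPolynomial.map_rename, map_mul]

end Pool.Agent.Lib.MP_16285c_ag
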