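import Pool.Agent.Lib.MP_16285c_ag.Spec

/-!
# Supply of points of large height over transcendental fields (helper62)
-/

set_option autoImplicit false

namespace Pool.Agent.Lib.MP_16285c_ag

universe u

namespace SupplyFunAux

/-- if `t` has positive height, then `y₀ + c * t ^ j`, `c ≠ 0`, has large height for a suitable `j` -/
theorem large {K : Type u} [Field K] [Height.AdmissibleAbsValues K] (t y₀ c : K) (hc : c ≠ 0)
    (ht : 0 < Height.logHeight₁ t) (B : ℝ) :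
    ∃ j : ℕ, B < Height.logHeight₁ (y₀ + c * t ^ j) := by
  obtain ⟨j, hj⟩ := exists_nat_gt
    ((B + Height.totalWeight K * Real.log 2 + Height.logHeight₁ (-y₀) +
      Height.logHeight₁ c⁻¹) / Height.logHeight₁ t)
  refine ⟨j, ?_⟩
  rw [div_lt_iff₀ ht] at hj
  have h1 : Height.logHeight₁ (t ^ j) = j * Height.logHeight₁ t := Height.logHeight₁_pow t j
  have h2 : t ^ j = c⁻¹ * ((y₀ + c * t ^ j) + (-y₀)) := by
    field_simp
    ring
  have h3 : Height.logHeight₁ (t ^ j) ≤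
      Height.logHeight₁ c⁻¹ + Height.logHeight₁ ((y₀ + c * t ^ j) + (-y₀)) := by
    conv_lhs => rw [h2]
    exact Height.logHeight₁_mul_le _ _
  have h4 := Height.logHeight₁_add_le (y₀ + c * t ^ j) (-y₀)
  linarith

end SupplyFunAux

/-- **Supply over transcendental fields.** -/
theorem supplyFunP (h1 : AdmExtProp.{u}) (h2 : AdmRatProp.{u}) (h3 : TransProp.{u}) :
    SupplyFunProp.{u} := by
  intro k _ _ _ hna V p hp _ S
  obtain ⟨F, hF, K, hAlg, hfd, hgal, hS, ht⟩ := h3 k hna V S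
  obtain ⟨A, hA0, hAne, hAX⟩ := h2 F
  obtain ⟨A', hA'⟩ := h1 (RatFunc F) K A hA0 hAne
  refine ⟨K, A', hS, ?_⟩
  rintro y₀ a ⟨h0, h5⟩ B
  have ht1 : 0 < Height.logHeight₁ (algebraMap (RatFunc F) K RatFunc.X) :=
    lt_of_lt_of_le hAX (hA' RatFunc.X)
  have hp0 : (p : K) ≠ 0 := Nat.cast_ne_zero.mpr hp.out.ne_zero
  obtain ⟨j, hj⟩ := SupplyFunAux.large (algebraMap (RatFunc F) K RatFunc.X) y₀ (p : K) hp0 ht1 B
  refine ⟨_, ?_, hj⟩
  set t : K := algebraMap (RatFunc F) K RatFunc.X with ht_def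
  have htV : (t : k) ^ j ∈ V := pow_mem ht j
  have hpV : (p : k) * (t : k) ^ j ∈ V := mul_mem (natCast_mem V p) htV
  have hcoe : ((y₀ + (p : K) * t ^ j : K) : k) = (y₀ : k) + (p : k) * (t : k) ^ j := by
    push_cast
    rfl
  have hmem : ((y₀ + (p : K) * t ^ j : K) : k) ∈ V := by
    rw [hcoe]
    exact add_mem h0 hpV
  refine ⟨hmem, ?_⟩
  have h2 : IsLocalRing.residue V (⟨(p : k) * (t : k) ^ j, hpV⟩ : V) = 0 := by
    have h3 : (⟨(p : k) * (t : k) ^ j, hpV⟩ : V) = (p : V) * ⟨(t : k) ^ j, htV⟩ := by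
      apply Subtype.ext
      push_cast
      rfl
    rw [h3, map_mul, map_natCast, CharP.cast_eq_zero, zero_mul]
  have h4 : (⟨((y₀ + (p : K) * t ^ j : K) : k), hmem⟩ : V) =
      ⟨y₀, h0⟩ + ⟨(p : k) * (t : k) ^ j, hpV⟩ := Subtype.ext hcoe
  rw [h4, map_add, h5, h2, add_zero]

end Pool.Agent.Lib.MP_16285c_ag
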