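import Pool.Agent.Lib.MP_16285c_ag.Spec

/-!
# Supply of points of large height over the algebraic numbers (helper25)
-/

set_option autoImplicit false

namespace Pool.Agent.Lib.MP_16285c_ag

universe u

namespace SupplyNumAux

/-- a number field contains `y₀ + p ^ (j + 1)` of large height -/
theorem large {K : Type u} [Field K] [NumberField K] (y₀ : K) (p : ℕ) (hp : 2 ≤ p) (B : ℝ) :
    ∃ j : ℕ, B < Height.logHeight₁ (y₀ + (p : K) ^ (j + 1)) := by
  by_contra hcon
  push Not at hcon
  have hfin : {x : K | Height.logHeight₁ x ≤ B}.Finite :=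
    NumberField.finite_setOfPred_logHeight₁_le K B
  have hinj : Function.Injective fun j : ℕ => y₀ + (p : K) ^ (j + 1) := by
    intro i j hij
    have h1 : (p : K) ^ (i + 1) = (p : K) ^ (j + 1) := add_left_cancel hij
    have h2 : p ^ (i + 1) = p ^ (j + 1) := by exact_mod_cast h1
    have h3 := Nat.pow_right_injective hp h2
    omega
  exact Set.infinite_range_of_injective hinj (hfin.subset (by
    rintro _ ⟨j, rfl⟩
    exact hcon j))

end SupplyNumAux

/-- **Supply over the algebraic numbers.** -/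
theorem supplyNumP : SupplyNumProp.{u} := by
  intro k _ _ _ V p hp _ S
  have hfd : FiniteDimensional ℚ (IntermediateField.adjoin ℚ (S : Set k)) :=
    IntermediateField.finiteDimensional_adjoin fun x _ => Algebra.IsIntegral.isIntegral x
  have hnf : NumberField (IntermediateField.adjoin ℚ (S : Set k)) := {}
  refine ⟨(IntermediateField.adjoin ℚ (S : Set k)).toSubfield,
    @NumberField.instAdmissibleAbsValues _ _ hnf, ?_, ?_⟩
  · exact IntermediateField.subset_adjoin ℚ (S : Set k)
  · intro y₀ a ⟨h0, h1⟩ B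
    obtain ⟨j, hj⟩ := SupplyNumAux.large (K := IntermediateField.adjoin ℚ (S : Set k)) y₀ p
      hp.out.two_le B
    refine ⟨_, ?_, hj⟩
    have hpV : (p : k) ^ (j + 1) ∈ V := pow_mem (natCast_mem V p) _
    refine ⟨add_mem h0 hpV, ?_⟩
    have h2 : IsLocalRing.residue V (⟨(p : k) ^ (j + 1), hpV⟩ : V) = 0 := by
      have h3 : (⟨(p : k) ^ (j + 1), hpV⟩ : V) = (p : V) ^ (j + 1) := by
        apply Subtype.ext
        push_cast
        rfl
      rw [h3, map_pow, map_natCast, CharP.cast_eq_zero, zero_pow (Nat.succ_ne_zero j)]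
    have h4 : (⟨(y₀ : k) + (p : k) ^ (j + 1), add_mem h0 hpV⟩ : V) =
        ⟨y₀, h0⟩ + ⟨(p : k) ^ (j + 1), hpV⟩ := rfl
    calc _ = IsLocalRing.residue V (⟨(y₀ : k) + (p : k) ^ (j + 1), add_mem h0 hpV⟩ : V) := rfl
      _ = a := by rw [h4, map_add, h1, h2, add_zero]

end Pool.Agent.Lib.MP_16285c_ag
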