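import Pool.Agent.Lib.MP_16285c_ag.Spec

/-!
# Tails of dense sequences are dense (B2) (helper49)
-/

set_option autoImplicit false

namespace Pool.Agent.Lib.MP_16285c_ag

universe u

theorem tailP : TailProp.{u} := by
  intro k _ n x hx G hG m
  induction m generalizing G with
  | zero =>
    obtain ⟨j, hj⟩ := hx G hG
    exact ⟨j, Nat.zero_le _, hj⟩
  | succ m ih =>
    rcases n with _ | n
    · obtain ⟨j, hj⟩ := hx G hG
      refine ⟨m + 1, le_rfl, ?_⟩
      have h1 : x (m + 1) = x j := Subsingleton.elim _ _
      rwa [h1]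
    · have h0 : (MvPolynomial.X 0 - MvPolynomial.C (x m 0) : MvPolynomial (Fin (n + 1)) k) ≠ 0 := by
        intro h
        have h1 := congrArg (MvPolynomial.eval fun _ => x m 0 + 1) h
        simp at h1
      obtain ⟨j, hj, he⟩ := ih (G * (MvPolynomial.X 0 - MvPolynomial.C (x m 0)))
        (mul_ne_zero hG h0)
      refine ⟨j, ?_, fun h => he ?_⟩
      · rcases hj.eq_or_lt with rfl | h
        · exact absurd (by simp) he
        · exact h
      · rw [map_mul, h, zero_mul]

end Pool.Agent.Lib.MP_16285c_ag
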