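import Pool.Agent.Lib.MP_16285c_ag.Spec

set_option autoImplicit false

namespace Pool.Agent.Lib.MP_16285c_ag

universe u

namespace TowerOfAux

theorem exists_tail {k : Type u} [Field k] {N : ℕ} (p : MvPolynomial (Fin (N + 1)) k) (i : Fin N)
    (h : ∀ j ∈ p.vars, i.succ ≤ j) : ∃ q : MvPolynomial (Fin N) k,
      MvPolynomial.rename Fin.succ q = p ∧ ∀ j ∈ q.vars, i ≤ j := by
  classical
  obtain ⟨q, hq⟩ := MvPolynomial.exists_rename_eq_of_vars_subset_range p Fin.succ
    (Fin.succ_injective N) (by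
      intro j hj
      have h1 := h j hj
      have h2 : j ≠ 0 := by
        rintro rfl
        exact absurd h1 (by simp)
      exact ⟨j.pred h2, Fin.succ_pred j h2⟩)
  refine ⟨q, hq, fun j hj => ?_⟩
  have h3 : j.succ ∈ p.vars := by
    rw [← hq, MvPolynomial.vars_def, Multiset.mem_toFinset,
      MvPolynomial.degrees_rename_of_injective (Fin.succ_injective N)]
    rw [MvPolynomial.vars_def, Multiset.mem_toFinset] at hj
    exact Multiset.mem_map_of_mem _ hj
  exact Fin.succ_le_succ_iff.1 (h _ h3)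

theorem relPrime_tail {k : Type u} [Field k] {N : ℕ} (p q : MvPolynomial (Fin N) k)
    (h : IsRelPrime (MvPolynomial.rename (Fin.succ : Fin N → Fin (N + 1)) p)
      (MvPolynomial.rename Fin.succ q)) : IsRelPrime p q := by
  intro g hp hq
  have h1 : IsUnit (MvPolynomial.rename (Fin.succ : Fin N → Fin (N + 1)) g) :=
    h (map_dvd _ hp) (map_dvd _ hq)
  rw [MvPolynomial.isUnit_iff_eq_C_of_isReduced] at h1 ⊢
  obtain ⟨c, hc, h2⟩ := h1
  exact ⟨c, hc, rename_succ_injective (by rw [h2, MvPolynomial.rename_C])⟩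

end TowerOfAux

theorem towerOfP (h1 : ResOfProp.{u}) (h2 : WrOfProp.{u}) : TowerOfProp.{u} := by
  intro k _ _ N
  induction N with
  | zero =>
    intro P Q e _ _ _ _ _ _
    exact ⟨1, Tower.nil _ _⟩
  | succ N ih =>
    intro P Q e hP hQ hcop he hpos hrec
    choose P' hP' hP'v using fun i : Fin N => TowerOfAux.exists_tail (P i.succ) i (hP i.succ)
    choose Q' hQ' hQ'v using fun i : Fin N => TowerOfAux.exists_tail (Q i.succ) i (hQ i.succ)
    obtain ⟨β, hβ⟩ := ih P' Q' (fun i => e i.succ) hP'v hQ'v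
      (fun i => TowerOfAux.relPrime_tail _ _ (by rw [hP', hQ']; exact hcop i.succ))
      (fun i => by
        rw [he i.succ, ← hP' i, ← hQ' i, MvPolynomial.degreeOf_rename_of_injective
          (Fin.succ_injective N), MvPolynomial.degreeOf_rename_of_injective (Fin.succ_injective N)])
      (fun i => hpos i.succ)
      (fun i => (hrec i.succ).imp_right fun h j hij => h j.succ (Fin.succ_lt_succ_iff.2 hij))
    obtain ⟨P₀, hP₀⟩ := up_surjective (P 0)
    obtain ⟨Q₀, hQ₀⟩ := up_surjective (Q 0)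
    have hdP : P₀.natDegree = (P 0).degreeOf 0 := by
      rw [← hP₀, ← MvPolynomial.natDegree_finSuccEquiv, finSuccEquiv_up]
    have hdQ : Q₀.natDegree = (Q 0).degreeOf 0 := by
      rw [← hQ₀, ← MvPolynomial.natDegree_finSuccEquiv, finSuccEquiv_up]
    have hrel : IsRelPrime P₀ Q₀ := by
      intro g hp hq
      have h3 : up g ∣ P 0 := by rw [← hP₀]; exact map_dvd _ hp
      have h4 : up g ∣ Q 0 := by rw [← hQ₀]; exact map_dvd _ hq
      have h5 : IsUnit (up g) := hcop 0 h3 h4
      have h6 := h5.map (MvPolynomial.finSuccEquiv k N)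
      rwa [finSuccEquiv_up] at h6
    have hmax : e 0 = max P₀.natDegree Q₀.natDegree := by rw [hdP, hdQ]; exact he 0
    obtain ⟨ρ, hρ, hres⟩ := h1 k N P₀ Q₀ (e 0) hrel hmax (hpos 0)
    have hW := h2 k N P₀ Q₀ hrel (by rw [← hmax]; exact hpos 0)
    refine ⟨MvPolynomial.rename Fin.succ (β * ρ), ?_⟩
    have hT := Tower.cons P₀ Q₀ (e 0) ρ hβ (hpos 0) (by rw [hmax]; exact le_max_left _ _)
      (by rw [hmax]; exact le_max_right _ _) hρ hW hres
      ((hrec 0).imp_right fun h i => h i.succ (Fin.succ_pos i))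
    have hRM : (RM.mk P' Q').cons P₀ Q₀ = RM.mk P Q := by
      rw [RM.cons, RM.mk.injEq]
      constructor
      · funext i
        refine Fin.cases ?_ (fun i => ?_) i
        · exact hP₀
        · exact hP' i
      · funext i
        refine Fin.cases ?_ (fun i => ?_) i
        · exact hQ₀
        · exact hQ' i
    have hE : (Fin.cons (α := fun _ => ℕ) (e 0) (fun i => e i.succ) : Fin (N + 1) → ℕ) = e := by
      funext i
      refine Fin.cases ?_ (fun i => ?_) i
      · rfl
      · rfl
    rw [hRM, hE] at hT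
    exact hT

end Pool.Agent.Lib.MP_16285c_ag
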