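import Pool.Agent.Lib.MP_16285c_ag.Spec

/-!
# Fields of definition over a field of rational functions (helper62)
-/

set_option autoImplicit false

namespace Pool.Agent.Lib.MP_16285c_ag

universe u

namespace TransAux

open IntermediateField.algebraAdjoinAdjoin in
/-- a transcendental `t` is transcendental over a subfield `F` such that `k` is algebraic over
`F(t)` -/
theorem base (k : Type u) [Field k] [CharZero k] (t : k) (ht : Transcendental ℚ t) :
    ∃ (F : Type u) (_ : Field F) (φ : RatFunc F →+* k), φ RatFunc.X = t ∧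
      ∀ z : k, ∃ p : Polynomial (RatFunc F), p ≠ 0 ∧ p.eval₂ φ z = 0 := by
  have h1 : AlgebraicIndepOn ℚ id ({t} : Set k) :=
    (algebraicIndependent_singleton_iff (⟨t, rfl⟩ : ({t} : Set k))).mpr ht
  obtain ⟨T, hT1, hT⟩ := exists_isTranscendenceBasis_superset h1
  have htT : t ∈ T := hT1 rfl
  set s : Set T := {j | (j : k) ≠ t} with hs
  set R₁ := Algebra.adjoin ℚ (((↑) : T → k) '' s) with hR₁
  have h2 : Transcendental R₁ t :=
    hT.1.transcendental_adjoin (s := s) (i := ⟨t, htT⟩) (by simp [hs])
  let F := IntermediateField.adjoin ℚ (((↑) : T → k) '' s)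
  have h3 : Transcendental F t := by
    intro h
    exact h2 ((IsFractionRing.isAlgebraic_iff R₁ F k).mpr h)
  let φ : RatFunc F →+* k := ((IntermediateField.val _ : IntermediateField.adjoin F {t} →ₐ[F] k) :
    IntermediateField.adjoin F {t} →+* k).comp
      (RatFunc.algEquivOfTranscendental t h3 : RatFunc F →+* IntermediateField.adjoin F {t})
  have hφX : φ RatFunc.X = t := by
    simp [φ]
  refine ⟨F, inferInstance, φ, hφX, ?_⟩
  have hφF : ∀ a : F, φ (algebraMap F (RatFunc F) a) = a := by
    intro a
    have h5 : (RatFunc.algEquivOfTranscendental t h3) (algebraMap F (RatFunc F) a) =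
        algebraMap F (IntermediateField.adjoin F {t}) a := AlgEquiv.commutes _ a
    change ((RatFunc.algEquivOfTranscendental t h3 (algebraMap F (RatFunc F) a) :
      IntermediateField.adjoin F {t}) : k) = a
    rw [h5]
    rfl
  have hmem : ∀ z ∈ Algebra.adjoin ℚ (Set.range ((↑) : T → k)), z ∈ φ.fieldRange := by
    intro z hz
    induction hz using Algebra.adjoin_induction with
    | mem x hx =>
      obtain ⟨j, rfl⟩ := hx
      by_cases hj : (j : k) = t
      · exact ⟨RatFunc.X, hφX.trans hj.symm⟩
      · have h6 : (j : k) ∈ IntermediateField.adjoin ℚ (((↑) : T → k) '' s) :=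
          IntermediateField.subset_adjoin ℚ _ ⟨j, hj, rfl⟩
        exact ⟨algebraMap F (RatFunc F) ⟨j, h6⟩, hφF ⟨j, h6⟩⟩
    | algebraMap r =>
      exact ⟨algebraMap F (RatFunc F) (algebraMap ℚ F r), hφF _⟩
    | add x y _ _ hx hy => exact add_mem hx hy
    | mul x y _ _ hx hy => exact mul_mem hx hy
  let e : RatFunc F ≃+* φ.fieldRange :=
    RingEquiv.ofBijective φ.rangeRestrictField φ.rangeRestrictField_bijective
  let g : Algebra.adjoin ℚ (Set.range ((↑) : T → k)) →+* RatFunc F :=
    (e.symm : φ.fieldRange →+* RatFunc F).comp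
      { toFun := fun z => ⟨z, hmem z z.2⟩
        map_one' := rfl
        map_mul' := fun _ _ => rfl
        map_zero' := rfl
        map_add' := fun _ _ => rfl }
  have hφe : ∀ z, φ (e.symm z) = z := by
    intro z
    have h7 : (e (e.symm z) : k) = z := by rw [e.apply_symm_apply]
    exact h7
  have hφg : φ.comp g = algebraMap _ k := by
    ext z
    exact hφe _
  have hginj : Function.Injective g := by
    intro a b hab
    have h8 : (φ.comp g) a = (φ.comp g) b := congrArg φ hab
    rw [hφg] at h8
    exact Subtype.ext h8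
  intro z
  obtain ⟨p, hp, hpz⟩ := hT.isAlgebraic.isAlgebraic z
  refine ⟨p.map g, (Polynomial.map_ne_zero_iff hginj).mpr hp, ?_⟩
  rw [Polynomial.eval₂_map, hφg]
  exact hpz

end TransAux

/-- **Fields of definition over a field of rational functions.** -/
theorem transP : TransProp.{u} := by
  intro k _ _ _ hna V S
  obtain ⟨t, ht, htV⟩ : ∃ t : k, Transcendental ℚ t ∧ t ∈ V := by
    obtain ⟨t, ht⟩ : ∃ t : k, ¬ IsAlgebraic ℚ t := by
      by_contra h
      push Not at h
      exact hna ⟨h⟩
    rcases V.mem_or_inv_mem t with h | h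
    · exact ⟨t, ht, h⟩
    · exact ⟨t⁻¹, fun h' => ht (IsAlgebraic.inv_iff.mp h'), h⟩
  obtain ⟨F, hF, φ, hφX, halg⟩ := TransAux.base k t ht
  let _ : Algebra (RatFunc F) k := φ.toAlgebra
  have halg' : Algebra.IsAlgebraic (RatFunc F) k := ⟨halg⟩
  have : CharZero (RatFunc F) := by
    refine ⟨fun a b hab => ?_⟩
    have h1 := congrArg φ hab
    rw [map_natCast, map_natCast] at h1
    exact_mod_cast h1
  have : IsAlgClosure (RatFunc F) k := ⟨inferInstance, halg'⟩
  have : Normal (RatFunc F) k := IsAlgClosure.normal _ _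
  have hfin : FiniteDimensional (RatFunc F) (IntermediateField.adjoin (RatFunc F) (S : Set k)) :=
    IntermediateField.finiteDimensional_adjoin fun x _ => Algebra.IsIntegral.isIntegral x
  let N := IntermediateField.normalClosure (RatFunc F)
    (IntermediateField.adjoin (RatFunc F) (S : Set k)) k
  refine ⟨F, hF, N.toSubfield, inferInstanceAs (Algebra (RatFunc F) N), ?_, ?_, ?_, ?_⟩
  · exact (inferInstance : FiniteDimensional (RatFunc F) N)
  · have h1 : IsGalois (RatFunc F) N := ⟨⟩
    exact h1
  · intro x hx
    have h1 : (IntermediateField.adjoin (RatFunc F) (S : Set k)) ≤ N :=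
      IntermediateField.le_normalClosure _
    exact h1 (IntermediateField.subset_adjoin _ _ hx)
  · have h1 : ((algebraMap (RatFunc F) N RatFunc.X : N) : k) = t := hφX
    have h2 : ((algebraMap (RatFunc F) N RatFunc.X : N) : k) ∈ V := by
      rw [h1]
      exact htV
    exact h2

end Pool.Agent.Lib.MP_16285c_ag
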