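import Pool.Agent.Lib.MP_16285c_ag.Spec

set_option autoImplicit false

namespace Pool.Agent.Lib.MP_16285c_ag

universe u

theorem upP (h1 : PowProp.{u}) (h2 : PolyProp.{u}) (h3 : VecProp.{u}) : UpProp.{u} := by
  intro K _ _ n P Q d hP hQ
  -- height of the matrix of coefficients
  have hco : ∀ G : MvPolynomial (Fin n) K, ∃ C : ℝ, 0 ≤ C ∧ ∀ x : Fin n → K,
      Height.logHeight₁ (MvPolynomial.eval x G) ≤ C * (1 + ∑ i, Height.logHeight₁ (x i)) := h2 K n
  choose C hC hCx using hco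
  let M : Fin 2 × Fin (d + 1) → MvPolynomial (Fin n) K := fun c =>
    if c.1 = 0 then P.coeff c.2 else Q.coeff c.2
  have hd0 : (0 : ℝ) ≤ Height.totalWeight K * Real.log (Nat.card (Fin (d + 1))) :=
    mul_nonneg (Nat.cast_nonneg _) (Real.log_natCast_nonneg _)
  refine ⟨Height.totalWeight K * Real.log (Nat.card (Fin (d + 1))) + ∑ c, C (M c),
    add_nonneg hd0 (Finset.sum_nonneg fun c _ => hC _), fun x y z hq hz => ?_⟩
  have hs : 0 ≤ ∑ i, Height.logHeight₁ (x i) :=
    Finset.sum_nonneg fun i _ => Height.zero_le_logHeight₁ _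
  have hev : ∀ G : TP K n, G.natDegree ≤ d →
      (ev x G).eval y = ∑ i : Fin (d + 1), MvPolynomial.eval x (G.coeff i) * y ^ (i : ℕ) := by
    intro G hG
    rw [ev, Polynomial.eval_map, Polynomial.eval₂_eq_sum_range' _ (Nat.lt_succ_of_le hG),
      ← Fin.sum_univ_eq_sum_range (fun i => MvPolynomial.eval x (G.coeff i) * y ^ i)]
  have hzdiv : z = (ev x P).eval y / (ev x Q).eval y := by
    rw [eq_div_iff hq]; exact hz
  have hvec : (![(ev x P).eval y, (ev x Q).eval y] : Fin 2 → K) =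
      fun c => ∑ i : Fin (d + 1), MvPolynomial.eval x (M (c, i)) * y ^ (i : ℕ) := by
    funext c
    fin_cases c
    · simp only [M]
      exact hev P hP
    · simp only [M]
      exact hev Q hQ
  have h4 := Height.logHeight_linearMap_apply_le (K := K)
    (fun c : Fin 2 × Fin (d + 1) => MvPolynomial.eval x (M c)) (fun i : Fin (d + 1) => y ^ (i : ℕ))
  have h5 := h3 K (Fin 2 × Fin (d + 1)) (fun c => MvPolynomial.eval x (M c))
  have h6 : ∑ c : Fin 2 × Fin (d + 1), Height.logHeight₁ (MvPolynomial.eval x (M c)) ≤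
      (∑ c, C (M c)) * (1 + ∑ i, Height.logHeight₁ (x i)) := by
    rw [Finset.sum_mul]
    exact Finset.sum_le_sum fun c _ => hCx (M c) x
  rw [h1 K y d] at h4
  rw [hzdiv, Height.logHeight₁_div_eq_logHeight, hvec]
  nlinarith [mul_nonneg hd0 hs]

end Pool.Agent.Lib.MP_16285c_ag
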