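import Pool.Agent.Lib.MP_16285c_ag.Spec

set_option autoImplicit false

namespace Pool.Agent.Lib.MP_16285c_ag

universe u

theorem vecP : VecProp.{u} := by
  classical
  intro K _ _ ι _ x
  have h1 : Height.logHeight (fun I : ι → Fin 2 => ∏ a, (![x a, 1] : Fin 2 → K) (I a)) =
      ∑ a, Height.logHeight (![x a, 1] : Fin 2 → K) :=
    Height.logHeight_fun_prod_eq (fun a h => by
      have := congrFun h 1
      simp at this)
  have h2 : (fun I : ι → Fin 2 => ∏ a, (![x a, 1] : Fin 2 → K) (I a)) ∘
      (fun j a => if a = j then (0 : Fin 2) else 1) = x := by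
    funext j
    simp only [Function.comp_apply]
    rw [Finset.prod_eq_single j]
    · simp
    · intro b _ hb
      simp [hb]
    · intro h
      exact absurd (Finset.mem_univ j) h
  have h3 := Height.logHeight_comp_le (fun (j : ι) (a : ι) => if a = j then (0 : Fin 2) else 1)
    (fun I : ι → Fin 2 => ∏ a, (![x a, 1] : Fin 2 → K) (I a))
  rw [h2, h1] at h3
  refine h3.trans (le_of_eq (Finset.sum_congr rfl fun a _ => ?_))
  rw [Height.logHeight₁_eq_logHeight]

end Pool.Agent.Lib.MP_16285c_ag
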