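import Pool.Agent.Lib.MP_16285c_ag.Spec

set_option autoImplicit false

namespace Pool.Agent.Lib.MP_16285c_ag

universe u

namespace WrOfAux

theorem deriv_zero {k : Type u} [Field k] [CharZero k] {n : ℕ} (P Q : TP k n) (h : IsRelPrime P Q)
    (hW : P * Polynomial.derivative Q = Polynomial.derivative P * Q) :
    P.natDegree = 0 := by
  have h1 : P ∣ Polynomial.derivative P * Q := ⟨_, hW.symm⟩
  have h2 : P ∣ Polynomial.derivative P := h.dvd_of_dvd_mul_right h1
  by_contra hP
  have h3 : Polynomial.derivative P = 0 := by
    by_contra h0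
    have h4 := Polynomial.natDegree_le_of_dvd h2 h0
    have h5 := Polynomial.natDegree_derivative_lt hP
    omega
  exact hP (Polynomial.derivative_eq_zero.1 h3)

end WrOfAux

theorem wrOfP : WrOfProp.{u} := by
  intro k _ _ n P Q h hd hW
  have h0 : P * Polynomial.derivative Q = Polynomial.derivative P * Q := sub_eq_zero.1 hW
  have h1 := WrOfAux.deriv_zero P Q h h0
  have h2 := WrOfAux.deriv_zero Q P h.symm (by linear_combination -h0)
  rw [h1, h2] at hd
  simp at hd

end Pool.Agent.Lib.MP_16285c_ag
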